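import Pool.Agent.H300R2.BH.Defs

/-!
Full boxes of polynomials: definitions.
-/

namespace Pool.Agent.H300R2.FB

open Finset Polynomial
open Pool.Agent.H469R2.NK (e)
open Pool.Agent.H442R2.EHI
open Pool.Agent.H300R2.BH

/-- the real polynomial `∑_{1 ≤ i < j} b_i t^i` (with `b_i` indexed from `0`) -/
noncomputable def tR (j : ℕ) (b : Fin (j - 1) → ℝ) (t : ℝ) : ℝ :=
  ∑ i : Fin (j - 1), b i * t ^ ((i : ℕ) + 1)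

/-- the real polynomial `t^j + ∑_{1 ≤ i < j} b_i t^i` (with `b_i` indexed from `0`) -/
noncomputable def pw (j : ℕ) (b : Fin (j - 1) → ℝ) (t : ℝ) : ℝ := t ^ j + tR j b t

/-- the integer polynomial `∑_{1 ≤ i < j} r_i X^i` (with `r_i` indexed from `0`) -/
noncomputable def Rr (j : ℕ) (r : Fin (j - 1) → ℤ) : ℤ[X] :=
  ∑ i : Fin (j - 1), C (r i) * X ^ ((i : ℕ) + 1)

/-- the box `|r_i| ≤ H_i` -/
noncomputable def bx (j : ℕ) (H : Fin (j - 1) → ℕ) : Finset (Fin (j - 1) → ℤ) :=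
  Fintype.piFinset (fun i => Icc (-(H i : ℤ)) (H i))

/-- van der Corput for `log pw` -/
def VdcPoly : Prop := ∀ (j : ℕ), 1 ≤ j → ∀ M : ℕ, ∃ κ : ℝ, 0 < κ ∧ ∃ η : ℝ, 0 < η ∧ ∃ C : ℝ, 0 < C ∧
  ∀ (J L : ℕ) (u ξ : ℝ) (b : Fin (j - 1) → ℝ), 1 ≤ J → (J : ℝ) ≤ u → L ≤ J → u + L ≤ 3 * J →
  (∀ i, |b i| ≤ κ * (J : ℝ) ^ (j - 1 - (i : ℕ))) → 1 ≤ |ξ| → |ξ| ≤ (J : ℝ) ^ M →
  ‖∑ n ∈ range L, e (ξ * Real.log (pw j b (u + n)))‖ ≤ C * ((J : ℝ) ^ (1 - η) + J / |ξ|)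

end Pool.Agent.H300R2.FB
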