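import Pool.Agent.H291R2.FB_LsMulti
import Pool.Agent.H300R2.FB.F3
import Pool.Agent.H300R2.BH.MajSM

/-!
Minor arcs for full boxes of polynomials.
-/

namespace Pool.Agent.H300R2.FB

open Finset Polynomial
open Pool.Agent.H469R2.NK (e norm_e e_add conj_e e_zero)
open Pool.Agent.H442R2.EHI
open Pool.Agent.H300R2.BH
open Pool.Agent.H291R2.FB (ls_multi)

lemma nint_neg' (x : ℝ) : nint (-x) = nint x := by
  have h1 := F3.nint_le (-x) (-(round x))
  have h2 := F3.nint_le x (-(round (-x)))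
  have h3 : |(-x) - ((-(round x) : ℤ) : ℝ)| = nint x := by
    unfold nint
    rw [← abs_neg]; congr 1; push_cast; ring
  have h4 : |x - ((-(round (-x)) : ℤ) : ℝ)| = nint (-x) := by
    unfold nint
    rw [← abs_neg]; congr 1; push_cast; ring
  linarith

open Classical in
lemma sum_pairs_le {β : Type*} (I : Finset β) (P : β → β → Prop) (hP : ∀ b b', P b b' → P b' b)
    (g : β → ℝ) : ∑ b ∈ I, ∑ b' ∈ I, (if P b b' then g b * g b' else 0) ≤
      ∑ b ∈ I, g b ^ 2 * ((I.filter (fun b' => P b b')).card : ℝ) := by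
  have h1 : ∑ b ∈ I, ∑ b' ∈ I, (if P b b' then g b * g b' else 0) ≤
      ∑ b ∈ I, ∑ b' ∈ I, ((if P b b' then g b ^ 2 / 2 else 0) +
        (if P b b' then g b' ^ 2 / 2 else 0)) := by
    refine sum_le_sum fun b _ => sum_le_sum fun b' _ => ?_
    split_ifs
    · nlinarith [sq_nonneg (g b - g b')]
    · simp
  have h2 : ∑ b ∈ I, ∑ b' ∈ I, (if P b b' then g b' ^ 2 / 2 else 0) =
      ∑ b ∈ I, ∑ b' ∈ I, (if P b b' then g b ^ 2 / 2 else 0) := by
    rw [sum_comm]
    refine sum_congr rfl fun b _ => sum_congr rfl fun b' _ => ?_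
    by_cases h : P b b'
    · rw [if_pos h, if_pos (hP _ _ h)]
    · rw [if_neg h, if_neg (fun h' => h (hP _ _ h'))]
  refine h1.trans (le_of_eq ?_)
  simp only [sum_add_distrib]
  rw [h2, ← two_mul, mul_sum]
  refine sum_congr rfl fun b _ => ?_
  rw [← sum_filter, sum_const, nsmul_eq_mul]
  ring

open Classical in
/-- the mean square over a full box of polynomials -/
theorem minorF (j : ℕ) (hj : 1 ≤ j) (N A D A1 K1 K : ℕ) (H : Fin (j - 1) → ℕ) (T : Finset ℕ)
    (hT : T ⊆ Icc K1 K) (a0 : ℕ) (σ : ℤ) (hσ : σ = 1 ∨ σ = -1) (c : ℕ → ℂ) (w : ℕ → ℕ → ℂ)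
    (hw : ∀ k h, ‖w k h‖ ≤ 1) (hA1 : 1 ≤ A1) (hA : A1 ≤ A) (hH : ∀ i, A1 ≤ 2 * H i + 1)
    (hD : 1 ≤ D) (hNA : 8 * A ≤ N) (hND : 8 * D ≤ N) (hNH : ∀ i, 8 * (2 * H i + 1) ≤ N)
    (hK1 : 1 ≤ K1) (h4 : 4 * K ≤ A1) (R : ℝ)
    (hR : ∀ h ∈ range N, c h ≠ 0 →
      (((T ×ˢ T).filter (fun kk : ℕ × ℕ => ∃ β : ℝ,
        (∀ l < j, nint ((h : ℝ) / N * (kk.1 : ℝ) ^ l - β * (kk.2 : ℝ) ^ l) ≤ 1 / (2 * (A1 : ℝ))) ∧
        nint ((h : ℝ) / N * (kk.1 : ℝ) ^ j - β * (kk.2 : ℝ) ^ j) ≤ 1 / (2 * (D : ℝ)))).card : ℝ) ≤ R) :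
    ∑ r ∈ bx j H, ∑ a ∈ Ioc a0 (a0 + A), ∑ d ∈ Ioc D (2 * D),
      ‖∑ k ∈ T, ∑ h ∈ range N, c h * w k h *
        e (-(((a : ℝ) + tR j (fun i => (r i : ℝ)) k + σ * d * (k : ℝ) ^ j) * h / N))‖ ^ 2 ≤
      (10 * (A : ℝ)) * ((10 * (D : ℝ)) * ∏ i, (10 * ((2 * H i + 1 : ℕ) : ℝ))) *
        ((R * (4 * N / (D * (K1 : ℝ) ^ j) + 1)) * ∑ h ∈ range N, ‖c h‖ ^ 2) := by
  have hN : 1 ≤ N := by omega
  have hN0 : (0:ℝ) < N := by exact_mod_cast hN
  set M : Option (Option (Fin (j - 1))) → ℕ := fun i => match i with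
    | none => A
    | some none => D
    | some (some i) => 2 * H i + 1 with hM
  set I : Finset (ℕ × ℕ) := T ×ˢ range N with hI
  set u : ℕ × ℕ → Option (Option (Fin (j - 1))) → ℤ := fun b i => match i with
    | none => -(b.2 : ℤ)
    | some none => -(σ * (b.1 : ℤ) ^ j * b.2)
    | some (some i) => -((b.1 : ℤ) ^ ((i : ℕ) + 1) * b.2) with hu
  set z : ℕ × ℕ → ℂ := fun b => c b.2 * w b.1 b.2 *
    e (-(((a0 : ℝ) + 1 + σ * (D + 1) * (b.1 : ℝ) ^ j -
      tR j (fun i => (H i : ℝ)) b.1) * b.2 / N)) with hz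
  have hls := ls_multi N hN M (by
    intro i
    match i with
    | none => exact ⟨hA1.trans hA, hNA⟩
    | some none => exact ⟨hD, hND⟩
    | some (some i) => exact ⟨by simp only [hM]; omega, hNH i⟩) I u z
  -- left-hand side
  have hLHS : ∑ r ∈ bx j H, ∑ a ∈ Ioc a0 (a0 + A), ∑ d ∈ Ioc D (2 * D),
      ‖∑ k ∈ T, ∑ h ∈ range N, c h * w k h *
        e (-(((a : ℝ) + tR j (fun i => (r i : ℝ)) k + σ * d * (k : ℝ) ^ j) * h / N))‖ ^ 2 =
      ∑ x ∈ Fintype.piFinset (fun i => range (M i)),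
        ‖∑ b ∈ I, z b * e ((∑ i, (u b i : ℝ) * (x i : ℝ)) / N)‖ ^ 2 := by
    simp only [← sum_product']
    refine Finset.sum_nbij'
      (fun p : (Fin (j - 1) → ℤ) × ℕ × ℕ => fun i : Option (Option (Fin (j - 1))) => match i with
        | none => p.2.1 - a0 - 1
        | some none => p.2.2 - D - 1
        | some (some i) => (p.1 i + H i).toNat)
      (fun x => ((fun i => (x (some (some i)) : ℤ) - H i), a0 + 1 + x none, D + 1 + x (some none)))
      ?_ ?_ ?_ ?_ ?_
    · rintro ⟨r, a, d⟩ hp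
      simp only [mem_product, mem_Ioc] at hp
      rw [Fintype.mem_piFinset]
      intro i
      match i with
      | none => simp only [hM, mem_range]; omega
      | some none => simp only [hM, mem_range]; omega
      | some (some i) =>
        simp only [hM, mem_range]
        have h1 := hp.1
        unfold bx at h1
        rw [Fintype.mem_piFinset] at h1
        have h2 := h1 i
        rw [mem_Icc] at h2
        omega
    · intro x hx
      rw [Fintype.mem_piFinset] at hx
      have h1 := hx none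
      have h2 := hx (some none)
      simp only [hM, mem_range] at h1 h2
      simp only [mem_product, mem_Ioc]
      refine ⟨?_, by omega, by omega⟩
      unfold bx
      rw [Fintype.mem_piFinset]
      intro i
      have h3 := hx (some (some i))
      simp only [hM, mem_range] at h3
      rw [mem_Icc]
      constructor <;> omega
    · rintro ⟨r, a, d⟩ hp
      simp only [mem_product, mem_Ioc] at hp
      simp only [Prod.mk.injEq]
      refine ⟨?_, by omega, by omega⟩
      funext i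
      have h1 := hp.1
      unfold bx at h1
      rw [Fintype.mem_piFinset] at h1
      have h2 := h1 i
      rw [mem_Icc] at h2
      omega
    · intro x hx
      funext i
      match i with
      | none => simp only []; omega
      | some none => simp only []; omega
      | some (some i) => simp only []; omega
    · rintro ⟨r, a, d⟩ hp
      simp only [mem_product, mem_Ioc] at hp
      obtain ⟨h1, h2, h3⟩ := hp
      simp only []
      congr 2
      rw [hI]
      refine sum_congr rfl fun b _ => ?_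
      obtain ⟨k, h⟩ := b
      simp only [hz, hu, Fintype.sum_option]
      rw [mul_assoc (c h * w k h), ← e_add]
      congr 2
      have e1 : ((a - a0 - 1 : ℕ) : ℝ) = a - a0 - 1 := by
        rw [Nat.cast_sub (by omega), Nat.cast_sub (by omega)]; push_cast; ring
      have e2 : ((d - D - 1 : ℕ) : ℝ) = d - D - 1 := by
        rw [Nat.cast_sub (by omega), Nat.cast_sub (by omega)]; push_cast; ring
      have e3 : ∀ i : Fin (j - 1), (((r i + H i).toNat : ℕ) : ℝ) = r i + H i := by
        intro i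
        unfold bx at h1
        rw [Fintype.mem_piFinset] at h1
        have h5 := h1 i
        rw [mem_Icc] at h5
        have h6 : (((r i + H i).toNat : ℕ) : ℤ) = r i + H i := Int.toNat_of_nonneg (by omega)
        exact_mod_cast h6
      rw [e1, e2]
      simp only [e3]
      have e4 : ∑ i : Fin (j - 1), ((-((k : ℤ) ^ ((i : ℕ) + 1) * (h : ℤ)) : ℤ) : ℝ) * ((r i : ℝ) + (H i : ℝ)) =
          -(tR j (fun i => (r i : ℝ)) k + tR j (fun i => (H i : ℝ)) k) * h := by
        unfold tR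
        rw [← sum_add_distrib, neg_mul, sum_mul, ← sum_neg_distrib]
        refine sum_congr rfl fun i _ => ?_
        push_cast; ring
      rw [e4]
      push_cast
      field_simp
      ring
  rw [hLHS]
  refine hls.trans ?_
  have hprod : ∏ i, (10 * (M i : ℝ)) = (10 * (A : ℝ)) * ((10 * (D : ℝ)) * ∏ i, (10 * ((2 * H i + 1 : ℕ) : ℝ))) := by
    rw [Fintype.prod_option, Fintype.prod_option]
  rw [hprod]
  apply mul_le_mul_of_nonneg_left _ (by positivity)
  -- the pairs
  obtain ⟨P, hP⟩ : ∃ P : ℕ × ℕ → ℕ × ℕ → Prop, ∀ b b', P b b' ↔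
    ∀ i, nint (((u b i - u b' i : ℤ) : ℝ) / N) ≤ 1 / (2 * (M i : ℝ)) := ⟨_, fun _ _ => Iff.rfl⟩
  have hPsymm : ∀ b b', P b b' → P b' b := by
    intro b b' h
    rw [hP] at h ⊢
    intro i
    have h1 := h i
    have h2 : ((u b' i - u b i : ℤ) : ℝ) / N = -(((u b i - u b' i : ℤ) : ℝ) / N) := by
      push_cast; ring
    rw [h2, nint_neg']
    exact h1
  have hpl := sum_pairs_le I P hPsymm (fun b => ‖z b‖)
  refine le_trans (le_of_eq ?_) (hpl.trans ?_)
  · refine sum_congr rfl fun b _ => sum_congr rfl fun b' _ => ?_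
    by_cases h : P b b'
    · rw [if_pos h, if_pos ((hP _ _).mp h)]
    · rw [if_neg h, if_neg (fun h' => h ((hP _ _).mpr h'))]
  have hzn : ∀ b, ‖z b‖ ^ 2 ≤ ‖c b.2‖ ^ 2 := by
    intro b
    apply pow_le_pow_left₀ (norm_nonneg _)
    simp only [hz]
    rw [norm_mul, norm_e, mul_one, norm_mul]
    exact mul_le_of_le_one_right (norm_nonneg _) (hw _ _)
  have hstep : ∑ b ∈ I, ‖z b‖ ^ 2 * ((I.filter (fun b' => P b b')).card : ℝ) ≤
      ∑ h ∈ range N, ‖c h‖ ^ 2 * ∑ k ∈ T, ((I.filter (fun b' => P (k, h) b')).card : ℝ) := by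
    rw [hI, sum_product_right]
    refine sum_le_sum fun h _ => ?_
    rw [mul_sum]
    refine sum_le_sum fun k _ => ?_
    exact mul_le_mul_of_nonneg_right (hzn (k, h)) (Nat.cast_nonneg _)
  refine hstep.trans ?_
  rw [mul_sum]
  refine sum_le_sum fun h hh => ?_
  rw [mul_comm (R * _)]
  by_cases hc : c h = 0
  · rw [hc]; simp
  apply mul_le_mul_of_nonneg_left _ (by positivity)
  -- counting
  set F : ℝ := 4 * N / (D * (K1 : ℝ) ^ j) + 1 with hF
  have hF0 : 0 ≤ F := by positivity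
  set good : ℕ × ℕ → Prop := fun kk => ∃ β : ℝ,
        (∀ l < j, nint ((h : ℝ) / N * (kk.1 : ℝ) ^ l - β * (kk.2 : ℝ) ^ l) ≤ 1 / (2 * (A1 : ℝ))) ∧
        nint ((h : ℝ) / N * (kk.1 : ℝ) ^ j - β * (kk.2 : ℝ) ^ j) ≤ 1 / (2 * (D : ℝ)) with hgood
  have hA1r : (0:ℝ) < A1 := by exact_mod_cast hA1
  have hPcond : ∀ k k' h' : ℕ, P (k, h) (k', h') →
      (∀ l < j, nint ((h : ℝ) / N * (k : ℝ) ^ l - (k' : ℝ) ^ l * h' / N) ≤ 1 / (2 * (A1 : ℝ))) ∧
        nint ((h : ℝ) / N * (k : ℝ) ^ j - (k' : ℝ) ^ j * h' / N) ≤ 1 / (2 * (D : ℝ)) := by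
    intro k k' h' hp
    rw [hP] at hp
    constructor
    · intro l hl
      rcases Nat.eq_zero_or_pos l with h0 | h0
      · subst h0
        have h1 := hp none
        simp only [hu, hM] at h1
        have h2 : (((-(h : ℤ)) - (-(h' : ℤ)) : ℤ) : ℝ) / N =
            -((h : ℝ) / N * (k : ℝ) ^ 0 - (k' : ℝ) ^ 0 * h' / N) := by
          push_cast; ring
        rw [h2, nint_neg'] at h1
        refine h1.trans ?_
        apply one_div_le_one_div_of_le (by positivity)
        have : (A1:ℝ) ≤ A := by exact_mod_cast hA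
        linarith
      · have hl' : l - 1 < j - 1 := by omega
        have h1 := hp (some (some ⟨l - 1, hl'⟩))
        simp only [hu, hM] at h1
        rw [show l - 1 + 1 = l by omega] at h1
        have h2 : (((-((k : ℤ) ^ l * (h : ℤ))) - (-((k' : ℤ) ^ l * (h' : ℤ))) : ℤ) : ℝ) / N =
            -((h : ℝ) / N * (k : ℝ) ^ l - (k' : ℝ) ^ l * h' / N) := by
          push_cast; ring
        rw [h2, nint_neg'] at h1
        refine h1.trans ?_
        apply one_div_le_one_div_of_le (by positivity)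
        have : (A1:ℝ) ≤ ((2 * H ⟨l - 1, hl'⟩ + 1 : ℕ) : ℝ) := by exact_mod_cast hH _
        linarith
    · have h1 := hp (some none)
      simp only [hu, hM] at h1
      rcases hσ with h5 | h5
      · have h2 : (((-(σ * (k : ℤ) ^ j * (h : ℤ))) - (-(σ * (k' : ℤ) ^ j * (h' : ℤ))) : ℤ) : ℝ) / N =
            -((h : ℝ) / N * (k : ℝ) ^ j - (k' : ℝ) ^ j * h' / N) := by
          rw [h5]; push_cast; ring
        rw [h2, nint_neg'] at h1
        exact h1
      · have h2 : (((-(σ * (k : ℤ) ^ j * (h : ℤ))) - (-(σ * (k' : ℤ) ^ j * (h' : ℤ))) : ℤ) : ℝ) / N =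
            ((h : ℝ) / N * (k : ℝ) ^ j - (k' : ℝ) ^ j * h' / N) := by
          rw [h5]; push_cast; ring
        rw [h2] at h1
        exact h1
  have hfib : ∀ k ∈ T, ∀ k' ∈ T, (((range N).filter (fun h' => P (k, h) (k', h'))).card : ℝ) ≤
      if good (k, k') then F else 0 := by
    intro k hk k' hk'
    have hk2 := hT hk'
    rw [mem_Icc] at hk2
    split_ifs with hg
    · have h1 := fibre_full j hj N A1 D K K1 k' hN hD hK1 hk2.1 hk2.2 h4
        (fun l => (h : ℝ) / N * (k : ℝ) ^ l)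
      refine le_trans ?_ h1
      refine Nat.cast_le.mpr (card_le_card (fun h' hh' => ?_))
      rw [mem_filter] at hh' ⊢
      exact ⟨hh'.1, hPcond k k' h' hh'.2⟩
    · have : (range N).filter (fun h' => P (k, h) (k', h')) = ∅ := by
        rw [filter_eq_empty_iff]
        intro h' _ hp
        apply hg
        refine ⟨(h' : ℝ) / N, ?_, ?_⟩
        · intro l hl
          have := (hPcond k k' h' hp).1 l hl
          rw [show (h' : ℝ) / N * (k' : ℝ) ^ l = (k' : ℝ) ^ l * h' / N by ring]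
          exact this
        · have := (hPcond k k' h' hp).2
          rw [show (h' : ℝ) / N * (k' : ℝ) ^ j = (k' : ℝ) ^ j * h' / N by ring]
          exact this
      rw [this]; simp
  calc ∑ k ∈ T, ((I.filter (fun b' => P (k, h) b')).card : ℝ)
      = ∑ k ∈ T, ∑ k' ∈ T, (((range N).filter (fun h' => P (k, h) (k', h'))).card : ℝ) := by
        refine sum_congr rfl fun k _ => ?_
        rw [hI, card_filter, sum_product]
        push_cast
        refine sum_congr rfl fun k' _ => ?_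
        rw [card_filter]
        push_cast
        rfl
    _ ≤ ∑ k ∈ T, ∑ k' ∈ T, (if good (k, k') then F else 0) :=
        sum_le_sum fun k hk => sum_le_sum fun k' hk' => hfib k hk k' hk'
    _ = (((T ×ˢ T).filter good).card : ℝ) * F := by
        rw [← sum_product', ← sum_filter, sum_const, nsmul_eq_mul]
    _ ≤ R * F := by
        apply mul_le_mul_of_nonneg_right _ hF0
        exact hR h hh hc

end Pool.Agent.H300R2.FB
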