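import Pool.Agent.H300R2.FB.BHR
import Pool.Agent.H300R2.FB.CoreF

/-!
Bateman-Horn on average over a full box of polynomials.
-/

namespace Pool.Agent.H300R2.FB

open Finset Polynomial Filter
open Pool.Agent.H442R2.EHI (norm_add_sq_le evt_log_pow evt_log_ge ff gg ff_fourier ff_sq ff_bound
  ff_zero_of_gt)
open Pool.Agent.H300R2.BH

/-- box conditions -/
def BoxF (j K D A a0 : ℕ) (m0 σ : ℤ) (x t : ℝ) : Prop :=
  (σ = 1 ∧ (-((a0 : ℝ) + m0)) * t ≤ D * (K : ℝ) ^ j ∧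
    (a0 : ℝ) + A + m0 + 3 * D * (K : ℝ) ^ j ≤ x) ∨
  (σ = -1 ∧ 4 * D * (K : ℝ) ^ j ≤ (a0 : ℝ) + m0 ∧ (a0 : ℝ) + A + m0 + D * (K : ℝ) ^ j ≤ x)

lemma mem_bx {j : ℕ} {H : Fin (j - 1) → ℕ} {r : Fin (j - 1) → ℤ} (hr : r ∈ bx j H) (i) :
    |(r i : ℝ)| ≤ H i := by
  unfold bx at hr
  rw [Fintype.mem_piFinset] at hr
  have h1 := hr i
  rw [mem_Icc] at h1
  rw [abs_le]
  constructor
  · exact_mod_cast h1.1
  · exact_mod_cast h1.2

lemma tR_bound (j : ℕ) (H : Fin (j - 1) → ℕ) (r : Fin (j - 1) → ℤ) (hr : r ∈ bx j H)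
    (D K t k : ℝ) (ht : 0 ≤ t) (hD : 0 ≤ D) (hk : 0 ≤ k) (hkK : k ≤ K)
    (hH : ∀ i, (H i : ℝ) * t ≤ D * K ^ (j - 1 - (i : ℕ))) :
    |tR j (fun i => (r i : ℝ)) k| * t ≤ j * (D * K ^ j) := by
  unfold tR
  have hK0 : 0 ≤ K := hk.trans hkK
  have h1 : |∑ i : Fin (j - 1), (r i : ℝ) * k ^ ((i : ℕ) + 1)| ≤
      ∑ i : Fin (j - 1), (H i : ℝ) * K ^ ((i : ℕ) + 1) := by
    refine (abs_sum_le_sum_abs _ _).trans (sum_le_sum fun i _ => ?_)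
    rw [abs_mul, abs_of_nonneg (pow_nonneg hk _)]
    have := mem_bx hr i
    gcongr
  calc _ ≤ (∑ i : Fin (j - 1), (H i : ℝ) * K ^ ((i : ℕ) + 1)) * t := by gcongr
    _ = ∑ i : Fin (j - 1), ((H i : ℝ) * t) * K ^ ((i : ℕ) + 1) := by
        rw [sum_mul]
        refine sum_congr rfl fun i _ => ?_
        ring
    _ ≤ ∑ i : Fin (j - 1), D * K ^ j := by
        refine sum_le_sum fun i _ => ?_
        have hi := i.2
        calc ((H i : ℝ) * t) * K ^ ((i : ℕ) + 1) ≤ (D * K ^ (j - 1 - (i : ℕ))) * K ^ ((i : ℕ) + 1) :=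
              mul_le_mul_of_nonneg_right (hH i) (pow_nonneg hK0 _)
          _ = D * (K ^ (j - 1 - (i : ℕ)) * K ^ ((i : ℕ) + 1)) := by ring
          _ = D * K ^ j := by rw [← pow_add]; congr 2; omega
    _ = ((j - 1 : ℕ) : ℝ) * (D * K ^ j) := by simp
    _ ≤ j * (D * K ^ j) := by
        gcongr
        omega

lemma tR_diff (j : ℕ) (H : Fin (j - 1) → ℕ) (r : Fin (j - 1) → ℤ) (hr : r ∈ bx j H)
    (D t : ℝ) (k K : ℕ) (ht : 0 ≤ t) (hD : 0 ≤ D) (hkK : k + 1 ≤ K)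
    (hH : ∀ i, (H i : ℝ) * t ≤ D * (K : ℝ) ^ (j - 1 - (i : ℕ))) :
    |tR j (fun i => (r i : ℝ)) ((k : ℝ) + 1) - tR j (fun i => (r i : ℝ)) k| * t ≤
      (j : ℝ) ^ 2 * (D * (K : ℝ) ^ (j - 1)) := by
  unfold tR
  rw [← sum_sub_distrib]
  have h1 : |∑ i : Fin (j - 1), ((r i : ℝ) * ((k : ℝ) + 1) ^ ((i : ℕ) + 1) -
      (r i : ℝ) * (k : ℝ) ^ ((i : ℕ) + 1))| ≤
      ∑ i : Fin (j - 1), (H i : ℝ) * (j * (K : ℝ) ^ (i : ℕ)) := by
    refine (abs_sum_le_sum_abs _ _).trans (sum_le_sum fun i _ => ?_)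
    have hi := i.2
    rw [← mul_sub, abs_mul]
    have h2 := pow_diff ((i : ℕ) + 1) k K hkK
    have h2' : ((k : ℝ) + 1) ^ ((i : ℕ) + 1) ≤ (k : ℝ) ^ ((i : ℕ) + 1) +
        (((i : ℕ) + 1 : ℕ) : ℝ) * (K : ℝ) ^ ((i : ℕ) + 1 - 1) := by exact_mod_cast h2
    have h3 : (k : ℝ) ^ ((i : ℕ) + 1) ≤ ((k : ℝ) + 1) ^ ((i : ℕ) + 1) := by gcongr; linarith
    rw [abs_of_nonneg (by linarith : (0:ℝ) ≤ ((k : ℝ) + 1) ^ ((i : ℕ) + 1) - (k : ℝ) ^ ((i : ℕ) + 1))]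
    have h4 : (((i : ℕ) + 1 : ℕ) : ℝ) * (K : ℝ) ^ ((i : ℕ) + 1 - 1) ≤ j * (K : ℝ) ^ (i : ℕ) := by
      rw [Nat.add_sub_cancel]
      gcongr
      omega
    have := mem_bx hr i
    apply mul_le_mul this (by linarith) (by linarith) (by positivity)
  calc _ ≤ (∑ i : Fin (j - 1), (H i : ℝ) * (j * (K : ℝ) ^ (i : ℕ))) * t := by gcongr
    _ = ∑ i : Fin (j - 1), j * (((H i : ℝ) * t) * (K : ℝ) ^ (i : ℕ)) := by
        rw [sum_mul]
        refine sum_congr rfl fun i _ => ?_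
        ring
    _ ≤ ∑ i : Fin (j - 1), j * (D * (K : ℝ) ^ (j - 1)) := by
        refine sum_le_sum fun i _ => ?_
        have hi := i.2
        apply mul_le_mul_of_nonneg_left _ (Nat.cast_nonneg _)
        calc ((H i : ℝ) * t) * (K : ℝ) ^ (i : ℕ) ≤ (D * (K : ℝ) ^ (j - 1 - (i : ℕ))) * (K : ℝ) ^ (i : ℕ) :=
              mul_le_mul_of_nonneg_right (hH i) (by positivity)
          _ = D * ((K : ℝ) ^ (j - 1 - (i : ℕ)) * (K : ℝ) ^ (i : ℕ)) := by ring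
          _ = D * (K : ℝ) ^ (j - 1) := by rw [← pow_add]; congr 2; omega
    _ = ((j - 1 : ℕ) : ℝ) * (j * (D * (K : ℝ) ^ (j - 1))) := by simp
    _ ≤ j * (j * (D * (K : ℝ) ^ (j - 1))) := by
        gcongr
        omega
    _ = _ := by ring

lemma FFr_eval (j : ℕ) (R : ℤ[X]) (m0 σ : ℤ) (r : Fin (j - 1) → ℤ) (a d k : ℕ) :
    (((FF (C m0 + R + Rr j r) j σ a d).eval (k : ℤ) : ℤ) : ℝ) =
      ((a : ℝ) + m0) + ((R.eval (k : ℤ) : ℤ) : ℝ) + tR j (fun i => (r i : ℝ)) k +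
        σ * d * (k : ℝ) ^ j := by
  rw [FF_eval, eval_add, eval_add, eval_C, ← Rr_eval]
  push_cast
  ring

/-- the values of the polynomials of a box -/
lemma fam_vals (j : ℕ) (hj : 1 ≤ j) (x t L : ℝ) (E0 E2 K K1 D A a0 : ℕ) (R : ℤ[X]) (m0 σ : ℤ)
    (H : Fin (j - 1) → ℕ) (hL : 4 ≤ L) (hD : t ≤ D) (ht : 16 * ((j : ℝ) + 2) * L ^ (j * E2) ≤ t)
    (hK1 : K1 ≤ K) (hK : 1 ≤ K)
    (hKK1 : (K : ℝ) ≤ K1 * L ^ E2) (hx : x ≤ D * (K : ℝ) ^ j * L ^ E0)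
    (hbox : BoxF j K D A a0 m0 σ x t)
    (hR : ∀ k ∈ Icc 1 K, |((R.eval (k : ℤ) : ℤ) : ℝ)| ≤ (K : ℝ) ^ j / t)
    (hH : ∀ i, (H i : ℝ) * t ≤ D * (K : ℝ) ^ (j - 1 - (i : ℕ))) (r : Fin (j - 1) → ℤ)
    (hr : r ∈ bx j H) (a d : ℕ) (ha : a ∈ Ioc a0 (a0 + A)) (hd : d ∈ Ioc D (2 * D)) :
    (∀ k ∈ Icc 1 K, (((FF (C m0 + R + Rr j r) j σ a d).eval (k : ℤ) : ℤ) : ℝ) ≤ x) ∧
    (∀ k ∈ Ioc K1 K, x / L ^ (E0 + j * E2 + 1) ≤
      (((FF (C m0 + R + Rr j r) j σ a d).eval (k : ℤ) : ℤ) : ℝ)) ∧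
    (∀ k ∈ Icc 1 K, k + 1 ∈ Icc 1 K →
      |(((FF (C m0 + R + Rr j r) j σ a d).eval ((k + 1 : ℕ) : ℤ) : ℤ) : ℝ) -
        (((FF (C m0 + R + Rr j r) j σ a d).eval (k : ℤ) : ℤ) : ℝ)| ≤
      3 * j * (D * (K : ℝ) ^ (j - 1)) + 2 * (K : ℝ) ^ j) := by
  have hL0 : 0 < L := by linarith
  have hL1 : 1 ≤ L := by linarith
  have hLp : ∀ n : ℕ, 1 ≤ L ^ n := fun n => one_le_pow₀ hL1
  have hjr : (1:ℝ) ≤ j := by exact_mod_cast hj
  have hLj := hLp (j * E2)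
  have ht16 : 16 * ((j:ℝ) + 2) ≤ t := by nlinarith
  have ht0 : 0 < t := by linarith
  have ht1 : 1 ≤ t := by linarith
  have hDr : 1 ≤ (D:ℝ) := by linarith
  have hD0 : (0:ℝ) < D := by linarith
  have hKr : (1:ℝ) ≤ K := by exact_mod_cast hK
  have hKj : (0:ℝ) < (K:ℝ) ^ j := by positivity
  set P : ℝ := D * (K:ℝ) ^ j with hP
  have hP0 : 0 < P := by positivity
  rw [mem_Ioc] at ha hd
  have hda : (D:ℝ) ≤ d := by exact_mod_cast hd.1.le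
  have hdb : (d:ℝ) ≤ 2 * D := by exact_mod_cast hd.2
  have haa : (a0:ℝ) ≤ a := by exact_mod_cast ha.1.le
  have hab : (a:ℝ) ≤ a0 + A := by exact_mod_cast ha.2
  -- small terms
  have hRs : ∀ k ∈ Icc 1 K, |((R.eval (k : ℤ) : ℤ) : ℝ)| * t ≤ P := by
    intro k hk
    have h1 := hR k hk
    rw [le_div_iff₀ ht0] at h1
    refine h1.trans ?_
    rw [hP]
    exact le_mul_of_one_le_left hKj.le hDr
  have hTs : ∀ k ∈ Icc 1 K, |tR j (fun i => (r i : ℝ)) k| * t ≤ j * P := by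
    intro k hk
    rw [mem_Icc] at hk
    exact tR_bound j H r hr D K t k ht0.le hD0.le (Nat.cast_nonneg _) (by exact_mod_cast hk.2) hH
  have hsmall : ∀ k ∈ Icc 1 K, |((R.eval (k : ℤ) : ℤ) : ℝ)| + |tR j (fun i => (r i : ℝ)) k| ≤
      P / (16 * L ^ (j * E2)) := by
    intro k hk
    have h1 := hRs k hk
    have h2 := hTs k hk
    rw [le_div_iff₀ (by positivity)]
    have h3 : (|((R.eval (k : ℤ) : ℤ) : ℝ)| + |tR j (fun i => (r i : ℝ)) k|) * t ≤ (j + 1) * P := by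
      linarith
    have h4 : ((|((R.eval (k : ℤ) : ℤ) : ℝ)| + |tR j (fun i => (r i : ℝ)) k|) *
        (16 * L ^ (j * E2))) * ((j:ℝ) + 2) ≤ P * ((j:ℝ) + 2) := by
      calc ((|((R.eval (k : ℤ) : ℤ) : ℝ)| + |tR j (fun i => (r i : ℝ)) k|) *
            (16 * L ^ (j * E2))) * ((j:ℝ) + 2)
          = (|((R.eval (k : ℤ) : ℤ) : ℝ)| + |tR j (fun i => (r i : ℝ)) k|) *
            (16 * ((j:ℝ) + 2) * L ^ (j * E2)) := by ring
        _ ≤ (|((R.eval (k : ℤ) : ℤ) : ℝ)| + |tR j (fun i => (r i : ℝ)) k|) * t := by gcongr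
        _ ≤ (j + 1) * P := h3
        _ ≤ P * ((j:ℝ) + 2) := by nlinarith
    exact le_of_mul_le_mul_right h4 (by positivity)
  have hP16 : P / (16 * L ^ (j * E2)) ≤ P / 16 := by
    apply div_le_div_of_nonneg_left hP0.le (by norm_num)
    linarith
  refine ⟨?_, ?_, ?_⟩
  · intro k hk
    have hs := hsmall k hk
    have h1 := le_abs_self (((R.eval (k : ℤ) : ℤ) : ℝ))
    have h2 := le_abs_self (tR j (fun i => (r i : ℝ)) k)
    rw [FFr_eval]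
    rw [mem_Icc] at hk
    have hkK : (k:ℝ) ≤ K := by exact_mod_cast hk.2
    have hdk : (d:ℝ) * (k:ℝ) ^ j ≤ 2 * P := by
      calc (d:ℝ) * (k:ℝ) ^ j ≤ (2 * D) * (K:ℝ) ^ j := by gcongr
        _ = 2 * P := by rw [hP]; ring
    have hdk0 : 0 ≤ (d:ℝ) * (k:ℝ) ^ j := by positivity
    rcases hbox with ⟨h3, h4, h5⟩ | ⟨h3, h4, h5⟩
    · rw [h3]
      push_cast
      have e1 : 3 * (D:ℝ) * (K:ℝ) ^ j = 3 * P := by rw [hP]; ring
      rw [e1] at h5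
      linarith
    · rw [h3]
      push_cast
      have e1 : (D:ℝ) * (K:ℝ) ^ j = P := rfl
      rw [e1] at h5
      linarith
  · intro k hk
    rw [mem_Ioc] at hk
    have hk' : k ∈ Icc 1 K := by rw [mem_Icc]; omega
    have hs := hsmall k hk'
    have h1 := neg_abs_le (((R.eval (k : ℤ) : ℤ) : ℝ))
    have h2 := neg_abs_le (tR j (fun i => (r i : ℝ)) k)
    rw [FFr_eval]
    have hkK : (k:ℝ) ≤ K := by exact_mod_cast hk.2
    have hkK1 : (K1:ℝ) ≤ k := by exact_mod_cast hk.1.le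
    have hK10 : (0:ℝ) ≤ K1 := Nat.cast_nonneg _
    have hPK1 : P / L ^ (j * E2) ≤ d * (k:ℝ) ^ j := by
      rw [div_le_iff₀ (by positivity), hP]
      calc (D:ℝ) * (K:ℝ) ^ j ≤ D * (K1 * L ^ E2) ^ j := by gcongr
        _ = D * (K1:ℝ) ^ j * L ^ (j * E2) := by rw [mul_pow, ← pow_mul, mul_comm E2 j]; ring
        _ ≤ d * (k:ℝ) ^ j * L ^ (j * E2) := by gcongr
    have hxP : x / L ^ (E0 + j * E2 + 1) ≤ P / (4 * L ^ (j * E2)) := by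
      rw [div_le_div_iff₀ (by positivity) (by positivity)]
      calc x * (4 * L ^ (j * E2)) ≤ (P * L ^ E0) * (L * L ^ (j * E2)) := by
            have : 0 ≤ P * L ^ E0 := by positivity
            gcongr
        _ = P * L ^ (E0 + j * E2 + 1) := by
            rw [pow_succ, pow_add]; ring
    have hP4 : P / (4 * L ^ (j * E2)) = P / L ^ (j * E2) / 4 := by rw [div_div]; ring
    have hP16' : P / (16 * L ^ (j * E2)) = P / L ^ (j * E2) / 16 := by rw [div_div]; ring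
    have hPL : 0 < P / L ^ (j * E2) := by positivity
    rcases hbox with ⟨h3, h4, h5⟩ | ⟨h3, h4, h5⟩
    · rw [h3]
      push_cast
      have h6 : -((a0:ℝ) + m0) ≤ P / L ^ (j * E2) / 16 := by
        rw [← hP16', le_div_iff₀ (by positivity)]
        by_cases hneg : -((a0:ℝ) + m0) ≤ 0
        · have : -((a0:ℝ) + m0) * (16 * L ^ (j * E2)) ≤ 0 :=
            mul_nonpos_of_nonpos_of_nonneg hneg (by positivity)
          linarith
        · push Not at hneg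
          refine le_trans ?_ h4
          apply mul_le_mul_of_nonneg_left _ hneg.le
          nlinarith
      linarith
    · rw [h3]
      push_cast
      have hdk : (d:ℝ) * (k:ℝ) ^ j ≤ 2 * P := by
        calc (d:ℝ) * (k:ℝ) ^ j ≤ (2 * D) * (K:ℝ) ^ j := by gcongr
          _ = 2 * P := by rw [hP]; ring
      have e1 : 4 * (D:ℝ) * (K:ℝ) ^ j = 4 * P := by rw [hP]; ring
      rw [e1] at h4
      have h7 : P / L ^ (j * E2) ≤ P := div_le_self hP0.le hLj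
      linarith
  · intro k hk hk1
    rw [mem_Icc] at hk hk1
    have h1 := hR k (by rw [mem_Icc]; omega)
    have h2 := hR (k + 1) (by rw [mem_Icc]; omega)
    rw [FFr_eval, FFr_eval]
    have h3 := pow_diff j k K hk1.2
    have h3' : ((k:ℝ) + 1) ^ j ≤ (k:ℝ) ^ j + j * (K:ℝ) ^ (j - 1) := by exact_mod_cast h3
    have h4 : (k:ℝ) ^ j ≤ ((k:ℝ) + 1) ^ j := by gcongr; linarith
    have hσ : |(σ : ℝ)| = 1 := by
      rcases hbox with ⟨h, -⟩ | ⟨h, -⟩ <;> rw [h] <;> norm_num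
    have h5 : |(σ:ℝ) * d * (((k:ℝ) + 1) ^ j - (k:ℝ) ^ j)| ≤ 2 * j * (D * (K:ℝ) ^ (j - 1)) := by
      rw [abs_mul, abs_mul, hσ, one_mul, abs_of_nonneg (Nat.cast_nonneg d : (0:ℝ) ≤ d),
        abs_of_nonneg (by linarith : (0:ℝ) ≤ ((k:ℝ) + 1) ^ j - (k:ℝ) ^ j)]
      calc (d:ℝ) * (((k:ℝ) + 1) ^ j - (k:ℝ) ^ j) ≤ (2 * D) * (j * (K:ℝ) ^ (j - 1)) := by
            apply mul_le_mul hdb (by linarith) (by linarith) (by positivity)
        _ = _ := by ring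
    have h6 : |tR j (fun i => (r i : ℝ)) ((k:ℝ) + 1) - tR j (fun i => (r i : ℝ)) k| ≤
        j * (D * (K:ℝ) ^ (j - 1)) := by
      have h7 := tR_diff j H r hr D (16 * ((j:ℝ) + 2)) k K (by positivity) hD0.le hk1.2
        (fun i => le_trans (mul_le_mul_of_nonneg_left ht16 (Nat.cast_nonneg _)) (hH i))
      have hDK : 0 ≤ (D:ℝ) * (K:ℝ) ^ (j - 1) := by positivity
      have h8 : (j:ℝ) ^ 2 * (D * (K:ℝ) ^ (j - 1)) ≤
          j * (D * (K:ℝ) ^ (j - 1)) * (16 * ((j:ℝ) + 2)) := by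
        have : (j:ℝ) ^ 2 ≤ j * (16 * ((j:ℝ) + 2)) := by nlinarith
        calc _ ≤ (j * (16 * ((j:ℝ) + 2))) * (D * (K:ℝ) ^ (j - 1)) :=
              mul_le_mul_of_nonneg_right this hDK
          _ = _ := by ring
      exact le_of_mul_le_mul_right (h7.trans h8) (by positivity)
    have hRK : (K:ℝ) ^ j / t ≤ (K:ℝ) ^ j := div_le_self hKj.le ht1
    have e1 : (((a : ℝ) + m0) + ((R.eval ((k + 1 : ℕ) : ℤ) : ℤ) : ℝ) +
        tR j (fun i => (r i : ℝ)) ((k + 1 : ℕ) : ℝ) + σ * d * ((k + 1 : ℕ) : ℝ) ^ j) -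
        (((a : ℝ) + m0) + ((R.eval (k : ℤ) : ℤ) : ℝ) + tR j (fun i => (r i : ℝ)) k +
          σ * d * (k : ℝ) ^ j) =
        (σ:ℝ) * d * (((k:ℝ) + 1) ^ j - (k:ℝ) ^ j) +
        (tR j (fun i => (r i : ℝ)) ((k:ℝ) + 1) - tR j (fun i => (r i : ℝ)) k) +
        (((R.eval ((k + 1 : ℕ) : ℤ) : ℤ) : ℝ) - ((R.eval (k : ℤ) : ℤ) : ℝ)) := by
      push_cast; ring
    rw [e1]
    have h8 := abs_sub (((R.eval ((k + 1 : ℕ) : ℤ) : ℤ) : ℝ)) ((R.eval (k : ℤ) : ℤ) : ℝ)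
    refine (abs_add_le _ _).trans ?_
    have h9 := abs_add_le ((σ:ℝ) * d * (((k:ℝ) + 1) ^ j - (k:ℝ) ^ j))
      (tR j (fun i => (r i : ℝ)) ((k:ℝ) + 1) - tR j (fun i => (r i : ℝ)) k)
    linarith

end Pool.Agent.H300R2.FB
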