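import Pool.Agent.H300R2.FB.BHF

/-!
Bateman-Horn on average over a full box of polynomials.
-/

namespace Pool.Agent.H300R2.FB

open Finset Polynomial Filter
open Pool.Agent.H442R2.EHI (norm_add_sq_le evt_log_pow evt_log_ge ff gg ff_fourier ff_sq ff_bound
  ff_zero_of_gt)
open Pool.Agent.H300R2.BH

lemma natDegree_Rr (j : ℕ) (hj : 1 ≤ j) (r : Fin (j - 1) → ℤ) : (Rr j r).natDegree < j := by
  unfold Rr
  have h := natDegree_sum_le_of_forall_le (n := j - 1) (univ : Finset (Fin (j - 1)))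
    (fun i => C (r i) * X ^ ((i : ℕ) + 1)) (fun i _ => by
      refine (natDegree_C_mul_X_pow_le _ _).trans ?_
      have := i.2
      omega)
  omega

lemma natDegree_all (j : ℕ) (hj : 1 ≤ j) (R : ℤ[X]) (hR : R.natDegree < j) (m0 : ℤ)
    (r : Fin (j - 1) → ℤ) : (C m0 + R + Rr j r).natDegree < j := by
  have h1 := natDegree_Rr j hj r
  have h2 : (C m0 : ℤ[X]).natDegree = 0 := natDegree_C _
  have h3 := natDegree_add_le (C m0 + R) (Rr j r)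
  have h4 := natDegree_add_le (C m0) R
  have h5 : max (C m0 : ℤ[X]).natDegree R.natDegree < j := max_lt (by omega) hR
  have h6 : (C m0 + R).natDegree < j := lt_of_le_of_lt h4 h5
  exact lt_of_le_of_lt h3 (max_lt h6 h1)

lemma ff_ok (E1 E3 : ℕ) : ∃ x0 : ℕ, ∀ x : ℕ, x0 ≤ x →
    FourierHyp (ff x ⌊Real.log x ^ E1⌋₊) x E1 E3 ∧
    ∑ n ∈ Icc 1 x, ‖ff x ⌊Real.log x ^ E1⌋₊ n‖ ^ 2 ≤ x * Real.log x ^ 2 := by
  obtain ⟨x4, hff⟩ := ff_fourier E1 E3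
  obtain ⟨C, hC⟩ := ff_sq
  have hloglog : ∀ᶠ x : ℕ in atTop, (1 + E1 * Real.log (Real.log x)) ^ 2 ≤ Real.log x := by
    have h1 : (fun t : ℝ => Real.log t ^ 2) =o[atTop] fun t : ℝ => t :=
      Real.isLittleO_pow_log_id_atTop
    have h2 := h1.bound (show (0:ℝ) < 1 / ((1 + E1) ^ 2) by positivity)
    have h3 := (Real.tendsto_log_atTop.comp (tendsto_natCast_atTop_atTop (R := ℝ))).eventually h2
    filter_upwards [h3, evt_log_ge (Real.exp 1)] with x hx hx2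
    simp only [Function.comp] at hx
    have ht0 : 0 < Real.log x := lt_of_lt_of_le (Real.exp_pos 1) hx2
    have hl : 1 ≤ Real.log (Real.log x) := by
      rw [Real.le_log_iff_exp_le ht0]; exact hx2
    rw [Real.norm_of_nonneg (by positivity), Real.norm_of_nonneg ht0.le] at hx
    calc (1 + E1 * Real.log (Real.log x)) ^ 2
        ≤ ((1 + E1) * Real.log (Real.log x)) ^ 2 := by
          gcongr
          nlinarith [(Nat.cast_nonneg E1 : (0:ℝ) ≤ E1)]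
      _ = ((1 + E1) ^ 2) * Real.log (Real.log x) ^ 2 := by
          rw [mul_pow]
      _ ≤ ((1 + E1) ^ 2) * (1 / ((1 + E1) ^ 2) * Real.log x) := by gcongr
      _ = Real.log x := by field_simp
  have hev : ∀ᶠ x : ℕ in atTop, x4 ≤ x ∧ 3 ≤ x ∧ 1 ≤ Real.log x ∧ 2 * |C| ≤ Real.log x ∧
      Real.log x ^ (8 * E1) ≤ (x:ℝ) ^ (1:ℝ) ∧
      (1 + E1 * Real.log (Real.log x)) ^ 2 ≤ Real.log x := by
    filter_upwards [eventually_ge_atTop x4, eventually_ge_atTop 3,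
      evt_log_ge 1, evt_log_ge (2 * |C|), evt_log_pow (8 * E1) 1 (by norm_num), hloglog]
      with x h1 h2 h3 h4 h5 h6
    exact ⟨h1, h2, h3, h4, h5, h6⟩
  obtain ⟨x0, hx0⟩ := eventually_atTop.mp hev
  refine ⟨x0, fun x hx => ?_⟩
  obtain ⟨hx4, hx3, hL1, hCL, hL8, hll⟩ := hx0 x hx
  rw [Real.rpow_one] at hL8
  set L := Real.log x with hLdef
  have hL0 : 0 < L := by linarith
  have hLp : ∀ n : ℕ, 1 ≤ L ^ n := fun n => one_le_pow₀ hL1
  have hxr : (3:ℝ) ≤ x := by exact_mod_cast hx3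
  have hx0' : (0:ℝ) < x := by linarith
  set Q := ⌊L ^ E1⌋₊ with hQ
  have hQle : (Q:ℝ) ≤ L ^ E1 := Nat.floor_le (by positivity)
  have hQ1 : 1 ≤ Q := Nat.le_floor (by simpa using hLp E1)
  have hQr : (1:ℝ) ≤ Q := by exact_mod_cast hQ1
  constructor
  · intro q hq hqL b hb β hβ
    exact hff x hx4 Q hQ1 hQle q (mem_Icc.mpr ⟨hq, Nat.le_floor hqL⟩) b hb β hβ
  · refine (hC x Q (by omega) hQ1).trans ?_
    have h1 : Real.log Q ≤ E1 * Real.log L := by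
      rw [← Real.log_pow]
      exact Real.log_le_log (by linarith) hQle
    have h2 : (1 + Real.log Q) ^ 2 ≤ L := by
      have h0 : 0 ≤ Real.log Q := Real.log_nonneg hQr
      calc (1 + Real.log Q) ^ 2 ≤ (1 + E1 * Real.log L) ^ 2 := by gcongr
        _ ≤ L := hll
    have h3 : (Q:ℝ) ^ 8 ≤ x := by
      calc (Q:ℝ) ^ 8 ≤ (L ^ E1) ^ 8 := by gcongr
        _ = L ^ (8 * E1) := by rw [← pow_mul]; congr 1; ring
        _ ≤ x := hL8
    calc C * (x * (1 + Real.log Q) ^ 2 + (Q:ℝ) ^ 8)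
        ≤ |C| * (x * L + x * L) := by
          apply mul_le_mul (le_abs_self C) _ (by positivity) (abs_nonneg C)
          have : (x:ℝ) ≤ x * L := by nlinarith
          gcongr
          linarith
      _ = (2 * |C|) * (x * L) := by ring
      _ ≤ L * (x * L) := by gcongr
      _ = x * L ^ 2 := by ring

lemma boxF_facts {j K D A a0 : ℕ} {m0 σ : ℤ} {x t : ℝ} (ht : 1 ≤ t)
    (h : BoxF j K D A a0 m0 σ x t) :
    2 * (D : ℝ) * (K : ℝ) ^ j ≤ x ∧ (σ = 1 ∨ σ = -1) := by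
  have hP : 0 ≤ (D:ℝ) * (K:ℝ) ^ j := by positivity
  have hA : (0:ℝ) ≤ A := Nat.cast_nonneg _
  rcases h with ⟨h3, h4, h5⟩ | ⟨h3, h4, h5⟩
  · refine ⟨?_, Or.inl h3⟩
    have h6 : -((a0:ℝ) + m0) ≤ D * (K:ℝ) ^ j := by
      by_cases hneg : -((a0:ℝ) + m0) ≤ 0
      · linarith
      · push Not at hneg
        calc -((a0:ℝ) + m0) = -((a0:ℝ) + m0) * 1 := (mul_one _).symm
          _ ≤ -((a0:ℝ) + m0) * t := by gcongr
          _ ≤ _ := h4
    have e1 : 3 * (D:ℝ) * (K:ℝ) ^ j = 3 * (D * (K:ℝ) ^ j) := by ring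
    have e2 : 2 * (D:ℝ) * (K:ℝ) ^ j = 2 * (D * (K:ℝ) ^ j) := by ring
    rw [e1] at h5
    rw [e2]
    linarith
  · refine ⟨?_, Or.inr h3⟩
    have e1 : 4 * (D:ℝ) * (K:ℝ) ^ j = 4 * (D * (K:ℝ) ^ j) := by ring
    have e2 : 2 * (D:ℝ) * (K:ℝ) ^ j = 2 * (D * (K:ℝ) ^ j) := by ring
    rw [e1] at h4
    rw [e2]
    linarith

theorem bhF (j : ℕ) (hj : 1 ≤ j) (ε : ℝ) (hε : 0 < ε) (E0 E6 U : ℕ) :
    ∃ E1 : ℕ, ∀ E : ℕ, E1 ≤ E → ∃ B x0 : ℕ, ∀ x : ℕ, x0 ≤ x → ∀ z : ℕ,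
    ⌊Real.log x ^ E1⌋₊ ≤ z → (z : ℝ) ≤ Real.log x ^ E →
    ∀ (K D A A1 a0 : ℕ) (R : ℤ[X]) (m0 : ℤ)
    (H : Fin (j - 1) → ℕ) (σ : ℤ), R.natDegree < j → BoxF j K D A a0 m0 σ x (Real.log x ^ B) →
    (x : ℝ) ≤ D * (K : ℝ) ^ j * Real.log x ^ E0 → (x : ℝ) ^ ε ≤ K →
    (K : ℝ) * Real.log x ^ B ≤ A1 → A1 ≤ A → (∀ i, A1 ≤ 2 * H i + 1) →
    (A1 : ℝ) ≤ D * Real.log x ^ E6 → A ≤ x →
    (∀ k ∈ Icc 1 K, |((R.eval (k : ℤ) : ℤ) : ℝ)| ≤ (K : ℝ) ^ j / Real.log x ^ B) →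
    (∀ i, (H i : ℝ) * Real.log x ^ B ≤ D * (K : ℝ) ^ (j - 1 - (i : ℕ))) →
    ∑ r ∈ bx j H, ∑ a ∈ Ioc a0 (a0 + A), ∑ d ∈ Ioc D (2 * D),
      |pv (FF (C m0 + R + Rr j r) j σ a d) K -
        SS z (FF (C m0 + R + Rr j r) j σ a d) * lF (FF (C m0 + R + Rr j r) j σ a d) K| ≤
      ((bx j H).card : ℝ) * (A * D * K / Real.log x ^ U) := by
  classical
  set E2 := U + 5 with hE2
  set V := E0 + j * E2 + 1 with hV
  obtain ⟨E1, E3, B1, x1, hE1, hcore⟩ := coreF j hj ε hε E0 E2 E6 (2 * U + E0 + 8)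
    (8 * j + 2 * (U + 3) + 8)
  refine ⟨E1, fun E hE => ?_⟩
  obtain ⟨B2, x2, hR2⟩ := bhR j hj ε hε U V E1 E hE1 hE
  obtain ⟨x3, hff⟩ := ff_ok E1 E3
  set B := B1 + B2 + E6 + j * E2 + 2 with hB
  have hev : ∀ᶠ x : ℕ in atTop, x1 ≤ x ∧ x2 ≤ x ∧ x3 ≤ x ∧ 3 ≤ x ∧
      1000 * (j + 2) ≤ Real.log x ∧ Real.log x ^ (B + E2 + 1) ≤ (x : ℝ) ^ ε := by
    filter_upwards [eventually_ge_atTop x1, eventually_ge_atTop x2, eventually_ge_atTop x3,
      eventually_ge_atTop 3, evt_log_ge (1000 * (j + 2)), evt_log_pow (B + E2 + 1) ε hε]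
      with x h1 h2 h3 h4 h5 h6
    exact ⟨h1, h2, h3, h4, h5, h6⟩
  obtain ⟨x0, hx0⟩ := eventually_atTop.mp hev
  refine ⟨B, x0, fun x hx z hzQ hzE K D A A1 a0 R m0 H σ hRj hbox hxDK hxK hKA1 hA1A hA1H hA1D hAx
    hR hH => ?_⟩
  obtain ⟨hx1, hx2, hx3, hx3', hL, hLε⟩ := hx0 x hx
  set L := Real.log x with hLdef
  have hj1 : (1:ℝ) ≤ j := by exact_mod_cast hj
  have hL1000 : (1000:ℝ) ≤ L := by nlinarith
  have hL0 : 0 < L := by linarith
  have hL1 : 1 ≤ L := by linarith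
  have hLp0 : ∀ n : ℕ, 0 < L ^ n := fun n => by positivity
  have hLp : ∀ n : ℕ, 1 ≤ L ^ n := fun n => one_le_pow₀ hL1
  have hLmono : ∀ m n : ℕ, m ≤ n → L ^ m ≤ L ^ n := fun m n h => pow_le_pow_right₀ hL1 h
  have hxr : (3:ℝ) ≤ x := by exact_mod_cast hx3'
  have hx0' : (0:ℝ) < x := by linarith
  obtain ⟨hDK, hσ⟩ := boxF_facts (hLp B) hbox
  have hK1r : (1:ℝ) ≤ K := ((hLp _).trans hLε).trans hxK
  have hKpos : (0:ℝ) < K := by linarith
  have hK1n : 1 ≤ K := by exact_mod_cast hK1r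
  have hKj : (0:ℝ) < (K:ℝ) ^ j := by positivity
  have hA1r : (A1:ℝ) ≤ A := by exact_mod_cast hA1A
  have hKA : (K:ℝ) ≤ A := by
    calc (K:ℝ) ≤ K * L ^ B := le_mul_of_one_le_right hKpos.le (hLp B)
      _ ≤ A1 := hKA1
      _ ≤ A := hA1r
  have hA0 : (0:ℝ) < A := by linarith
  have hKD : (K:ℝ) ≤ D := by
    have h1 : (K:ℝ) * L ^ B ≤ D * L ^ E6 := hKA1.trans hA1D
    have h2 : (K:ℝ) * L ^ E6 ≤ D * L ^ E6 := by
      refine le_trans ?_ h1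
      gcongr
      omega
    exact le_of_mul_le_mul_right h2 (hLp0 _)
  have hLBK : L ^ (B + E2 + 1) ≤ K := hLε.trans hxK
  have hLBD : L ^ B ≤ D := (hLmono _ _ (by omega)).trans (hLBK.trans hKD)
  have hD0 : (0:ℝ) < D := by linarith [hLp B]
  -- `K1`
  set K1 := ⌊(K:ℝ) / L ^ (U + 4)⌋₊ with hK1
  have hK1le : (K1:ℝ) ≤ K / L ^ (U + 4) := Nat.floor_le (by positivity)
  have hK1K : K1 ≤ K := by
    have : (K1:ℝ) ≤ K := hK1le.trans (div_le_self (by positivity) (hLp _))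
    exact_mod_cast this
  have hKK1 : (K:ℝ) ≤ K1 * L ^ E2 := by
    have h1 : (K:ℝ) / L ^ (U + 4) < K1 + 1 := Nat.lt_floor_add_one _
    have h2 : L ≤ (K:ℝ) / L ^ (U + 4) := by
      rw [le_div_iff₀ (hLp0 _)]
      calc L * L ^ (U + 4) = L ^ (U + 5) := by ring
        _ ≤ _ := hLmono _ _ (by omega)
        _ ≤ _ := hLBK
    have h3 : (K:ℝ) / L ^ (U + 4) ≤ K1 * L := by nlinarith
    calc (K:ℝ) = (K / L ^ (U + 4)) * L ^ (U + 4) := by field_simp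
      _ ≤ (K1 * L) * L ^ (U + 4) := by gcongr
      _ = K1 * L ^ E2 := by rw [hE2]; ring
  have hDKn : 2 * D * K ^ j ≤ x := by exact_mod_cast hDK
  obtain ⟨hfour, hsq⟩ := hff x hx3
  have hRB : ∀ B0 : ℕ, B0 ≤ B → ∀ k ∈ Icc 1 K, |((R.eval (k : ℤ) : ℤ) : ℝ)| ≤
      (K : ℝ) ^ j / L ^ B0 := by
    intro B0 hB0 k hk
    refine (hR k hk).trans ?_
    apply div_le_div_of_nonneg_left hKj.le (hLp0 _) (hLmono _ _ hB0)
  have hHB : ∀ B0 : ℕ, B0 ≤ B → ∀ i, (H i : ℝ) * L ^ B0 ≤ D * (K : ℝ) ^ (j - 1 - (i : ℕ)) := by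
    intro B0 hB0 i
    refine le_trans ?_ (hH i)
    gcongr
  -- values
  have hvals := fun r hr a d ha hd => fam_vals j hj x (L ^ B) L E0 E2 K K1 D A a0 R m0 σ H
    (by linarith) hLBD (by
      calc 16 * ((j:ℝ) + 2) * L ^ (j * E2) ≤ L * L ^ (j * E2) := by
            gcongr
            linarith
        _ = L ^ (j * E2 + 1) := by ring
        _ ≤ L ^ B := hLmono _ _ (by omega)) hK1K hK1n hKK1 hxDK hbox hR hH r hr a d ha hd
  have hmain := hcore x hx1 (ff x ⌊L ^ E1⌋₊) (fun n hn => ff_zero_of_gt hn) hfour hsq D K K1 A A1 a0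
    R m0 H σ hDKn hxDK hxK hK1K hKK1 (le_trans (by gcongr; omega) hKA1) hA1A hA1H hA1D hAx
    (fun k hk => hRB B1 (by omega) k (by rw [mem_Ioc] at hk; rw [mem_Icc]; omega))
    (hHB B1 (by omega)) (by
      intro r hr a ha d hd k hk
      obtain ⟨v1, v2, -⟩ := hvals r hr a d ha hd
      have h1 := v1 k (by rw [mem_Ioc] at hk; rw [mem_Icc]; omega)
      have h2 := v2 k hk
      have h3 : (0:ℝ) ≤ x / L ^ (E0 + j * E2 + 1) := by positivity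
      rw [abs_le]
      constructor
      · have : (0:ℝ) ≤ (((FF (C m0 + R + Rr j r) j σ a d).eval (k : ℤ) : ℤ) : ℝ) := h3.trans h2
        have h4 : (0:ℤ) ≤ (FF (C m0 + R + Rr j r) j σ a d).eval (k : ℤ) := by exact_mod_cast this
        omega
      · have h4 : (FF (C m0 + R + Rr j r) j σ a d).eval (k : ℤ) ≤ (x : ℤ) := by exact_mod_cast h1
        omega) hσ
  have hperR : ∀ r ∈ bx j H, ∑ a ∈ Ioc a0 (a0 + A), ∑ d ∈ Ioc D (2 * D),
      |pv (FF (C m0 + R + Rr j r) j σ a d) K -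
        SS z (FF (C m0 + R + Rr j r) j σ a d) * lF (FF (C m0 + R + Rr j r) j σ a d) K| ≤
      A * D * K / L ^ (U + 1) +
      ∑ a ∈ Ioc a0 (a0 + A), ∑ d ∈ Ioc D (2 * D),
        ‖∑ k ∈ Ioc K1 K,
          fz (ff x ⌊L ^ E1⌋₊) ((FF (C m0 + R + Rr j r) j σ a d).eval (k : ℤ))‖ := by
    intro r hr
    refine hR2 x hx2 z hzQ hzE K D A a0 (C m0 + R + Rr j r) σ
      (3 * j * (D * (K : ℝ) ^ (j - 1)) + 2 * (K : ℝ) ^ j) (natDegree_all j hj R hRj m0 r) hσ hxK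
      (hxK.trans hKA) hAx ((hLmono _ _ (by omega)).trans hLBD) (by positivity) ?_ ?_ ?_ ?_
    · have hKp : (K:ℝ) * (K:ℝ) ^ (j - 1) = (K:ℝ) ^ j := by
        rw [← pow_succ']; congr 1; omega
      calc (K:ℝ) * (3 * j * (D * (K : ℝ) ^ (j - 1)) + 2 * (K : ℝ) ^ j)
          = 3 * j * (D * (K * (K:ℝ) ^ (j - 1))) + 2 * (K * (K:ℝ) ^ j) := by ring
        _ ≤ 3 * j * (D * (K:ℝ) ^ j) + 2 * (D * (K:ℝ) ^ j) := by
            rw [hKp]
            gcongr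
        _ = (3 * j + 2) * (D * (K:ℝ) ^ j) := by ring
        _ ≤ L * x := by
            apply mul_le_mul _ _ (by positivity) hL0.le
            · linarith
            · linarith
        _ = x * L ^ 1 := by ring
        _ ≤ x * L ^ V := by
            gcongr
            omega
    · intro a ha d hd k hk
      have h1 := (hvals r hr a d ha hd).1 k hk
      exact_mod_cast h1
    · intro a ha d hd k hk
      exact (hvals r hr a d ha hd).2.1 k hk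
    · intro a ha d hd k hk hk1
      exact (hvals r hr a d ha hd).2.2 k hk hk1
  refine (sum_le_sum hperR).trans ?_
  rw [sum_add_distrib, sum_const, nsmul_eq_mul]
  set bc : ℝ := ((bx j H).card : ℝ) with hbc
  have hbc0 : 0 ≤ bc := Nat.cast_nonneg _
  -- Cauchy-Schwarz
  set T := (bx j H) ×ˢ ((Ioc a0 (a0 + A)) ×ˢ (Ioc D (2 * D))) with hT
  set G : (Fin (j - 1) → ℤ) × ℕ × ℕ → ℝ := fun p =>
    ‖∑ k ∈ Ioc K1 K, fz (ff x ⌊L ^ E1⌋₊) ((FF (C m0 + R + Rr j p.1) j σ p.2.1 p.2.2).eval (k : ℤ))‖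
    with hG
  have hTc : (T.card : ℝ) = bc * (A * D) := by
    rw [hT, card_product, card_product, Nat.card_Ioc, Nat.card_Ioc, show a0 + A - a0 = A by omega,
      show 2 * D - D = D by omega]
    push_cast
    ring
  have hS1 : ∑ r ∈ bx j H, ∑ a ∈ Ioc a0 (a0 + A), ∑ d ∈ Ioc D (2 * D),
        ‖∑ k ∈ Ioc K1 K,
          fz (ff x ⌊L ^ E1⌋₊) ((FF (C m0 + R + Rr j r) j σ a d).eval (k : ℤ))‖ =
      ∑ p ∈ T, G p := by
    rw [hT, sum_product]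
    refine sum_congr rfl fun r _ => ?_
    rw [sum_product]
  have hS2 : ∑ r ∈ bx j H, ∑ a ∈ Ioc a0 (a0 + A), ∑ d ∈ Ioc D (2 * D),
        ‖∑ k ∈ Ioc K1 K,
          fz (ff x ⌊L ^ E1⌋₊) ((FF (C m0 + R + Rr j r) j σ a d).eval (k : ℤ))‖ ^ 2 =
      ∑ p ∈ T, G p ^ 2 := by
    rw [hT, sum_product]
    refine sum_congr rfl fun r _ => ?_
    rw [sum_product]
  rw [hS2] at hmain
  rw [hS1]
  have hL1sum : ∑ p ∈ T, G p ≤ bc * (A * D * K) / L ^ (U + 2) := by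
    have h2 := sq_sum_le_card_mul_sum_sq (s := T) (f := G)
    rw [hTc] at h2
    apply le_of_sq_le_sq _ (by positivity)
    refine h2.trans ?_
    calc bc * (A * D) * _ ≤ bc * (A * D) *
          (bc * (A * x * ((K : ℝ) ^ 2 / (K : ℝ) ^ j) / L ^ (2 * U + E0 + 8))) := by
          gcongr
      _ ≤ bc * (A * D) * (bc * (A * (D * (K:ℝ) ^ j * L ^ E0) * ((K : ℝ) ^ 2 / (K : ℝ) ^ j) /
            L ^ (2 * U + E0 + 8))) := by gcongr
      _ = (bc * (A * D * K)) ^ 2 / L ^ (2 * U + 8) := by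
          rw [show 2 * U + E0 + 8 = (2 * U + 8) + E0 by ring, pow_add L _ E0]
          field_simp
      _ ≤ (bc * (A * D * K)) ^ 2 / L ^ (2 * (U + 2)) := by
          gcongr
          · omega
      _ = _ := by rw [div_pow, ← pow_mul, mul_comm 2 (U + 2)]
  calc bc * (A * D * K / L ^ (U + 1)) + ∑ p ∈ T, G p
      ≤ bc * (A * D * K / L ^ (U + 1)) + bc * (A * D * K) / L ^ (U + 2) := by gcongr
    _ = bc * (A * D * K / L ^ U) * (1 / L + 1 / L ^ 2) := by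
        rw [pow_succ, pow_add]
        field_simp
    _ ≤ bc * (A * D * K / L ^ U) * 1 := by
        apply mul_le_mul_of_nonneg_left _ (by positivity)
        have h1 : 1 / L ≤ 1 / 1000 := one_div_le_one_div_of_le (by norm_num) hL1000
        have h2 : 1 / L ^ 2 ≤ 1 / 1000 := by
          apply one_div_le_one_div_of_le (by norm_num)
          nlinarith
        linarith
    _ = _ := mul_one _

end Pool.Agent.H300R2.FB
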