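import Pool.Agent.H300R2.BH.BHmain

/-!
From the second moment to the Bateman-Horn asymptotic formula: one polynomial `R`.
-/

namespace Pool.Agent.H300R2.FB

open Finset Polynomial Filter
open Pool.Agent.H469R2.NK (e norm_e e_add conj_e e_zero)
open Pool.Agent.H442R2.EHI (norm_add_sq_le evt_log_pow evt_log_ge ff gg ff_fourier ff_sq ff_bound
  ff_zero_of_gt)
open Pool.Agent.H465R2.BH (modelP)
open Pool.Agent.H475R2.BH (gq_eq)
open Pool.Agent.H300R2.BH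

theorem bhR (j : ℕ) (hj : 1 ≤ j) (ε : ℝ) (hε : 0 < ε) (U V E1 E : ℕ)
    (hE1 : 8 * j + 2 * (U + 3) + 8 ≤ E1) (hE : E1 ≤ E) :
    ∃ B x0 : ℕ, ∀ x : ℕ, x0 ≤ x → ∀ z : ℕ, ⌊Real.log x ^ E1⌋₊ ≤ z → (z : ℝ) ≤ Real.log x ^ E →
    ∀ (K D A a0 : ℕ) (R : ℤ[X]) (σ : ℤ) (M : ℝ), R.natDegree < j → (σ = 1 ∨ σ = -1) →
    (x : ℝ) ^ ε ≤ K → (x : ℝ) ^ ε ≤ A → A ≤ x → Real.log x ^ B ≤ D → 0 ≤ M →
    K * M ≤ x * Real.log x ^ V →
    (∀ a ∈ Ioc a0 (a0 + A), ∀ d ∈ Ioc D (2 * D), ∀ k ∈ Icc 1 K,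
      (FF R j σ a d).eval (k : ℤ) ≤ x) →
    (∀ a ∈ Ioc a0 (a0 + A), ∀ d ∈ Ioc D (2 * D), ∀ k ∈ Ioc ⌊(K:ℝ) / Real.log x ^ (U + 4)⌋₊ K,
      x / Real.log x ^ V ≤ (((FF R j σ a d).eval (k : ℤ) : ℤ) : ℝ)) →
    (∀ a ∈ Ioc a0 (a0 + A), ∀ d ∈ Ioc D (2 * D), ∀ k ∈ Icc 1 K, k + 1 ∈ Icc 1 K →
      |(((FF R j σ a d).eval ((k + 1 : ℕ) : ℤ) : ℤ) : ℝ) - (((FF R j σ a d).eval (k : ℤ) : ℤ) : ℝ)|
        ≤ M) →
    ∑ a ∈ Ioc a0 (a0 + A), ∑ d ∈ Ioc D (2 * D),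
      |pv (FF R j σ a d) K - SS z (FF R j σ a d) * lF (FF R j σ a d) K| ≤
      A * D * K / Real.log x ^ (U + 1) +
      ∑ a ∈ Ioc a0 (a0 + A), ∑ d ∈ Ioc D (2 * D),
        ‖∑ k ∈ Ioc ⌊(K:ℝ) / Real.log x ^ (U + 4)⌋₊ K,
          fz (ff x ⌊Real.log x ^ E1⌋₊) ((FF R j σ a d).eval (k : ℤ))‖ := by
  classical
  set E2 := U + 4 with hE2
  obtain ⟨B2, x2, hsing⟩ := sing j hj ε hε (U + 3) E1 E hE1 hE
  obtain ⟨x3, hggm⟩ := gg_mean j hj ε hε E1
  have hev : ∀ᶠ x : ℕ in atTop, x2 ≤ x ∧ x3 ≤ x ∧ 3 ≤ x ∧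
      1000 * (j + 1) ≤ Real.log x ∧
      Real.log x ^ (2 * E1 + 2 * V + E2 + 4) ≤ (x : ℝ) ^ ε ∧
      Real.log x ^ (V + 2) ≤ (x:ℝ) ^ (1:ℝ) := by
    filter_upwards [eventually_ge_atTop (max x2 x3), eventually_ge_atTop 3,
      evt_log_ge (1000 * (j + 1)),
      evt_log_pow (2 * E1 + 2 * V + E2 + 4) ε hε,
      evt_log_pow (V + 2) 1 (by norm_num)]
      with x h1 h2 h3 h5 h7
    exact ⟨(le_max_left _ _).trans h1, (le_max_right _ _).trans h1, h2, h3, h5, h7⟩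
  obtain ⟨x0, hx0⟩ := eventually_atTop.mp hev
  refine ⟨B2, x0, fun x hx z hQz hzle K D A a0 R σ M hRj hσ hxK hxA hAxn hLBD hM0 hKM hubF hvalF
    hvarF => ?_⟩
  obtain ⟨hx2, hx3, hx3', hL, hLε, hLy⟩ := hx0 x hx
  set L := Real.log x with hLdef
  have hj1 : (1:ℝ) ≤ j := by exact_mod_cast hj
  have hL1000 : (1000:ℝ) ≤ L := by nlinarith
  have hL0 : 0 < L := by linarith
  have hL1 : 1 ≤ L := by linarith
  have hLp0 : ∀ n : ℕ, 0 < L ^ n := fun n => by positivity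
  have hLp : ∀ n : ℕ, 1 ≤ L ^ n := fun n => one_le_pow₀ hL1
  have hLmono : ∀ m n : ℕ, m ≤ n → L ^ m ≤ L ^ n := fun m n h => pow_le_pow_right₀ hL1 h
  have hxr : (3:ℝ) ≤ x := by exact_mod_cast hx3'
  have hx0' : (0:ℝ) < x := by linarith
  rw [Real.rpow_one] at hLy
  have hAx : (A:ℝ) ≤ x := by exact_mod_cast hAxn
  have hD1 : (1:ℝ) ≤ D := (hLp B2).trans hLBD
  have hD1n : 1 ≤ D := by exact_mod_cast hD1
  have hD0 : (0:ℝ) < D := by linarith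
  have hK1r : (1:ℝ) ≤ K := ((hLp _).trans hLε).trans hxK
  have hKpos : (0:ℝ) < K := by linarith
  have hK1n : 1 ≤ K := by exact_mod_cast hK1r
  have hA0 : (0:ℝ) < A := lt_of_lt_of_le (by linarith [(hLp _).trans hLε]) hxA
  -- `K1`
  set K1 := ⌊(K:ℝ) / L ^ E2⌋₊ with hK1
  have hK1le : (K1:ℝ) ≤ K / L ^ E2 := Nat.floor_le (by positivity)
  have hK1K : K1 ≤ K := by
    have : (K1:ℝ) ≤ K := hK1le.trans (div_le_self (by positivity) (hLp _))
    exact_mod_cast this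
  -- `Q`, `z`
  set Q := ⌊L ^ E1⌋₊ with hQ
  have hQle : (Q:ℝ) ≤ L ^ E1 := Nat.floor_le (by positivity)
  have hQ1 : 1 ≤ Q := Nat.le_floor (by simpa using hLp E1)
  have hQr : (1:ℝ) ≤ Q := by exact_mod_cast hQ1
  have hQge : L ^ E1 ≤ 2 * Q := by
    have := Nat.lt_floor_add_one (L ^ E1)
    rw [← hQ] at this
    linarith
  have hs := hsing x hx2 Q z A D a0 R σ hRj hσ hQge hQle hQz hzle hxA hAxn hLBD
  have hg := hggm x hx3 Q A D a0 R σ hRj hσ hQ1 hQle hxA hD1n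
  -- lower bound for the values
  set y : ℝ := x / L ^ V with hy
  have hX0 := hLp0 V
  have hy3 : 3 ≤ y := by
    rw [hy, le_div_iff₀ (by positivity)]
    calc 3 * L ^ V ≤ L ^ 2 * L ^ V := by
          gcongr
          nlinarith
      _ = L ^ (V + 2) := by ring
      _ ≤ x := hLy
  have hval : ∀ a ∈ Ioc a0 (a0 + A), ∀ d ∈ Ioc D (2 * D), ∀ k ∈ Ioc K1 K,
      y ≤ (((FF R j σ a d).eval (k : ℤ) : ℤ) : ℝ) := hvalF
  have hvar : ∀ a ∈ Ioc a0 (a0 + A), ∀ d ∈ Ioc D (2 * D), ∀ k ∈ Ioc K1 K, k + 1 ∈ Ioc K1 K →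
      |(((FF R j σ a d).eval ((k + 1 : ℕ) : ℤ) : ℤ) : ℝ) - (((FF R j σ a d).eval (k : ℤ) : ℤ) : ℝ)|
        ≤ M := by
    intro a ha d hd k hk hk1
    rw [mem_Ioc] at hk hk1
    exact hvarF a ha d hd k (by rw [mem_Icc]; omega) (by rw [mem_Icc]; omega)
  -- model error
  have hmodel : 4 * (Q : ℝ) ^ 2 * (K * M / y + 1) ≤ K / L ^ (U + 2) := by
    have hQ2 : (Q:ℝ) ^ 2 ≤ L ^ (2 * E1) := by
      calc (Q:ℝ) ^ 2 ≤ (L ^ E1) ^ 2 := by gcongr
        _ = _ := by rw [← pow_mul]; congr 1; ring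
    have m1 : K * M / y ≤ L ^ (2 * V) := by
      rw [hy, div_div_eq_mul_div, div_le_iff₀ hx0']
      calc K * M * L ^ V ≤ (x * L ^ V) * L ^ V := by gcongr
        _ = L ^ (2 * V) * x := by rw [show 2 * V = V + V by ring, pow_add]; ring
    have m2 : K * M / y + 1 ≤ 2 * L ^ (2 * V) := by
      have := hLp (2 * V)
      linarith
    rw [le_div_iff₀ (hLp0 _)]
    calc 4 * (Q : ℝ) ^ 2 * (K * M / y + 1) * L ^ (U + 2)
        ≤ 4 * L ^ (2 * E1) * (2 * L ^ (2 * V)) * L ^ (U + 2) := by gcongr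
      _ = 8 * L ^ (2 * E1 + 2 * V + U + 2) := by
          rw [show 2 * E1 + 2 * V + U + 2 = 2 * E1 + (2 * V + (U + 2)) by ring, pow_add L (2 * E1),
            pow_add L (2 * V)]
          ring
      _ ≤ L * L ^ (2 * E1 + 2 * V + U + 2) := by gcongr; linarith
      _ = L ^ (2 * E1 + 2 * V + U + 3) := by ring
      _ ≤ L ^ (2 * E1 + 2 * V + E2 + 4) := hLmono _ _ (by omega)
      _ ≤ K := hLε.trans hxK
  -- pointwise
  have hpt : ∀ ad ∈ (Ioc a0 (a0 + A)) ×ˢ (Ioc D (2 * D)),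
      |pv (FF R j σ ad.1 ad.2) K - SS z (FF R j σ ad.1 ad.2) * lF (FF R j σ ad.1 ad.2) K| ≤
      (K1 + K / L ^ (U + 2)) + ‖∑ k ∈ Ioc K1 K, fz (ff x Q) ((FF R j σ ad.1 ad.2).eval (k : ℤ))‖ +
      |GG Q (FF R j σ ad.1 ad.2) - SS z (FF R j σ ad.1 ad.2)| * (K + 2 * K1) +
      |GG Q (FF R j σ ad.1 ad.2)| * (2 * K1) := by
    intro ad had
    rw [mem_product] at had
    obtain ⟨ha, hd⟩ := had
    set F := FF R j σ ad.1 ad.2 with hF
    have hv := hval ad.1 ha ad.2 hd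
    have hub : ∀ k ∈ Icc 1 K, F.eval (k : ℤ) ≤ x := hubF ad.1 ha ad.2 hd
    have hge2 : ∀ k ∈ Ioc K1 K, 2 ≤ F.eval (k : ℤ) := by
      intro k hk
      have h1 := hv k hk
      have h2 : (2:ℝ) ≤ ((F.eval (k : ℤ) : ℤ) : ℝ) := by linarith
      exact_mod_cast h2
    -- count
    have hIcc : Icc 1 K = Icc 1 K1 ∪ Ioc K1 K := by
      ext k; simp only [mem_union, mem_Icc, mem_Ioc]; omega
    have hdisj : Disjoint (Icc 1 K1) (Ioc K1 K) := by
      rw [disjoint_left]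
      intro k hk hk2
      rw [mem_Icc] at hk; rw [mem_Ioc] at hk2; omega
    set pr : ℕ → ℝ := fun k => if (F.eval (k : ℤ)).toNat.Prime then 1 else 0 with hpr
    have hpv : pv F K = ∑ k ∈ Icc 1 K1, pr k + ∑ k ∈ Ioc K1 K, pr k := by
      unfold pv
      rw [card_filter]
      push_cast
      rw [hIcc, sum_union hdisj]
    set S1 : ℝ := ∑ k ∈ Ioc K1 K, 1 / Real.log ((F.eval (k : ℤ) : ℤ) : ℝ) with hS1
    set S0 : ℝ := ∑ k ∈ (Icc 1 K1).filter (fun k : ℕ => 2 ≤ F.eval (k : ℤ)),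
      1 / Real.log ((F.eval (k : ℤ) : ℤ) : ℝ) with hS0
    have hlF : lF F K = S0 + S1 := by
      unfold lF
      rw [hIcc, filter_union, sum_union (disjoint_filter_filter hdisj), hS1]
      congr 2
      rw [filter_true_of_mem]
      exact hge2
    have hinv : ∀ k : ℕ, 2 ≤ F.eval (k : ℤ) → 0 ≤ 1 / Real.log ((F.eval (k : ℤ) : ℤ) : ℝ) ∧
        1 / Real.log ((F.eval (k : ℤ) : ℤ) : ℝ) ≤ 2 := by
      intro k hk
      have h1 : (2:ℝ) ≤ ((F.eval (k : ℤ) : ℤ) : ℝ) := by exact_mod_cast hk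
      have h2 : Real.log 2 ≤ Real.log ((F.eval (k : ℤ) : ℤ) : ℝ) := Real.log_le_log (by norm_num) h1
      have h3 := Real.log_two_gt_d9
      constructor
      · positivity
      · rw [div_le_iff₀ (by linarith)]
        linarith
    have hS0b : 0 ≤ S0 ∧ S0 ≤ 2 * K1 := by
      constructor
      · exact sum_nonneg fun k hk => (hinv k (mem_filter.mp hk).2).1
      · calc S0 ≤ ∑ k ∈ (Icc 1 K1).filter (fun k : ℕ => 2 ≤ F.eval (k : ℤ)), (2:ℝ) :=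
              sum_le_sum fun k hk => (hinv k (mem_filter.mp hk).2).2
          _ ≤ ∑ k ∈ Icc 1 K1, (2:ℝ) :=
              sum_le_sum_of_subset_of_nonneg (filter_subset _ _) fun _ _ _ => by norm_num
          _ = 2 * K1 := by rw [sum_const, Nat.card_Icc, nsmul_eq_mul, Nat.add_sub_cancel]; ring
    have hS1b : 0 ≤ S1 ∧ S1 ≤ K := by
      have h1 : ∀ k ∈ Ioc K1 K, 1 / Real.log ((F.eval (k : ℤ) : ℤ) : ℝ) ≤ 1 := by
        intro k hk
        have h2 := hv k hk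
        have h3 : (3:ℝ) ≤ ((F.eval (k : ℤ) : ℤ) : ℝ) := by linarith
        have h4 : 1 ≤ Real.log ((F.eval (k : ℤ) : ℤ) : ℝ) := by
          rw [Real.le_log_iff_exp_le (by linarith)]
          have := Real.exp_one_lt_d9
          linarith
        rw [div_le_one (by linarith)]
        exact h4
      constructor
      · exact sum_nonneg fun k hk => (hinv k (hge2 k hk)).1
      · calc S1 ≤ ∑ k ∈ Ioc K1 K, (1:ℝ) := sum_le_sum h1
          _ = ((K - K1 : ℕ) : ℝ) := by simp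
          _ ≤ K := by exact_mod_cast Nat.sub_le K K1
    have hP0 : 0 ≤ ∑ k ∈ Icc 1 K1, pr k ∧ ∑ k ∈ Icc 1 K1, pr k ≤ K1 := by
      constructor
      · exact sum_nonneg fun k _ => by simp only [hpr]; split_ifs <;> norm_num
      · calc ∑ k ∈ Icc 1 K1, pr k ≤ ∑ k ∈ Icc 1 K1, (1:ℝ) := sum_le_sum fun k _ => by
              simp only [hpr]; split_ifs <;> norm_num
          _ = K1 := by simp
    -- main decomposition
    have hdecomp : (((∑ k ∈ Ioc K1 K, pr k : ℝ)) : ℂ) =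
        ∑ k ∈ Ioc K1 K, fz (ff x Q) (F.eval (k : ℤ)) +
        ∑ k ∈ Ioc K1 K, gg Q (F.eval (k : ℤ)).toNat / (Real.log ((F.eval (k : ℤ) : ℤ) : ℝ) : ℂ) := by
      rw [← sum_add_distrib]
      push_cast
      refine sum_congr rfl fun k hk => ?_
      have h1 := hge2 k hk
      have h2 := hub k (by rw [mem_Ioc] at hk; rw [mem_Icc]; omega)
      unfold fz
      rw [if_pos (by omega)]
      unfold ff
      rw [if_pos (by omega), hpr]
      have h3 : (((F.eval (k : ℤ)).toNat : ℕ) : ℝ) = ((F.eval (k : ℤ) : ℤ) : ℝ) := by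
        have : (((F.eval (k : ℤ)).toNat : ℕ) : ℤ) = F.eval (k : ℤ) := Int.toNat_of_nonneg (by omega)
        exact_mod_cast this
      rw [h3]
      simp only []
      split_ifs <;> push_cast <;> ring
    have hmod := modelP F Q K1 K y M hQ1 hK1K hy3 hM0 hv (fun k hk hk1 =>
      hvar ad.1 ha ad.2 hd k hk hk1)
    rw [gq_eq] at hmod
    have hmod2 := hmod.trans hmodel
    have hcomb : |∑ k ∈ Ioc K1 K, pr k - GG Q F * S1| ≤
        ‖∑ k ∈ Ioc K1 K, fz (ff x Q) (F.eval (k : ℤ))‖ + K / L ^ (U + 2) := by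
      have h1 : ((∑ k ∈ Ioc K1 K, pr k - GG Q F * S1 : ℝ) : ℂ) =
          ∑ k ∈ Ioc K1 K, fz (ff x Q) (F.eval (k : ℤ)) +
          (∑ k ∈ Ioc K1 K, gg Q (F.eval (k : ℤ)).toNat / (Real.log ((F.eval (k : ℤ) : ℤ) : ℝ) : ℂ) -
          (GG Q F : ℂ) * ∑ k ∈ Ioc K1 K, ((1 / Real.log ((F.eval (k : ℤ) : ℤ) : ℝ) : ℝ) : ℂ)) := by
        rw [Complex.ofReal_sub, hdecomp, Complex.ofReal_mul, hS1, Complex.ofReal_sum]
        ring
      have h2 : |∑ k ∈ Ioc K1 K, pr k - GG Q F * S1| =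
          ‖((∑ k ∈ Ioc K1 K, pr k - GG Q F * S1 : ℝ) : ℂ)‖ := by
        rw [Complex.norm_real, Real.norm_eq_abs]
      rw [h2, h1]
      exact (norm_add_le _ _).trans (add_le_add le_rfl hmod2)
    rw [hpv, hlF]
    have e1 : ∑ k ∈ Icc 1 K1, pr k + ∑ k ∈ Ioc K1 K, pr k - SS z F * (S0 + S1) =
        ∑ k ∈ Icc 1 K1, pr k + (∑ k ∈ Ioc K1 K, pr k - GG Q F * S1) +
        (GG Q F - SS z F) * (S1 + S0) + (-(GG Q F * S0)) := by ring
    rw [e1]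
    have a1 := abs_add_le (∑ k ∈ Icc 1 K1, pr k + (∑ k ∈ Ioc K1 K, pr k - GG Q F * S1) +
        (GG Q F - SS z F) * (S1 + S0)) (-(GG Q F * S0))
    have a2 := abs_add_le (∑ k ∈ Icc 1 K1, pr k + (∑ k ∈ Ioc K1 K, pr k - GG Q F * S1))
        ((GG Q F - SS z F) * (S1 + S0))
    have a3 := abs_add_le (∑ k ∈ Icc 1 K1, pr k) (∑ k ∈ Ioc K1 K, pr k - GG Q F * S1)
    have b1 : |∑ k ∈ Icc 1 K1, pr k| ≤ K1 := by rw [abs_of_nonneg hP0.1]; exact hP0.2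
    have b2 : |(GG Q F - SS z F) * (S1 + S0)| ≤ |GG Q F - SS z F| * (K + 2 * K1) := by
      rw [abs_mul]
      apply mul_le_mul_of_nonneg_left _ (abs_nonneg _)
      rw [abs_of_nonneg (by linarith [hS0b.1, hS1b.1])]
      linarith [hS0b.2, hS1b.2]
    have b3 : |-(GG Q F * S0)| ≤ |GG Q F| * (2 * K1) := by
      rw [abs_neg, abs_mul]
      apply mul_le_mul_of_nonneg_left _ (abs_nonneg _)
      rw [abs_of_nonneg hS0b.1]
      exact hS0b.2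
    linarith
  -- summation
  have hcard : (((Ioc a0 (a0 + A)) ×ˢ (Ioc D (2 * D))).card : ℝ) = A * D := by
    rw [card_product, Nat.card_Ioc, Nat.card_Ioc, show a0 + A - a0 = A by omega,
      show 2 * D - D = D by omega]; push_cast; ring
  rw [← sum_product'] at hs hg ⊢
  rw [← sum_product']
  refine (sum_le_sum hpt).trans ?_
  rw [sum_add_distrib, sum_add_distrib, sum_add_distrib, sum_const, nsmul_eq_mul, hcard,
    ← sum_mul, ← sum_mul]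
  have hK1K' : (K:ℝ) + 2 * K1 ≤ 3 * K := by
    have : (K1:ℝ) ≤ K := by exact_mod_cast hK1K
    linarith
  have hK1nn : (0:ℝ) ≤ K1 := Nat.cast_nonneg _
  set Sg := ∑ ad ∈ (Ioc a0 (a0 + A)) ×ˢ (Ioc D (2 * D)),
    ‖∑ k ∈ Ioc K1 K, fz (ff x Q) ((FF R j σ ad.1 ad.2).eval (k : ℤ))‖ with hSg
  calc (A:ℝ) * D * (K1 + K / L ^ (U + 2)) + Sg + _ * (K + 2 * K1) + _ * (2 * K1)
      ≤ A * D * (K / L ^ E2 + K / L ^ (U + 2)) + Sg +
        (A * D / L ^ (U + 3)) * (3 * K) + (A * D * L) * (2 * (K / L ^ E2)) := by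
        gcongr
    _ ≤ A * D * (K / L ^ (U + 2) + K / L ^ (U + 2)) + Sg +
        (A * D / L ^ (U + 2)) * (3 * K) + (A * D * L) * (2 * (K / (L ^ (U + 2) * L))) := by
        have h1 : L ^ (U + 2) ≤ L ^ E2 := hLmono _ _ (by omega)
        have h2 : L ^ (U + 2) ≤ L ^ (U + 3) := hLmono _ _ (by omega)
        have h3 : L ^ (U + 2) * L ≤ L ^ E2 := by
          rw [← pow_succ]; exact hLmono _ _ (by omega)
        gcongr
    _ = (A * D * K / L ^ (U + 1)) * (7 / L) + Sg := by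
        rw [show U + 2 = U + 1 + 1 by ring, pow_succ L (U + 1)]
        field_simp
        ring
    _ ≤ (A * D * K / L ^ (U + 1)) * 1 + Sg := by
        apply add_le_add _ le_rfl
        apply mul_le_mul_of_nonneg_left _ (by positivity)
        rw [div_le_one (by positivity)]
        linarith
    _ = _ := by rw [mul_one]

end Pool.Agent.H300R2.FB
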