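import Pool.Agent.H300R2.FB.BHG

/-!
Bateman-Horn on average over all polynomials of height at most `H`.
-/

namespace Pool.Agent.H300R2.FB

open Finset Polynomial Filter
open Pool.Agent.H442R2.EHI (evt_log_pow evt_log_ge)
open Pool.Agent.H300R2.BH

lemma dyad_aux (g : ℕ → ℝ) (M : ℕ) (n : ℕ) :
    ∑ d ∈ Ioc M (M * 2 ^ n), g d = ∑ i ∈ range n, ∑ d ∈ Ioc (M * 2 ^ i) (2 * (M * 2 ^ i)), g d := by
  induction n with
  | zero => simp
  | succ n ih =>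
    rw [sum_range_succ, ← ih]
    have h1 : M ≤ M * 2 ^ n := Nat.le_mul_of_pos_right M (by positivity)
    have h2 : M * 2 ^ n ≤ 2 * (M * 2 ^ n) := by omega
    have h3 : M * 2 ^ (n + 1) = 2 * (M * 2 ^ n) := by ring
    rw [h3, sum_Ioc_consecutive g h1 h2]

lemma dyad (g : ℕ → ℝ) (hg : ∀ d, 0 ≤ g d) (H M n : ℕ) (h : H ≤ M * 2 ^ n) :
    ∑ d ∈ Ioc 0 H, g d ≤ ∑ d ∈ Ioc 0 M, g d +
      ∑ i ∈ range n, ∑ d ∈ Ioc (M * 2 ^ i) (2 * (M * 2 ^ i)), g d := by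
  rw [← dyad_aux]
  have h1 : M ≤ M * 2 ^ n := Nat.le_mul_of_pos_right M (by positivity)
  rw [sum_Ioc_consecutive g (Nat.zero_le M) h1]
  apply sum_le_sum_of_subset_of_nonneg
  · intro d hd
    rw [mem_Ioc] at hd ⊢
    omega
  · intro d _ _
    exact hg d

/-- the dyadic reduction for a box of polynomials -/
lemma dyad_box (j : ℕ) (H : ℕ) (M : ℕ) (hM : 1 ≤ M)
    (S : Finset (Fin (j - 1) → ℤ))
    (A : Finset ℕ) (g : (Fin (j - 1) → ℤ) → ℕ → ℕ → ℝ) (hg : ∀ r a d, 0 ≤ g r a d)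
    (T W : ℝ) (hT : ∀ r ∈ S, ∀ a ∈ A, ∀ d ∈ Ioc 0 M, g r a d ≤ T) (hW0 : 0 ≤ W)
    (hW : ∀ D : ℕ, M ≤ D → D ≤ H →
      ∑ r ∈ S, ∑ a ∈ A, ∑ d ∈ Ioc D (2 * D), g r a d ≤ W * D) :
    ∑ r ∈ S, ∑ a ∈ A, ∑ d ∈ Ioc 0 H, g r a d ≤ S.card * A.card * M * T + 2 * W * H := by
  -- `n`
  have hex : ∃ n : ℕ, H ≤ M * 2 ^ n := by
    refine ⟨H, ?_⟩
    have h1 : H ≤ 2 ^ H := Nat.lt_two_pow_self.le
    calc H ≤ 2 ^ H := h1
      _ ≤ M * 2 ^ H := Nat.le_mul_of_pos_left _ (by omega)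
  set n := Nat.find hex with hn
  have hn1 : H ≤ M * 2 ^ n := Nat.find_spec hex
  have hn2 : ∀ i < n, M * 2 ^ i < H := by
    intro i hi
    have := Nat.find_min hex hi
    omega
  have hsumD : ∑ i ∈ range n, ((M * 2 ^ i : ℕ) : ℝ) ≤ 2 * H := by
    rcases Nat.eq_zero_or_pos n with h0 | h0
    · rw [h0]; simp
    · have h1 := hn2 (n - 1) (by omega)
      have h2 : ∑ i ∈ range n, M * 2 ^ i ≤ M * 2 ^ n := by
        rw [← mul_sum]
        apply Nat.mul_le_mul_left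
        exact (Nat.geomSum_lt (by norm_num) (fun i hi => by rwa [mem_range] at hi)).le
      have h3 : M * 2 ^ n = 2 * (M * 2 ^ (n - 1)) := by
        conv_lhs => rw [show n = n - 1 + 1 by omega]
        ring
      have h4 : ∑ i ∈ range n, M * 2 ^ i ≤ 2 * H := by omega
      exact_mod_cast h4
  have h1 : ∑ r ∈ S, ∑ a ∈ A, ∑ d ∈ Ioc 0 H, g r a d ≤
      ∑ r ∈ S, ∑ a ∈ A, (∑ d ∈ Ioc 0 M, g r a d +
        ∑ i ∈ range n, ∑ d ∈ Ioc (M * 2 ^ i) (2 * (M * 2 ^ i)), g r a d) :=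
    sum_le_sum fun r _ => sum_le_sum fun a _ => dyad (g r a) (hg r a) H M n hn1
  refine h1.trans ?_
  have h2 : ∑ r ∈ S, ∑ a ∈ A, (∑ d ∈ Ioc 0 M, g r a d +
        ∑ i ∈ range n, ∑ d ∈ Ioc (M * 2 ^ i) (2 * (M * 2 ^ i)), g r a d) =
      ∑ r ∈ S, ∑ a ∈ A, ∑ d ∈ Ioc 0 M, g r a d +
      ∑ i ∈ range n, ∑ r ∈ S, ∑ a ∈ A, ∑ d ∈ Ioc (M * 2 ^ i) (2 * (M * 2 ^ i)), g r a d := by
    simp only [sum_add_distrib]
    congr 1
    rw [sum_comm' (s := range n) (t := fun _ => S) (t' := S) (s' := fun _ => range n) (by simp)]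
    refine sum_congr rfl fun r _ => ?_
    rw [sum_comm]
  rw [h2]
  have h3 : ∑ r ∈ S, ∑ a ∈ A, ∑ d ∈ Ioc 0 M, g r a d ≤ S.card * A.card * M * T := by
    calc ∑ r ∈ S, ∑ a ∈ A, ∑ d ∈ Ioc 0 M, g r a d ≤ ∑ r ∈ S, ∑ a ∈ A, ∑ d ∈ Ioc 0 M, T :=
          sum_le_sum fun r hr => sum_le_sum fun a ha => sum_le_sum fun d hd => hT r hr a ha d hd
      _ = S.card * A.card * M * T := by
          simp only [sum_const, Nat.card_Ioc, nsmul_eq_mul, Nat.sub_zero]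
          ring
  have h4 : ∑ i ∈ range n, ∑ r ∈ S, ∑ a ∈ A, ∑ d ∈ Ioc (M * 2 ^ i) (2 * (M * 2 ^ i)), g r a d ≤
      2 * W * H := by
    calc _ ≤ ∑ i ∈ range n, W * ((M * 2 ^ i : ℕ) : ℝ) := by
          refine sum_le_sum fun i hi => ?_
          rw [mem_range] at hi
          exact hW (M * 2 ^ i) (Nat.le_mul_of_pos_right M (by positivity)) (hn2 i hi).le
      _ = W * ∑ i ∈ range n, ((M * 2 ^ i : ℕ) : ℝ) := by rw [mul_sum]
      _ ≤ W * (2 * H) := by gcongr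
      _ = _ := by ring
  linarith

/-- the polynomial of the box of polynomials of height at most `H` -/
noncomputable def FP (j H : ℕ) (r : Fin (j - 1) → ℤ) (a d : ℕ) : ℤ[X] :=
  FF (C (-(H : ℤ) - 1) + 0 + Rr j r) j 1 a d

/-- parameters: all conditions of the family theorems for the box of height `H` -/
lemma params (j : ℕ) (hj : 1 ≤ j) (ε : ℝ) (hε : 0 < ε) (U n : ℕ) : ∃ H0 : ℕ, ∀ H : ℕ,
    H0 ≤ H → ∀ K M : ℕ, (H : ℝ) ^ ε ≤ K → (K : ℝ) * Real.log H ^ (n + 1) ≤ H →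
    (H : ℝ) / Real.log H ^ (U + 2) ≤ M → ∀ x : ℕ, x = 4 * H * K ^ j →
    H ≤ x ∧ Real.log H ≤ Real.log x ∧ (∀ m ≤ n, Real.log x ^ m ≤ Real.log H ^ (m + 1)) ∧
    Real.log x ≤ (j + 2) * Real.log H ∧ (x : ℝ) ^ (ε / (j + 2)) ≤ K ∧
    ∀ D : ℕ, M ≤ D → D ≤ H → ∀ B ≤ n,
    BoxF j K D (2 * H + 1) 0 (-(H : ℤ) - 1) 1 x (Real.log x ^ B) ∧
    (x : ℝ) ≤ D * (K : ℝ) ^ j * Real.log x ^ (U + 3) ∧
    (K : ℝ) * Real.log x ^ B ≤ ((2 * H + 1 : ℕ) : ℝ) ∧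
    (((2 * H + 1 : ℕ) : ℝ)) ≤ D * Real.log x ^ (U + 3) ∧ 2 * H + 1 ≤ x ∧
    (∀ i : Fin (j - 1), (H : ℝ) * Real.log x ^ B ≤ D * (K : ℝ) ^ (j - 1 - (i : ℕ))) := by
  have hev : ∀ᶠ H : ℕ in atTop, 4 ≤ H ∧ (j + 2 : ℝ) ^ n + 8 ≤ Real.log H ∧
      Real.log H ^ (n + U + 4) ≤ (H : ℝ) ^ ε := by
    filter_upwards [eventually_ge_atTop 4, evt_log_ge ((j + 2 : ℝ) ^ n + 8),
      evt_log_pow (n + U + 4) ε hε] with H h1 h2 h3
    exact ⟨h1, h2, h3⟩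
  obtain ⟨H0, hH0⟩ := eventually_atTop.mp hev
  refine ⟨H0, fun H hH K M hK hKH hM x hx => ?_⟩
  obtain ⟨hH4, hL, hLε⟩ := hH0 H hH
  set L := Real.log H with hLdef
  have hj1 : (1:ℝ) ≤ j := by exact_mod_cast hj
  have hjn : (0:ℝ) ≤ (j + 2 : ℝ) ^ n := by positivity
  have hL8 : 8 ≤ L := by linarith
  have hL0 : 0 < L := by linarith
  have hL1 : 1 ≤ L := by linarith
  have hLp0 : ∀ n : ℕ, 0 < L ^ n := fun n => by positivity
  have hLp : ∀ n : ℕ, 1 ≤ L ^ n := fun n => one_le_pow₀ hL1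
  have hLmono : ∀ m n : ℕ, m ≤ n → L ^ m ≤ L ^ n := fun m n h => pow_le_pow_right₀ hL1 h
  have hHr : (4:ℝ) ≤ H := by exact_mod_cast hH4
  have hH0' : (0:ℝ) < H := by linarith
  have hLK : L ^ (n + U + 4) ≤ K := hLε.trans hK
  have hK1r : (1:ℝ) ≤ K := (hLp _).trans hLK
  have hK0 : (0:ℝ) < K := by linarith
  have hK1n : 1 ≤ K := by exact_mod_cast hK1r
  have hKj1 : 1 ≤ K ^ j := Nat.one_le_pow _ _ (by omega)
  have hKjr : (1:ℝ) ≤ (K:ℝ) ^ j := one_le_pow₀ hK1r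
  have hKjK : (K:ℝ) ≤ (K:ℝ) ^ j := le_self_pow₀ hK1r (by omega)
  have hxr : (x:ℝ) = 4 * H * (K:ℝ) ^ j := by rw [hx]; push_cast; ring
  have hHx : H ≤ x := by
    rw [hx]
    calc H ≤ 4 * H * 1 := by omega
      _ ≤ 4 * H * K ^ j := Nat.mul_le_mul_left _ hKj1
  have hHxr : (H:ℝ) ≤ x := by exact_mod_cast hHx
  have hx0 : (0:ℝ) < x := by linarith
  have hKH' : (K:ℝ) ≤ H := by
    calc (K:ℝ) ≤ K * L ^ (n + 1) := le_mul_of_one_le_right hK0.le (hLp _)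
      _ ≤ H := hKH
  have hxH : (x:ℝ) ≤ (H:ℝ) ^ (j + 2) := by
    rw [hxr]
    calc 4 * (H:ℝ) * (K:ℝ) ^ j ≤ H * H * (H:ℝ) ^ j := by gcongr
      _ = (H:ℝ) ^ (j + 2) := by ring
  have hLx : L ≤ Real.log x := Real.log_le_log hH0' hHxr
  have hLx0 : 0 < Real.log x := by linarith
  have hLx1 : 1 ≤ Real.log x := by linarith
  have hLx2 : Real.log x ≤ (j + 2) * L := by
    calc Real.log x ≤ Real.log ((H:ℝ) ^ (j + 2)) := Real.log_le_log hx0 hxH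
      _ = (j + 2) * L := by rw [Real.log_pow]; push_cast; ring
  have hpow : ∀ m ≤ n, Real.log x ^ m ≤ L ^ (m + 1) := by
    intro m hm
    calc Real.log x ^ m ≤ ((j + 2) * L) ^ m := by gcongr
      _ = (j + 2 : ℝ) ^ m * L ^ m := mul_pow _ _ _
      _ ≤ L * L ^ m := by
          gcongr
          calc (j + 2 : ℝ) ^ m ≤ (j + 2 : ℝ) ^ n := pow_le_pow_right₀ (by linarith) hm
            _ ≤ L := by linarith
      _ = L ^ (m + 1) := by ring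
  refine ⟨hHx, hLx, hpow, hLx2, ?_, fun D hMD hDH B hB => ?_⟩
  · calc (x:ℝ) ^ (ε / (j + 2)) ≤ ((H:ℝ) ^ (j + 2)) ^ (ε / (j + 2)) := by
          gcongr
      _ = (H:ℝ) ^ ε := by
          rw [← Real.rpow_natCast, ← Real.rpow_mul hH0'.le]
          congr 1
          push_cast
          field_simp
      _ ≤ K := hK
  · have hMD' : (M:ℝ) ≤ D := by exact_mod_cast hMD
    have hDH' : (D:ℝ) ≤ H := by exact_mod_cast hDH
    have hHD : (H:ℝ) ≤ D * L ^ (U + 2) := by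
      rw [← div_le_iff₀ (hLp0 _)]
      exact hM.trans hMD'
    have hD0 : (0:ℝ) < D := by
      by_contra hneg
      push Not at hneg
      have := mul_nonpos_of_nonpos_of_nonneg hneg (hLp0 (U + 2)).le
      linarith
    have hxB := hpow B hB
    have hxBn : Real.log x ^ B ≤ L ^ (n + 1) := hxB.trans (hLmono _ _ (by omega))
    have hxB0 : 0 < Real.log x ^ B := by positivity
    have hHLx : 4 * (H:ℝ) ≤ D * Real.log x ^ (U + 3) := by
      calc 4 * (H:ℝ) ≤ L * (D * L ^ (U + 2)) := by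
            apply mul_le_mul (by linarith) hHD hH0'.le hL0.le
        _ = D * L ^ (U + 3) := by ring
        _ ≤ _ := by gcongr
    refine ⟨Or.inl ⟨rfl, ?_, ?_⟩, ?_, ?_, ?_, ?_, ?_⟩
    · push_cast
      calc -((0:ℝ) + (-(H:ℝ) - 1)) * Real.log x ^ B = (H + 1) * Real.log x ^ B := by ring
        _ ≤ (L * H) * L ^ (n + 1) := by
            apply mul_le_mul _ hxBn hxB0.le (by positivity)
            nlinarith
        _ ≤ (L * (D * L ^ (U + 2))) * L ^ (n + 1) := by gcongr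
        _ = D * L ^ (n + U + 4) := by ring
        _ ≤ D * (K:ℝ) ^ j := by
            gcongr
            exact hLK.trans hKjK
    · rw [hxr]
      push_cast
      have h1 : 3 * (D:ℝ) * (K:ℝ) ^ j ≤ 3 * H * (K:ℝ) ^ j := by gcongr
      have h2 : (H:ℝ) ≤ H * (K:ℝ) ^ j := le_mul_of_one_le_right hH0'.le hKjr
      linarith
    · calc (x:ℝ) = 4 * (H:ℝ) * (K:ℝ) ^ j := hxr
        _ ≤ (D * Real.log x ^ (U + 3)) * (K:ℝ) ^ j := by gcongr
        _ = D * (K:ℝ) ^ j * Real.log x ^ (U + 3) := by ring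
    · push_cast
      calc (K:ℝ) * Real.log x ^ B ≤ K * L ^ (n + 1) := by gcongr
        _ ≤ H := hKH
        _ ≤ 2 * H + 1 := by linarith
    · push_cast
      linarith
    · have : 2 * H + 1 ≤ 4 * H * 1 := by omega
      rw [hx]
      exact this.trans (Nat.mul_le_mul_left _ hKj1)
    · intro i
      have hi := i.2
      calc (H:ℝ) * Real.log x ^ B ≤ (D * L ^ (U + 2)) * L ^ (n + 1) := by gcongr
        _ = D * L ^ (n + U + 3) := by ring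
        _ ≤ D * (K:ℝ) := by
            gcongr
            exact (hLmono _ _ (by omega)).trans hLK
        _ ≤ D * (K : ℝ) ^ (j - 1 - (i : ℕ)) := by
            gcongr
            exact le_self_pow₀ hK1r (by omega)

end Pool.Agent.H300R2.FB
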