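import Pool.Agent.H300R2.FB.Full2
import Pool.Agent.H666R2.FB_Grid
import Pool.Agent.H455R2.FB_G4
import Pool.Agent.H300R2.BH.Pub

/-!
Bateman-Horn for almost all polynomials of height at most `H`, uniformly in the length.
-/

namespace Pool.Agent.H300R2.FB

open Finset Polynomial Filter
open Pool.Agent.H442R2.EHI (evt_log_pow evt_log_ge)
open Pool.Agent.H300R2.BH
open Pool.Agent.H666R2.FB (grid)
open Pool.Agent.H455R2.FB (FP_surj)

lemma pv_step (F : ℤ[X]) (K : ℕ) : |pv F (K + 1) - pv F K| ≤ 1 := by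
  unfold pv
  rw [← insert_Icc_right_eq_Icc_add_one (by omega : 1 ≤ K + 1), filter_insert]
  split_ifs with h
  · rw [card_insert_of_notMem (by simp)]
    push_cast
    rw [add_sub_cancel_left]
    norm_num
  · rw [sub_self]
    norm_num

lemma lF_step (F : ℤ[X]) (K : ℕ) : |lF F (K + 1) - lF F K| ≤ 2 := by
  unfold lF
  rw [← insert_Icc_right_eq_Icc_add_one (by omega : 1 ≤ K + 1), filter_insert]
  split_ifs with h
  · rw [sum_insert (by simp), add_sub_cancel_right]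
    obtain ⟨h1, h2⟩ := lF_term F (K + 1) h
    rw [abs_of_nonneg h1]
    exact h2
  · rw [sub_self]
    norm_num

/-- the main term is large for polynomials of the box -/
lemma lF_low (j : ℕ) (hj : 1 ≤ j) (ε : ℝ) (hε : 0 < ε) (U : ℕ) : ∃ B H0 : ℕ, ∀ H : ℕ, H0 ≤ H →
    ∀ K M : ℕ, (H : ℝ) ^ ε ≤ K → (K : ℝ) * Real.log H ^ B ≤ H → 1 ≤ M →
    (H : ℝ) / Real.log H ^ (U + 2) ≤ M → ∀ r ∈ bx j (fun _ => H),
    ∀ a ∈ Ioc 0 (0 + (2 * H + 1)), ∀ d : ℕ, M < d → d ≤ H →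
    K / (2 * (j + 2) * Real.log H) ≤ lF (FP j H r a d) K := by
  set n := j + 1 with hn
  obtain ⟨H1, hpar⟩ := params j hj ε hε U n
  obtain ⟨x1, hx1⟩ := eventually_atTop.mp (evt_log_pow (U + 3 + j + 2) 1 (by norm_num))
  have hev : ∀ᶠ H : ℕ in atTop, H1 ≤ H ∧ x1 ≤ H ∧ 16 * ((j : ℝ) + 2) ≤ Real.log H ∧
      Real.log H ^ (n + U + 4) ≤ (H : ℝ) ^ ε ∧ 1 ≤ H := by
    filter_upwards [eventually_ge_atTop H1, eventually_ge_atTop x1,
      evt_log_ge (16 * ((j : ℝ) + 2)), evt_log_pow (n + U + 4) ε hε, eventually_ge_atTop 1]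
      with H h1 h2 h3 h4 h5
    exact ⟨h1, h2, h3, h4, h5⟩
  obtain ⟨H0, hH0⟩ := eventually_atTop.mp hev
  refine ⟨n + 1, H0, fun H hH K M hK hKH hM1 hM r hr a ha d hMd hdH => ?_⟩
  obtain ⟨hH1, hHx1, hL16, hLε, hHn⟩ := hH0 H hH
  obtain ⟨hHx, hLx, hpow, hLx2, hxK, hp⟩ := hpar H hH1 K M hK hKH hM (4 * H * K ^ j) rfl
  set x := 4 * H * K ^ j with hx
  obtain ⟨p1, p2, p3, p4, p5, p6⟩ := hp (d - 1) (by omega) (by omega) n le_rfl
  have hxx := hx1 x (hHx1.trans hHx)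
  rw [Real.rpow_one] at hxx
  set L := Real.log H with hLdef
  set Lx := Real.log x with hLxdef
  have hj1 : (1:ℝ) ≤ j := by exact_mod_cast hj
  have hL48 : 48 ≤ L := by linarith
  have hL0 : 0 < L := by linarith
  have hL1 : 1 ≤ L := by linarith
  have hLp0 : ∀ n : ℕ, 0 < L ^ n := fun n => by positivity
  have hLmono : ∀ m n : ℕ, m ≤ n → L ^ m ≤ L ^ n := fun m n h => pow_le_pow_right₀ hL1 h
  have hLx0 : 0 < Lx := by linarith
  have hHr : (1:ℝ) ≤ H := by exact_mod_cast hHn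
  have hH0' : (0:ℝ) < H := by linarith
  have hLK : L ^ (n + U + 4) ≤ K := hLε.trans hK
  have hK48 : (48:ℝ) ≤ K := by
    calc (48:ℝ) ≤ L ^ 1 := by rw [pow_one]; exact hL48
      _ ≤ L ^ (n + U + 4) := hLmono _ _ (by omega)
      _ ≤ K := hLK
  have hK0 : (0:ℝ) < K := by linarith
  have hK48n : 48 ≤ K := by exact_mod_cast hK48
  have hKH' : (K:ℝ) ≤ H := by
    calc (K:ℝ) ≤ K * L ^ (n + 1) := le_mul_of_one_le_right hK0.le (one_le_pow₀ hL1)
      _ ≤ H := hKH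
  -- `Lx ^ n ≤ d - 1`
  have hd1 : (M:ℝ) ≤ ((d - 1 : ℕ) : ℝ) := by
    have : M ≤ d - 1 := by omega
    exact_mod_cast this
  have hHLM : (H:ℝ) ≤ M * L ^ (U + 2) := by rwa [div_le_iff₀ (hLp0 _)] at hM
  have htD : Lx ^ n ≤ ((d - 1 : ℕ) : ℝ) := by
    refine le_trans ?_ hd1
    refine (hpow n le_rfl).trans ?_
    have h1 : L ^ (n + 1) * L ^ (U + 2) ≤ M * L ^ (U + 2) := by
      refine le_trans ?_ hHLM
      calc L ^ (n + 1) * L ^ (U + 2) = L ^ (n + U + 3) := by ring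
        _ ≤ L ^ (n + U + 4) := hLmono _ _ (by omega)
        _ ≤ K := hLK
        _ ≤ H := hKH'
    exact le_of_mul_le_mul_right h1 (hLp0 _)
  set K1 := K / 2 with hK1
  have hKK1 : (K:ℝ) ≤ K1 * Lx ^ 1 := by
    have h1 : K ≤ 4 * K1 := by omega
    have h2 : (K:ℝ) ≤ 4 * K1 := by exact_mod_cast h1
    have h3 : (0:ℝ) ≤ K1 := Nat.cast_nonneg _
    rw [pow_one]
    nlinarith
  obtain ⟨v1, v2, -⟩ := fam_vals j hj x (Lx ^ n) Lx (U + 3) 1 K K1 (d - 1) (2 * H + 1) 0 0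
    (-(H:ℤ) - 1) 1 (fun _ => H) (by linarith) htD (by
      calc 16 * ((j:ℝ) + 2) * Lx ^ (j * 1) ≤ Lx * Lx ^ (j * 1) := by gcongr; linarith
        _ = Lx ^ n := by rw [hn, mul_one, ← pow_succ']) (by omega) (by omega) hKK1 p2 p1
    (by
      intro k _
      simp only [eval_zero, Int.cast_zero, abs_zero]
      positivity) p6 r hr a d ha (by rw [mem_Ioc]; omega)
  have hFP : FF (C (-(H:ℤ) - 1) + 0 + Rr j r) j 1 a d = FP j H r a d := rfl
  rw [hFP] at v1 v2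
  have hx0 : (0:ℝ) < x := by
    have : (H:ℝ) ≤ x := by exact_mod_cast hHx
    linarith
  have hval : ∀ k ∈ Ioc K1 K, 2 ≤ (FP j H r a d).eval (k : ℤ) := by
    intro k hk
    have h1 := v2 k hk
    have h2 : (2:ℝ) ≤ x / Lx ^ (U + 3 + j * 1 + 1) := by
      rw [le_div_iff₀ (by positivity)]
      calc 2 * Lx ^ (U + 3 + j * 1 + 1) ≤ Lx * Lx ^ (U + 3 + j * 1 + 1) := by
            gcongr; linarith
        _ = Lx ^ (U + 3 + j + 2) := by rw [← pow_succ']; congr 1; ring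
        _ ≤ x := hxx
    have h3 := h2.trans h1
    exact_mod_cast h3
  unfold lF
  have hsub : Ioc K1 K ⊆ (Icc 1 K).filter (fun k : ℕ => 2 ≤ (FP j H r a d).eval (k : ℤ)) := by
    intro k hk
    rw [mem_filter, mem_Icc]
    refine ⟨?_, hval k hk⟩
    rw [mem_Ioc] at hk
    omega
  have hcard : (K:ℝ) / 2 ≤ ((Ioc K1 K).card : ℝ) := by
    rw [Nat.card_Ioc]
    have h1 : K ≤ 2 * (K - K1) := by omega
    have h2 : (K:ℝ) ≤ 2 * ((K - K1 : ℕ) : ℝ) := by exact_mod_cast h1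
    linarith
  calc K / (2 * (j + 2) * L) = (K / 2) * (1 / ((j + 2) * L)) := by field_simp
    _ ≤ ((Ioc K1 K).card : ℝ) * (1 / Lx) := by
        gcongr
    _ = ∑ k ∈ Ioc K1 K, 1 / Lx := by rw [sum_const, nsmul_eq_mul]
    _ ≤ ∑ k ∈ Ioc K1 K, 1 / Real.log (((FP j H r a d).eval (k : ℤ) : ℤ) : ℝ) := by
        refine sum_le_sum fun k hk => ?_
        have h1 := hval k hk
        have h2 := v1 k (by rw [mem_Ioc] at hk; rw [mem_Icc]; omega)
        have h3 : (2:ℝ) ≤ (((FP j H r a d).eval (k : ℤ) : ℤ) : ℝ) := by exact_mod_cast h1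
        apply one_div_le_one_div_of_le (Real.log_pos (by linarith))
        exact Real.log_le_log (by linarith) h2
    _ ≤ _ := sum_le_sum_of_subset_of_nonneg hsub fun k hk _ =>
        (lF_term _ k (mem_filter.mp hk).2).1

/-- the Euler product is not too small -/
lemma SS_low (j : ℕ) (hj : 1 ≤ j) (E : ℕ) : ∃ H0 : ℕ, ∀ H : ℕ, H0 ≤ H → ∀ F : ℤ[X],
    F.natDegree ≤ j → (∀ p : ℕ, p.Prime → p ≤ ⌊Real.log H ^ (E + 1)⌋₊ → rho F p ≠ p) →
    2 * (j + 2) / Real.log H ≤ SS ⌊Real.log H ^ (E + 1)⌋₊ F := by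
  obtain ⟨c, hc, hSS⟩ := SS_lower j hj
  obtain ⟨H1, hH1⟩ := SS_small E
  have hlogs : ∀ᶠ x : ℕ in atTop, 2 * ((j:ℝ) + 2) * ((E + 1) * Real.log (Real.log x)) ^ (2 * j) ≤
      c * Real.log x := by
    have h1 : (fun t : ℝ => Real.log t ^ (2 * j)) =o[atTop] fun t : ℝ => t :=
      Real.isLittleO_pow_log_id_atTop
    have h2 := h1.bound (show (0:ℝ) < c / (2 * ((j:ℝ) + 2) * (E + 1) ^ (2 * j)) by positivity)
    have h3 := (Real.tendsto_log_atTop.comp (tendsto_natCast_atTop_atTop (R := ℝ))).eventually h2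
    filter_upwards [h3, evt_log_ge (Real.exp 1)] with x hx hx2
    simp only [Function.comp] at hx
    have ht0 : 0 < Real.log x := lt_of_lt_of_le (Real.exp_pos 1) hx2
    have hl : 1 ≤ Real.log (Real.log x) := by
      rw [Real.le_log_iff_exp_le ht0]; exact hx2
    rw [Real.norm_of_nonneg (by positivity), Real.norm_of_nonneg ht0.le] at hx
    calc 2 * ((j:ℝ) + 2) * ((E + 1) * Real.log (Real.log x)) ^ (2 * j)
        = (2 * ((j:ℝ) + 2) * (E + 1) ^ (2 * j)) * Real.log (Real.log x) ^ (2 * j) := by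
          rw [mul_pow]; ring
      _ ≤ (2 * ((j:ℝ) + 2) * (E + 1) ^ (2 * j)) *
          (c / (2 * ((j:ℝ) + 2) * (E + 1) ^ (2 * j)) * Real.log x) := by gcongr
      _ = c * Real.log x := by field_simp
  obtain ⟨H0, hH0⟩ := eventually_atTop.mp (hlogs.and ((evt_log_ge 3).and (eventually_ge_atTop H1)))
  refine ⟨H0, fun H hH F hF hbad => ?_⟩
  obtain ⟨h1, h2, h3⟩ := hH0 H hH
  obtain ⟨hz3, -⟩ := hH1 H h3
  have h4 := hSS _ hz3 F hF hbad
  refine le_trans ?_ h4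
  set L := Real.log H with hL
  have hL0 : 0 < L := by linarith
  have hzr : (3:ℝ) ≤ (⌊L ^ (E + 1)⌋₊ : ℝ) := by exact_mod_cast hz3
  have h6 : Real.log (⌊L ^ (E + 1)⌋₊ : ℝ) ≤ (E + 1) * Real.log L := by
    calc Real.log (⌊L ^ (E + 1)⌋₊ : ℝ) ≤ Real.log (L ^ (E + 1)) :=
          Real.log_le_log (by linarith) (Nat.floor_le (by positivity))
      _ = (E + 1) * Real.log L := by rw [Real.log_pow]; push_cast; ring
  have h7 : 0 < Real.log (⌊L ^ (E + 1)⌋₊ : ℝ) := Real.log_pos (by linarith)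
  rw [div_le_div_iff₀ hL0 (by positivity)]
  calc 2 * ((j:ℝ) + 2) * Real.log (⌊L ^ (E + 1)⌋₊ : ℝ) ^ (2 * j)
      ≤ 2 * ((j:ℝ) + 2) * ((E + 1) * Real.log L) ^ (2 * j) := by gcongr
    _ ≤ c * L := h1

lemma card_bx_le (j : ℕ) (hj : 1 ≤ j) (H : ℕ) (hH : 1 ≤ H) :
    ((bx j (fun _ => H)).card : ℝ) * ((2 * H + 1 : ℕ) : ℝ) ≤ 3 ^ j * (H:ℝ) ^ j := by
  rw [card_bx, prod_const, card_univ, Fintype.card_fin, ← pow_succ, show j - 1 + 1 = j by omega,
    ← mul_pow]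
  have hHr : (1:ℝ) ≤ H := by exact_mod_cast hH
  push_cast
  gcongr
  linarith

theorem full_unif (j : ℕ) (hj : 1 ≤ j) (ε : ℝ) (hε : 0 < ε) (U : ℕ) : ∃ E1 : ℕ, ∀ E : ℕ, E1 ≤ E →
    ∃ B H0 : ℕ, ∀ H : ℕ, H0 ≤ H → ∃ T : Finset ℤ[X],
    (T.card : ℝ) ≤ (H : ℝ) ^ (j + 1) / Real.log H ^ U ∧
    ∀ F : ℤ[X], F.natDegree = j → 0 < F.leadingCoeff → (∀ i, |F.coeff i| ≤ H) → F ∉ T →
    ∀ K : ℕ, (H : ℝ) ^ ε ≤ K → (K : ℝ) * Real.log H ^ B ≤ H →
    |pv F K - SS ⌊Real.log H ^ E⌋₊ F * lF F K| ≤ K / Real.log H ^ U ∧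
    ((∀ p : ℕ, p.Prime → p ≤ ⌊Real.log H ^ E⌋₊ → ∃ n : ℤ, ¬ (p : ℤ) ∣ F.eval n) →
      |pv F K - SS ⌊Real.log H ^ E⌋₊ F * lF F K| ≤
        SS ⌊Real.log H ^ E⌋₊ F * lF F K / Real.log H ^ U) := by
  classical
  obtain ⟨U', h0, hgrid⟩ := grid (U + 2)
  obtain ⟨E1, hE1⟩ := mean_full j hj ε hε U'
  refine ⟨E1 + 1, fun E hE => ?_⟩
  obtain ⟨B1, H1, hmean⟩ := hE1 E (by omega)
  obtain ⟨B2, H2, hlow⟩ := lF_low j hj ε hε (U + 2)
  obtain ⟨H3, hSSl⟩ := SS_low j hj (E - 1)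
  obtain ⟨H4, hSSs⟩ := SS_small (E - 1)
  rw [show E - 1 + 1 = E by omega] at hSSl hSSs
  set B := max B1 B2 with hB
  have hev : ∀ᶠ H : ℕ in atTop, H1 ≤ H ∧ H2 ≤ H ∧ H3 ≤ H ∧ H4 ≤ H ∧
      max h0 (3 ^ (j + 1) + 2) ≤ Real.log H ∧
      Real.log H ^ U' ≤ (H : ℝ) ^ ε ∧ Real.log H ^ (U + 4) ≤ (H : ℝ) ^ (1:ℝ) ∧ 1 ≤ H := by
    filter_upwards [eventually_ge_atTop (max H1 H2), eventually_ge_atTop (max H3 H4),
      evt_log_ge (max h0 (3 ^ (j + 1) + 2)), evt_log_pow U' ε hε,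
      evt_log_pow (U + 4) 1 (by norm_num), eventually_ge_atTop 1]
      with H h1 h2 h3 h4 h5 h6
    exact ⟨(le_max_left _ _).trans h1, (le_max_right _ _).trans h1, (le_max_left _ _).trans h2,
      (le_max_right _ _).trans h2, h3, h4, h5, h6⟩
  obtain ⟨H0, hH0⟩ := eventually_atTop.mp hev
  refine ⟨B, H0, fun H hH => ?_⟩
  obtain ⟨hH1, hH2, hH3, hH4, hL, hLε, hLH, hHn⟩ := hH0 H hH
  rw [Real.rpow_one] at hLH
  set L := Real.log H with hLdef
  have hLh0 : h0 ≤ L := (le_max_left _ _).trans hL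
  have hL3 : 3 ^ (j + 1) + 2 ≤ L := (le_max_right _ _).trans hL
  have h3j : (0:ℝ) < 3 ^ (j + 1) := by positivity
  have hL2 : 2 ≤ L := by linarith
  have hL0 : 0 < L := by linarith
  have hL1 : 1 ≤ L := by linarith
  have hLp0 : ∀ n : ℕ, 0 < L ^ n := fun n => by positivity
  have hLp : ∀ n : ℕ, 1 ≤ L ^ n := fun n => one_le_pow₀ hL1
  have hLmono : ∀ m n : ℕ, m ≤ n → L ^ m ≤ L ^ n := fun m n h => pow_le_pow_right₀ hL1 h
  have hHr : (1:ℝ) ≤ H := by exact_mod_cast hHn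
  have hH0' : (0:ℝ) < H := by linarith
  set z := ⌊L ^ E⌋₊ with hz
  obtain ⟨hz3, hSSz⟩ := hSSs H hH4
  set A := Ioc 0 (0 + (2 * H + 1)) with hA
  set S := (bx j (fun _ => H)) ×ˢ (A ×ˢ Ioc 0 H) with hS
  set P : ((Fin (j - 1) → ℤ) × ℕ × ℕ) → ℕ → ℝ := fun s K => pv (FP j H s.1 s.2.1 s.2.2) K with hP
  set N : ((Fin (j - 1) → ℤ) × ℕ × ℕ) → ℕ → ℝ := fun s K =>
    SS z (FP j H s.1 s.2.1 s.2.2) * lF (FP j H s.1 s.2.1 s.2.2) K with hN
  set bc : ℝ := ((bx j (fun _ => H)).card : ℝ) with hbc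
  have hbc0 : 0 ≤ bc := Nat.cast_nonneg _
  have hAc : (A.card : ℝ) = ((2 * H + 1 : ℕ) : ℝ) := by
    rw [hA, Nat.card_Ioc]; simp
  have hSc : (S.card : ℝ) = bc * ((2 * H + 1 : ℕ) : ℝ) * H := by
    rw [hS, card_product, card_product]
    push_cast
    rw [hAc, Nat.card_Ioc, Nat.sub_zero]
    push_cast
    ring
  obtain ⟨T1, hT1S, hT1c, hT1⟩ := hgrid L hLh0 S P N ⌈(H:ℝ) ^ ε⌉₊ ⌊(H:ℝ) / L ^ B⌋₊
    (hLε.trans (Nat.le_ceil _))
    (by
      rw [hLdef, Real.exp_log hH0']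
      refine (Nat.floor_le (by positivity)).trans ?_
      exact div_le_self hH0'.le (hLp _))
    (fun s _ K => pv_step _ K)
    (fun s _ K => by
      rw [hN]
      simp only []
      rw [← mul_sub, abs_mul, abs_of_nonneg (hSSz _).1]
      calc SS z (FP j H s.1 s.2.1 s.2.2) * |_| ≤ L * 2 :=
            mul_le_mul (hSSz _).2 (lF_step _ _) (abs_nonneg _) hL0.le
        _ ≤ L ^ 2 := by nlinarith)
    (by
      intro K hK1 hK2
      have h1 : (H:ℝ) ^ ε ≤ K := (Nat.le_ceil _).trans (by exact_mod_cast hK1)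
      have h2 : (K:ℝ) ≤ H / L ^ B := by
        have h3 : (K:ℝ) ≤ (⌊(H:ℝ) / L ^ B⌋₊ : ℝ) := by exact_mod_cast hK2
        exact h3.trans (Nat.floor_le (by positivity))
      have h3 : (K:ℝ) * L ^ B1 ≤ H := by
        rw [le_div_iff₀ (hLp0 _)] at h2
        refine le_trans ?_ h2
        gcongr
        exact le_max_left _ _
      have h4 := hmean H hH1 K h1 h3
      rw [hSc, hS, sum_product]
      refine le_trans (le_of_eq ?_) h4
      refine sum_congr rfl fun r _ => ?_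
      rw [sum_product])
  set M := ⌈(H:ℝ) / L ^ (U + 2 + 2)⌉₊ with hM
  have hMge : (H:ℝ) / L ^ (U + 2 + 2) ≤ M := Nat.le_ceil _
  have hMle : (M:ℝ) ≤ 2 * (H / L ^ (U + 2 + 2)) := by
    have h1 : (M:ℝ) < H / L ^ (U + 2 + 2) + 1 := Nat.ceil_lt_add_one (by positivity)
    have h2 : 1 ≤ (H:ℝ) / L ^ (U + 2 + 2) := by rw [le_div_iff₀ (hLp0 _), one_mul]; exact hLH
    linarith
  have hM1 : 1 ≤ M := by
    have h2 : 0 < (H:ℝ) / L ^ (U + 2 + 2) := by positivity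
    exact Nat.one_le_iff_ne_zero.mpr (by
      intro h0
      rw [h0] at hMge
      simp only [Nat.cast_zero] at hMge
      linarith)
  set T2 := (bx j (fun _ => H)) ×ˢ (A ×ˢ Ioc 0 M) with hT2
  have hT2c : (T2.card : ℝ) = bc * ((2 * H + 1 : ℕ) : ℝ) * M := by
    rw [hT2, card_product, card_product]
    push_cast
    rw [hAc, Nat.card_Ioc, Nat.sub_zero]
    push_cast
    ring
  refine ⟨(T1 ∪ T2).image (fun s => FP j H s.1 s.2.1 s.2.2), ?_, ?_⟩
  · have h1 : (((T1 ∪ T2).image (fun s => FP j H s.1 s.2.1 s.2.2)).card : ℝ) ≤ T1.card + T2.card := by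
      exact_mod_cast card_image_le.trans (card_union_le _ _)
    refine h1.trans ?_
    have hcb := card_bx_le j hj H hHn
    calc (T1.card : ℝ) + T2.card ≤ bc * ((2 * H + 1 : ℕ) : ℝ) * H / L ^ (U + 2) +
          bc * ((2 * H + 1 : ℕ) : ℝ) * (2 * (H / L ^ (U + 2 + 2))) := by
          rw [hT2c]
          rw [hSc] at hT1c
          gcongr
      _ ≤ (3 ^ j * (H:ℝ) ^ j) * H / L ^ (U + 2) + (3 ^ j * (H:ℝ) ^ j) *
          (2 * (H / L ^ (U + 2 + 2))) := by gcongr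
      _ ≤ (3 ^ j * (H:ℝ) ^ j) * H / L ^ (U + 1) + (3 ^ j * (H:ℝ) ^ j) *
          (2 * (H / L ^ (U + 1))) := by
          gcongr 3 ^ j * H ^ j * H / ?_ + 3 ^ j * H ^ j * (2 * (H / ?_))
          · exact hLmono _ _ (by omega)
          · exact hLmono _ _ (by omega)
      _ = ((H:ℝ) ^ (j + 1) / L ^ U) * (3 ^ (j + 1) / L) := by
          rw [pow_succ L U]
          field_simp
          ring
      _ ≤ ((H:ℝ) ^ (j + 1) / L ^ U) * 1 := by
          gcongr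
          rw [div_le_one hL0]
          linarith
      _ = _ := mul_one _
  · intro F hFd hFl hFc hFT K hK hKB
    obtain ⟨r, hr, a, ha, d, hd, hF⟩ := FP_surj j H hj F hFd hFl hFc
    have hF' : FP j H r a d = F := hF
    have hs : (r, a, d) ∈ S := by
      rw [hS, mem_product, mem_product]
      exact ⟨hr, ha, hd⟩
    have hnT : (r, a, d) ∉ T1 ∪ T2 := by
      intro hmem
      apply hFT
      rw [mem_image]
      exact ⟨(r, a, d), hmem, hF'⟩
    rw [mem_union, not_or] at hnT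
    have hdM : M < d := by
      by_contra hneg
      apply hnT.2
      rw [hT2, mem_product, mem_product]
      refine ⟨hr, ha, ?_⟩
      rw [mem_Ioc] at hd ⊢
      exact ⟨hd.1, by simpa using hneg⟩
    have hK0 : (0:ℝ) < K := lt_of_lt_of_le (Real.rpow_pos_of_pos hH0' _) hK
    have habs := hT1 (r, a, d) hs hnT.1 K (Nat.ceil_le.mpr hK) (by
      apply Nat.le_floor
      rw [le_div_iff₀ (hLp0 _)]
      exact hKB)
    simp only [hP, hN] at habs
    rw [hF'] at habs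
    refine ⟨habs.trans ?_, fun hbad => ?_⟩
    · apply div_le_div_of_nonneg_left hK0.le (hLp0 _) (hLmono _ _ (by omega))
    · refine habs.trans ?_
      have hlF := hlow H hH2 K M hK (by
        refine le_trans ?_ hKB
        gcongr
        exact le_max_right _ _) hM1 hMge r hr a ha d hdM (by rw [mem_Ioc] at hd; exact hd.2)
      rw [hF'] at hlF
      have hSS := hSSl H hH3 F hFd.le (fun p hp hpz => (rho_ne_iff F p hp).mpr (hbad p hp hpz))
      have hj2 : (0:ℝ) < 2 * (j + 2) := by positivity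
      calc (K:ℝ) / L ^ (U + 2) = (2 * (j + 2) / L) * (K / (2 * (j + 2) * L)) / L ^ U := by
            rw [pow_add]
            field_simp
        _ ≤ SS z F * lF F K / L ^ U := by
            gcongr
            exact (hSSz F).1

end Pool.Agent.H300R2.FB
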