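import Pool.Agent.H300R2.FB.Full3
import Pool.Agent.H20R2.FB_LamF
import Pool.Agent.H534R2.BH_Lam

/-!
Bounded functions along almost all polynomials of height at most `H`.
-/

namespace Pool.Agent.H300R2.FB

open Finset Polynomial Filter
open Pool.Agent.H469R2.NK (e)
open Pool.Agent.H442R2.EHI (evt_log_pow evt_log_ge)
open Pool.Agent.H300R2.BH
open Pool.Agent.H666R2.FB (grid)
open Pool.Agent.H455R2.FB (FP_surj)
open Pool.Agent.H20R2.FB (lamF)

/-- a real bounded function with small Fourier coefficients near rationals -/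
def SWF (g : ℕ → ℝ) : Prop :=
  ∀ E1 E3 : ℕ, ∃ x0 : ℕ, ∀ x : ℕ, x0 ≤ x → ∀ q : ℕ, 1 ≤ q → (q : ℝ) ≤ Real.log x ^ E1 →
      ∀ b : ℤ, ∀ β : ℝ, |β - (b : ℝ) / (q : ℝ)| ≤ Real.log x ^ E3 / x →
      ‖∑ n ∈ Icc 1 x, (g n : ℂ) * e (n * β)‖ ≤ x / Real.log x ^ (2 * E3)

/-- the sum of `g (|F(k)|)` over `1 ≤ k ≤ K` -/
noncomputable def gs (g : ℕ → ℝ) (F : ℤ[X]) (K : ℕ) : ℝ :=
  ∑ k ∈ Icc 1 K, g (F.eval (k : ℤ)).natAbs

lemma gs_norm (g : ℕ → ℝ) (F : ℤ[X]) (K : ℕ) :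
    ‖∑ k ∈ Icc 1 K, ((g (F.eval (k : ℤ)).natAbs : ℝ) : ℂ)‖ = |gs g F K| := by
  unfold gs
  rw [← Complex.ofReal_sum, Complex.norm_real, Real.norm_eq_abs]

lemma gs_le (g : ℕ → ℝ) (hg : ∀ n, |g n| ≤ 1) (F : ℤ[X]) (K : ℕ) : |gs g F K| ≤ K := by
  unfold gs
  calc |∑ k ∈ Icc 1 K, g (F.eval (k : ℤ)).natAbs| ≤ ∑ k ∈ Icc 1 K, |g (F.eval (k : ℤ)).natAbs| :=
        abs_sum_le_sum_abs _ _
    _ ≤ ∑ k ∈ Icc 1 K, (1:ℝ) := sum_le_sum fun k _ => hg _
    _ = K := by simp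

lemma gs_step (g : ℕ → ℝ) (hg : ∀ n, |g n| ≤ 1) (F : ℤ[X]) (K : ℕ) :
    |gs g F (K + 1) - gs g F K| ≤ 1 := by
  unfold gs
  rw [sum_Icc_succ_top (by omega), add_sub_cancel_left]
  exact hg _

theorem mean_g (g : ℕ → ℝ) (hg : ∀ n, |g n| ≤ 1) (hF : SWF g) (j : ℕ) (hj : 1 ≤ j) (ε : ℝ)
    (hε : 0 < ε) (U : ℕ) :
    ∃ B H0 : ℕ, ∀ H : ℕ, H0 ≤ H → ∀ K : ℕ, (H : ℝ) ^ ε ≤ K → (K : ℝ) * Real.log H ^ B ≤ H →
    ∑ r ∈ bx j (fun _ => H), ∑ a ∈ Ioc 0 (0 + (2 * H + 1)), ∑ d ∈ Ioc 0 H,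
      gs g (FP j H r a d) K ^ 2 ≤
      ((bx j (fun _ => H)).card : ℝ) * ((2 * H + 1 : ℕ) : ℝ) * H * (K : ℝ) ^ 2 / Real.log H ^ U := by
  classical
  obtain ⟨B1, x1, hb⟩ := lamF j hj (ε / (j + 2)) (by positivity) (U + 3) (U + 3) (U + 2)
    (fun n => (g n : ℂ)) (fun n => by rw [Complex.norm_real, Real.norm_eq_abs]; exact hg n) hF
  set n := B1 with hn
  obtain ⟨H1, hpar⟩ := params j hj ε hε U n
  have hev : ∀ᶠ H : ℕ in atTop, H1 ≤ H ∧ x1 ≤ H ∧ 8 ≤ Real.log H ∧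
      Real.log H ^ (U + 2) ≤ (H:ℝ) ^ (1:ℝ) ∧ 1 ≤ H := by
    filter_upwards [eventually_ge_atTop H1, eventually_ge_atTop x1,
      evt_log_ge 8, evt_log_pow (U + 2) 1 (by norm_num), eventually_ge_atTop 1]
      with H h1 h2 h3 h4 h5
    exact ⟨h1, h2, h3, h4, h5⟩
  obtain ⟨H0, hH0⟩ := eventually_atTop.mp hev
  refine ⟨n + 1, H0, fun H hH K hK hKH => ?_⟩
  obtain ⟨hH1, hHx1, hL8, hLH, hHn⟩ := hH0 H hH
  rw [Real.rpow_one] at hLH
  set L := Real.log H with hLdef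
  have hL0 : 0 < L := by linarith
  have hL1 : 1 ≤ L := by linarith
  have hLp0 : ∀ n : ℕ, 0 < L ^ n := fun n => by positivity
  have hHr : (1:ℝ) ≤ H := by exact_mod_cast hHn
  have hH0' : (0:ℝ) < H := by linarith
  have hK0 : (0:ℝ) < K := lt_of_lt_of_le (Real.rpow_pos_of_pos hH0' _) hK
  set M := ⌈(H:ℝ) / L ^ (U + 2)⌉₊ with hM
  have hMge : (H:ℝ) / L ^ (U + 2) ≤ M := Nat.le_ceil _
  have hMle : (M:ℝ) ≤ 2 * (H / L ^ (U + 2)) := by
    have h1 : (M:ℝ) < H / L ^ (U + 2) + 1 := Nat.ceil_lt_add_one (by positivity)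
    have h2 : 1 ≤ (H:ℝ) / L ^ (U + 2) := by rw [le_div_iff₀ (hLp0 _), one_mul]; exact hLH
    linarith
  have hM1 : 1 ≤ M := by
    have h2 : 0 < (H:ℝ) / L ^ (U + 2) := by positivity
    exact Nat.one_le_iff_ne_zero.mpr (by
      intro h0
      rw [h0] at hMge
      simp only [Nat.cast_zero] at hMge
      linarith)
  obtain ⟨hHx, hLx, hpow, hLx2, hxK, hp⟩ := hpar H hH1 K M hK hKH hMge (4 * H * K ^ j) rfl
  set x := 4 * H * K ^ j with hx
  set bc : ℝ := ((bx j (fun _ => H)).card : ℝ) with hbc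
  have hbc0 : 0 ≤ bc := Nat.cast_nonneg _
  have hAc : ((Ioc 0 (0 + (2 * H + 1))).card : ℝ) = ((2 * H + 1 : ℕ) : ℝ) := by
    rw [Nat.card_Ioc]; simp
  have hmain := dyad_box j H M hM1 (bx j (fun _ => H)) (Ioc 0 (0 + (2 * H + 1)))
    (fun r a d => gs g (FP j H r a d) K ^ 2)
    (fun r a d => sq_nonneg _) ((K:ℝ) ^ 2) (bc * ((2 * H + 1 : ℕ) : ℝ) * (K:ℝ) ^ 2 / L ^ (U + 2))
    (by
      intro r _ a _ d _
      rw [← sq_abs]
      exact pow_le_pow_left₀ (abs_nonneg _) (gs_le g hg _ K) 2)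
    (by positivity)
    (by
      intro D hMD hDH
      obtain ⟨p1, p2, p3, p4, p5, p6⟩ := hp D hMD hDH B1 le_rfl
      have h1 := hb x (hHx1.trans hHx) K D (2 * H + 1) (2 * H + 1) 0 0 (-(H:ℤ) - 1)
          (fun _ => H) 1 p1 p2 hxK p3 le_rfl (fun _ => le_rfl) p4 p5
          (by
            intro k _
            simp only [eval_zero, Int.cast_zero, abs_zero]
            have : 0 < Real.log x := by linarith
            positivity) p6
      simp only [gs_norm, sq_abs] at h1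
      refine h1.trans ?_
      have h2 : (0:ℝ) < Real.log x := by linarith
      calc bc * (((2 * H + 1 : ℕ) : ℝ) * D * (K:ℝ) ^ 2 / Real.log x ^ (U + 2))
          ≤ bc * (((2 * H + 1 : ℕ) : ℝ) * D * (K:ℝ) ^ 2 / L ^ (U + 2)) := by gcongr
        _ = _ := by ring)
  refine hmain.trans ?_
  rw [hAc]
  set AH : ℝ := ((2 * H + 1 : ℕ) : ℝ) with hAH
  have hAH0 : 0 ≤ AH := Nat.cast_nonneg _
  calc bc * AH * M * (K:ℝ) ^ 2 + 2 * (bc * AH * (K:ℝ) ^ 2 / L ^ (U + 2)) * H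
      ≤ bc * AH * (2 * (H / L ^ (U + 2))) * (K:ℝ) ^ 2 +
        2 * (bc * AH * (K:ℝ) ^ 2 / L ^ (U + 2)) * H := by
        gcongr
    _ = (bc * AH * H * (K:ℝ) ^ 2 / L ^ U) * (4 / L ^ 2) := by
        rw [pow_add]
        field_simp
        ring
    _ ≤ (bc * AH * H * (K:ℝ) ^ 2 / L ^ U) * 1 := by
        apply mul_le_mul_of_nonneg_left _ (by positivity)
        rw [div_le_one (by positivity)]
        nlinarith
    _ = _ := mul_one _

theorem full_g (g : ℕ → ℝ) (hg : ∀ n, |g n| ≤ 1) (hF : SWF g) (j : ℕ) (hj : 1 ≤ j) (ε : ℝ)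
    (hε : 0 < ε) (U : ℕ) :
    ∃ B H0 : ℕ, ∀ H : ℕ, H0 ≤ H → ∃ T : Finset ℤ[X],
    (T.card : ℝ) ≤ (H : ℝ) ^ (j + 1) / Real.log H ^ U ∧
    ∀ F : ℤ[X], F.natDegree = j → (∀ i, |F.coeff i| ≤ H) → F ∉ T →
    ∀ K : ℕ, (H : ℝ) ^ ε ≤ K → (K : ℝ) * Real.log H ^ B ≤ H →
    |∑ k ∈ Icc 1 K, g (F.eval (k : ℤ)).natAbs| ≤ K / Real.log H ^ U := by
  classical
  obtain ⟨U', h0, hgrid⟩ := grid (U + 1)
  obtain ⟨B, H1, hmean⟩ := mean_g g hg hF j hj ε hε (2 * U')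
  have hev : ∀ᶠ H : ℕ in atTop, H1 ≤ H ∧
      max h0 (2 * 3 ^ j + 1) ≤ Real.log H ∧
      Real.log H ^ U' ≤ (H : ℝ) ^ ε ∧ 1 ≤ H := by
    filter_upwards [eventually_ge_atTop H1,
      evt_log_ge (max h0 (2 * 3 ^ j + 1)), evt_log_pow U' ε hε, eventually_ge_atTop 1]
      with H h1 h2 h3 h4
    exact ⟨h1, h2, h3, h4⟩
  obtain ⟨H0, hH0⟩ := eventually_atTop.mp hev
  refine ⟨B, H0, fun H hH => ?_⟩
  obtain ⟨hH1, hL, hLε, hHn⟩ := hH0 H hH
  set L := Real.log H with hLdef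
  have hLh0 : h0 ≤ L := (le_max_left _ _).trans hL
  have hL3 : 2 * 3 ^ j + 1 ≤ L := (le_max_right _ _).trans hL
  have h3j : (0:ℝ) < 3 ^ j := by positivity
  have hL1 : 1 ≤ L := by linarith
  have hL0 : 0 < L := by linarith
  have hLp0 : ∀ n : ℕ, 0 < L ^ n := fun n => by positivity
  have hLp : ∀ n : ℕ, 1 ≤ L ^ n := fun n => one_le_pow₀ hL1
  have hLmono : ∀ m n : ℕ, m ≤ n → L ^ m ≤ L ^ n := fun m n h => pow_le_pow_right₀ hL1 h
  have hHr : (1:ℝ) ≤ H := by exact_mod_cast hHn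
  have hH0' : (0:ℝ) < H := by linarith
  set A := Ioc 0 (0 + (2 * H + 1)) with hA
  set S := (bx j (fun _ => H)) ×ˢ (A ×ˢ Ioc 0 H) with hS
  set P : ((Fin (j - 1) → ℤ) × ℕ × ℕ) → ℕ → ℝ := fun s K => gs g (FP j H s.1 s.2.1 s.2.2) K with hP
  set N : ((Fin (j - 1) → ℤ) × ℕ × ℕ) → ℕ → ℝ := fun s K => 0 with hN
  set bc : ℝ := ((bx j (fun _ => H)).card : ℝ) with hbc
  have hbc0 : 0 ≤ bc := Nat.cast_nonneg _
  have hAc : (A.card : ℝ) = ((2 * H + 1 : ℕ) : ℝ) := by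
    rw [hA, Nat.card_Ioc]; simp
  have hSc : (S.card : ℝ) = bc * ((2 * H + 1 : ℕ) : ℝ) * H := by
    rw [hS, card_product, card_product]
    push_cast
    rw [hAc, Nat.card_Ioc, Nat.sub_zero]
    push_cast
    ring
  obtain ⟨T1, hT1S, hT1c, hT1⟩ := hgrid L hLh0 S P N ⌈(H:ℝ) ^ ε⌉₊ ⌊(H:ℝ) / L ^ B⌋₊
    (hLε.trans (Nat.le_ceil _))
    (by
      rw [hLdef, Real.exp_log hH0']
      refine (Nat.floor_le (by positivity)).trans ?_
      exact div_le_self hH0'.le (hLp _))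
    (fun s _ K => gs_step g hg _ K)
    (fun s _ K => by
      rw [hN]
      simp only [sub_self, abs_zero]
      positivity)
    (by
      intro K hK1 hK2
      have h1 : (H:ℝ) ^ ε ≤ K := (Nat.le_ceil _).trans (by exact_mod_cast hK1)
      have h2 : (K:ℝ) ≤ H / L ^ B := by
        have h3 : (K:ℝ) ≤ (⌊(H:ℝ) / L ^ B⌋₊ : ℝ) := by exact_mod_cast hK2
        exact h3.trans (Nat.floor_le (by positivity))
      have h3 : (K:ℝ) * L ^ B ≤ H := by
        rwa [le_div_iff₀ (hLp0 _)] at h2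
      have h4 := hmean H hH1 K h1 h3
      have h5 : ∑ s ∈ S, |P s K| ^ 2 ≤ S.card * (K:ℝ) ^ 2 / L ^ (2 * U') := by
        rw [hSc, hS, sum_product]
        refine le_trans (le_of_eq ?_) h4
        refine sum_congr rfl fun r _ => ?_
        rw [sum_product]
        simp only [hP, sq_abs]
        rfl
      have h6 := sq_sum_le_card_mul_sum_sq (s := S) (f := fun s => |P s K|)
      simp only [hN, sub_zero]
      apply le_of_sq_le_sq _ (by positivity)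
      refine h6.trans ?_
      calc (S.card : ℝ) * ∑ s ∈ S, |P s K| ^ 2 ≤ S.card * (S.card * (K:ℝ) ^ 2 / L ^ (2 * U')) := by
            gcongr
        _ = (S.card * K / L ^ U') ^ 2 := by
            rw [div_pow, ← pow_mul, mul_comm 2 U']
            ring)
  set T0 := T1.image (fun s => FP j H s.1 s.2.1 s.2.2) with hT0
  refine ⟨T0 ∪ T0.image (fun F => -F), ?_, ?_⟩
  · have h0 : (T0.card : ℝ) ≤ T1.card := by exact_mod_cast card_image_le
    have h1 : ((T0 ∪ T0.image (fun F => -F)).card : ℝ) ≤ 2 * T0.card := by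
      have h2 := card_union_le T0 (T0.image (fun F => -F))
      have h3 : (T0.image (fun F : ℤ[X] => -F)).card ≤ T0.card := card_image_le
      have h4 : (T0 ∪ T0.image (fun F => -F)).card ≤ 2 * T0.card := by omega
      exact_mod_cast h4
    have hcb := card_bx_le j hj H hHn
    calc ((T0 ∪ T0.image (fun F => -F)).card : ℝ) ≤ 2 * T0.card := h1
      _ ≤ 2 * (bc * ((2 * H + 1 : ℕ) : ℝ) * H / L ^ (U + 1)) := by
          rw [hSc] at hT1c
          linarith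
      _ ≤ 2 * ((3 ^ j * (H:ℝ) ^ j) * H / L ^ (U + 1)) := by gcongr
      _ = ((H:ℝ) ^ (j + 1) / L ^ U) * (2 * 3 ^ j / L) := by
          rw [pow_succ L U]
          field_simp
          ring
      _ ≤ ((H:ℝ) ^ (j + 1) / L ^ U) * 1 := by
          gcongr
          rw [div_le_one hL0]
          linarith
      _ = _ := mul_one _
  · -- positive leading coefficient
    have hpos : ∀ F : ℤ[X], F.natDegree = j → 0 < F.leadingCoeff → (∀ i, |F.coeff i| ≤ H) →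
        F ∉ T0 → ∀ K : ℕ, (H : ℝ) ^ ε ≤ K → (K : ℝ) * L ^ B ≤ H →
        |∑ k ∈ Icc 1 K, g (F.eval (k : ℤ)).natAbs| ≤ K / L ^ U := by
      intro F hFd hFl hFc hFT K hK hKB
      obtain ⟨r, hr, a, ha, d, hd, hF⟩ := FP_surj j H hj F hFd hFl hFc
      have hF' : FP j H r a d = F := hF
      have hs : (r, a, d) ∈ S := by
        rw [hS, mem_product, mem_product]
        exact ⟨hr, ha, hd⟩
      have hnT : (r, a, d) ∉ T1 := by
        intro hmem
        apply hFT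
        rw [hT0, mem_image]
        exact ⟨(r, a, d), hmem, hF'⟩
      have hK0 : (0:ℝ) < K := lt_of_lt_of_le (Real.rpow_pos_of_pos hH0' _) hK
      have habs := hT1 (r, a, d) hs hnT K (Nat.ceil_le.mpr hK) (by
        apply Nat.le_floor
        rw [le_div_iff₀ (hLp0 _)]
        exact hKB)
      simp only [hP, hN, sub_zero] at habs
      rw [hF'] at habs
      refine habs.trans ?_
      apply div_le_div_of_nonneg_left hK0.le (hLp0 _) (hLmono _ _ (by omega))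
    intro F hFd hFc hFT K hK hKB
    rw [mem_union, not_or] at hFT
    have hF0 : F ≠ 0 := by
      intro h
      rw [h, natDegree_zero] at hFd
      omega
    rcases lt_or_gt_of_ne (leadingCoeff_ne_zero.mpr hF0) with hneg | hposl
    · have h1 := hpos (-F) (by rw [natDegree_neg]; exact hFd) (by rw [leadingCoeff_neg]; linarith)
        (fun i => by rw [coeff_neg, abs_neg]; exact hFc i)
        (fun hmem => hFT.2 (by
          rw [mem_image]
          exact ⟨-F, hmem, neg_neg F⟩)) K hK hKB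
      simp only [eval_neg, Int.natAbs_neg] at h1
      exact h1
    · exact hpos F hFd hposl hFc hFT.1 K hK hKB

/-- the Liouville function with `λ(0) = 0` -/
noncomputable def lam0 (n : ℕ) : ℝ :=
  if n = 0 then 0 else (-1 : ℝ) ^ (ArithmeticFunction.cardFactors n)

lemma lam0_le (n : ℕ) : |lam0 n| ≤ 1 := by
  unfold lam0
  split_ifs
  · simp
  · simp

lemma lam0_swf : SWF lam0 := by
  intro E1 E3
  obtain ⟨x0, h⟩ := Pool.Agent.H534R2.BH.lam_fourier E1 E3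
  refine ⟨x0, fun x hx q hq hqL b β hβ => ?_⟩
  refine le_trans (le_of_eq ?_) (h x hx q hq hqL b β hβ)
  congr 1
  refine sum_congr rfl fun n hn => ?_
  rw [mem_Icc] at hn
  unfold lam0
  rw [if_neg (by omega)]
  push_cast
  rfl

end Pool.Agent.H300R2.FB
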