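import Pool.Agent.H300R2.FB.Defs

/-!
Blueprint (statements only, `sorry`).  Never import this file in a hand-in.
-/

namespace Pool.Agent.H300R2.FB.Stubs

open Finset Polynomial
open Pool.Agent.H469R2.NK (e)
open Pool.Agent.H442R2.EHI
open Pool.Agent.H300R2.BH
open Pool.Agent.H300R2.FB

open Classical in
/-- F1. Large sieve in several variables. -/
theorem ls_multi {ι β : Type*} [Fintype ι] [DecidableEq ι] (N : ℕ) (hN : 1 ≤ N) (M : ι → ℕ)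
    (hM : ∀ i, 1 ≤ M i ∧ 8 * M i ≤ N) (I : Finset β) (u : β → ι → ℤ) (z : β → ℂ) :
    ∑ x ∈ Fintype.piFinset (fun i => range (M i)),
      ‖∑ b ∈ I, z b * e ((∑ i, (u b i : ℝ) * (x i : ℝ)) / N)‖ ^ 2 ≤
    (∏ i, (10 * (M i : ℝ))) * ∑ b ∈ I, ∑ b' ∈ I,
      (if ∀ i, nint (((u b i - u b' i : ℤ) : ℝ) / N) ≤ 1 / (2 * (M i : ℝ)) then ‖z b‖ * ‖z b'‖
        else 0) := by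
  sorry

open Classical in
/-- F2. Inverse theorem. -/
theorem inv_full (j : ℕ) (hj : 1 ≤ j) (U E2 E6 : ℕ) : ∃ (E : ℕ) (L0 : ℝ), ∀ L : ℝ, L0 ≤ L →
    ∀ K K1 A D : ℕ, L ^ E ≤ K → K1 ≤ K → (K : ℝ) ≤ K1 * L ^ E2 → (K : ℝ) * L ^ E ≤ A →
    (A : ℝ) ≤ D * L ^ E6 → ∀ α : ℝ,
    (K : ℝ) ^ 2 / L ^ U < (((Ioc K1 K ×ˢ Ioc K1 K).filter (fun kk : ℕ × ℕ =>
      ∃ β : ℝ, (∀ l < j, nint (α * (kk.1 : ℝ) ^ l - β * (kk.2 : ℝ) ^ l) ≤ 1 / (2 * (A : ℝ))) ∧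
        nint (α * (kk.1 : ℝ) ^ j - β * (kk.2 : ℝ) ^ j) ≤ 1 / (2 * (D : ℝ)))).card : ℝ) →
    ∃ q : ℕ, 1 ≤ q ∧ (q : ℝ) ≤ L ^ E ∧ ∃ b : ℤ,
      |α - (b : ℝ) / (q : ℝ)| ≤ L ^ E / ((A : ℝ) * (K : ℝ) ^ (j - 1)) := by
  sorry

open Classical in
/-- F3. Number of second frequencies. -/
theorem fibre_full (j : ℕ) (hj : 1 ≤ j) (N A D K K1 k' : ℕ) (hN : 1 ≤ N) (hD : 1 ≤ D)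
    (hK1 : 1 ≤ K1) (hk1 : K1 ≤ k') (hk2 : k' ≤ K) (hKA : 4 * K ≤ A) (w : ℕ → ℝ) :
    (((range N).filter (fun h : ℕ =>
      (∀ l < j, nint (w l - (k' : ℝ) ^ l * h / N) ≤ 1 / (2 * (A : ℝ))) ∧
        nint (w j - (k' : ℝ) ^ j * h / N) ≤ 1 / (2 * (D : ℝ)))).card : ℝ) ≤
      4 * N / (D * (K1 : ℝ) ^ j) + 1 := by
  sorry

/-- F4. General van der Corput estimate. -/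
theorem vdc_gen (M : ℕ) (c0 C0 : ℝ) (hc0 : 0 < c0) : ∃ η : ℝ, 0 < η ∧ η ≤ 1 ∧ ∃ C : ℝ, 0 < C ∧
    ∀ (J L : ℕ) (u ξ : ℝ) (φ : ℕ → ℝ → ℝ), 1 ≤ J → (J : ℝ) ≤ u → L ≤ J → u + L ≤ 3 * J →
    (∀ m ≤ M + 4, ∀ t ∈ Set.Icc (J : ℝ) (3 * J), HasDerivAt (φ m) (φ (m + 1) t) t) →
    (∀ m, 1 ≤ m → m ≤ M + 4 → ∀ t ∈ Set.Icc (J : ℝ) (3 * J),
      c0 ≤ (-1) ^ (m + 1) * φ m t * (J : ℝ) ^ m ∧ (-1) ^ (m + 1) * φ m t * (J : ℝ) ^ m ≤ C0) →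
    1 ≤ |ξ| → |ξ| ≤ (J : ℝ) ^ M →
    ‖∑ n ∈ range L, e (ξ * φ 0 (u + n))‖ ≤ C * ((J : ℝ) ^ (1 - η) + J / |ξ|) := by
  sorry

/-- F5. Derivatives of the logarithm of a perturbed monomial. -/
theorem log_chain (j : ℕ) (hj : 1 ≤ j) (M : ℕ) : ∃ κ : ℝ, 0 < κ ∧ ∃ c0 C0 : ℝ, 0 < c0 ∧
    ∀ (J : ℕ) (b : Fin (j - 1) → ℝ), 1 ≤ J →
    (∀ i, |b i| ≤ κ * (J : ℝ) ^ (j - 1 - (i : ℕ))) → ∃ φ : ℕ → ℝ → ℝ,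
    (∀ t ∈ Set.Icc (J : ℝ) (3 * J), φ 0 t = Real.log (pw j b t)) ∧
    (∀ m ≤ M, ∀ t ∈ Set.Icc (J : ℝ) (3 * J), HasDerivAt (φ m) (φ (m + 1) t) t) ∧
    (∀ m, 1 ≤ m → m ≤ M → ∀ t ∈ Set.Icc (J : ℝ) (3 * J),
      c0 ≤ (-1) ^ (m + 1) * φ m t * (J : ℝ) ^ m ∧ (-1) ^ (m + 1) * φ m t * (J : ℝ) ^ m ≤ C0) := by
  sorry

/-- F6. Dirichlet polynomial over the values of a perturbed monomial. -/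
theorem ksumQ (hv : VdcPoly) (j : ℕ) (hj : 1 ≤ j) (ε : ℝ) (hε : 0 < ε) (E1 E2 U : ℕ) :
    ∃ (E4 x0 : ℕ), ∀ x : ℕ, x0 ≤ x →
    ∀ K K1 q r : ℕ, (x : ℝ) ^ ε ≤ K → K ≤ x → K1 ≤ K → (K : ℝ) ≤ K1 * Real.log x ^ E2 → 1 ≤ q →
    (q : ℝ) ≤ Real.log x ^ E1 → ∀ b : Fin (j - 1) → ℝ,
    (∀ i, |b i| * Real.log x ≤ (K1 : ℝ) ^ (j - 1 - (i : ℕ))) →
    ∀ ξ : ℝ, Real.log x ^ E4 ≤ |ξ| → |ξ| ≤ (x : ℝ) ^ 2 →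
    ‖∑ k ∈ (Ioc K1 K).filter (fun k => k % q = r),
      (((pw j b k) ^ (-(1 / 2) : ℝ) : ℝ) : ℂ) * e (ξ * Real.log (pw j b k))‖ ^ 2 ≤
      ((K : ℝ) ^ 2 / (K : ℝ) ^ j) / Real.log x ^ U := by
  sorry

/-- F7. Major arcs mean value with real arguments. -/
theorem major_genQ (E0 E2 E4 E5 U : ℕ) : ∃ (E3 x0 : ℕ), ∀ x : ℕ, x0 ≤ x →
    ∀ (N D G G1 K : ℕ) (δ θ : ℝ) (S : Finset ℤ) (c : ℤ → ℂ) (T : Finset ℕ) (p : ℕ → ℝ),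
    8 * x ≤ N → N ≤ 100 * x → 1 ≤ D → D * G ≤ x → (x : ℝ) ≤ D * G * Real.log x ^ E0 →
    1 ≤ G1 → G1 ≤ G → (G : ℝ) ≤ G1 * Real.log x ^ E2 → 0 ≤ δ → δ ≤ 1 →
    δ * G ≤ Real.log x ^ E5 → (∀ h ∈ S, |((h : ℝ) + θ) / N| ≤ δ) →
    (N : ℝ) * ∑ h ∈ S, ‖c h‖ ^ 2 ≤ x * Real.log x ^ 2 →
    (∀ h ∈ S, |((h : ℝ) + θ) / N| ≤ Real.log x ^ E3 / x →
      (N : ℝ) * ‖c h‖ ≤ x / Real.log x ^ (2 * E3)) →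
    (∀ k ∈ T, (G1 : ℝ) ≤ p k ∧ p k ≤ G) → T.card ≤ K →
    (∀ ξ : ℝ, Real.log x ^ E4 ≤ |ξ| → |ξ| ≤ (x : ℝ) ^ 2 →
      ‖∑ k ∈ T, (((p k) ^ (-(1 / 2) : ℝ) : ℝ) : ℂ) * e (ξ * Real.log (p k))‖ ^ 2 ≤
        ((K : ℝ) ^ 2 / G) / Real.log x ^ (2 * U + 2 * E5 + 10)) →
    ∑ d ∈ Ioc D (2 * D), ‖∑ k ∈ T, poly N θ S c ((d : ℝ) * p k)‖ ^ 2 ≤
      x * ((K : ℝ) ^ 2 / G) / Real.log x ^ U := by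
  sorry

/-- F8. Perturbation depending on `d`. -/
theorem pertQ (N D G G1 K : ℕ) (hN : 1 ≤ N) (T : Finset ℕ) (g t : ℕ → ℝ) (s : ℕ → ℕ → ℝ)
    (s1 δ θ : ℝ) (S : Finset ℤ) (c : ℤ → ℂ) (W : ℝ) (hD : 1 ≤ D) (hG1 : 1 ≤ G1)
    (hg : ∀ k ∈ T, (G1 : ℝ) ≤ g k ∧ g k ≤ G) (hs1 : 0 ≤ s1)
    (hs : ∀ k ∈ T, ∀ d ∈ Ioc D (2 * D), |s k d| ≤ s1) (hDG : (D : ℝ) * G + 2 * s1 ≤ N)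
    (hδ0 : 0 ≤ δ) (hδ : ∀ h ∈ S, |((h : ℝ) + θ) / N| ≤ δ)
    (hW : (N : ℝ) * ∑ h ∈ S, ‖c h‖ ^ 2 ≤ W) (hT : T.card ≤ K) :
    ∑ d ∈ Ioc D (2 * D), ‖∑ k ∈ T, (poly N θ S c ((d : ℝ) * g k + t k + s k d) -
      poly N θ S c ((d : ℝ) * g k + t k))‖ ^ 2 ≤
      (K : ℝ) ^ 2 * (s1 * (2 * s1 / G1 + 2) * (40 * δ ^ 2 * W)) := by
  sorry

/-- F9. Rounding to rays. -/
theorem round_box (j : ℕ) (D K : ℕ) (hD : 1 ≤ D) (hK : 1 ≤ K) (H : Fin (j - 1) → ℕ)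
    (T : Finset ℕ) (hT : T ⊆ Icc 1 K) (Ψ : ℝ → ℂ) (sg : ℕ → ℝ) (s1 Err : ℝ)
    (hsg : ∀ k ∈ T, |sg k| ≤ s1) (hs1 : 2 * (j : ℝ) * (K : ℝ) ^ (j - 1) ≤ s1)
    (hErr : ∀ r ∈ bx j H, ∀ s : ℕ → ℕ → ℝ, (∀ k ∈ T, ∀ d ∈ Ioc D (2 * D), |s k d| ≤ s1) →
      ∑ d ∈ Ioc D (2 * D), ‖∑ k ∈ T, (Ψ ((d : ℝ) * (k : ℝ) ^ j + tR j (fun i => (r i : ℝ)) k + s k d)
        - Ψ ((d : ℝ) * (k : ℝ) ^ j + tR j (fun i => (r i : ℝ)) k))‖ ^ 2 ≤ Err) :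
    ∑ r ∈ bx j H, ∑ d ∈ Ioc D (2 * D),
      ‖∑ k ∈ T, Ψ ((d : ℝ) * (k : ℝ) ^ j + tR j (fun i => (r i : ℝ)) k + sg k)‖ ^ 2 ≤
    3 * 2 ^ (j - 1) * ∑ r ∈ bx j H, ∑ d ∈ Ioc D (2 * D),
      ‖∑ k ∈ T, Ψ ((d : ℝ) * pw j (fun i => (r i : ℝ) / D) k)‖ ^ 2 +
    6 * ((bx j H).card : ℝ) * Err := by
  sorry

end Pool.Agent.H300R2.FB.Stubs
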