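import Pool.Agent.H300R2.FB.BHF
import Pool.Agent.H300R2.BH.Sing
import Pool.Agent.Helper256.KM.Mertens

/-!
Statements to be proved (never import this file).
-/

namespace Pool.Agent.H300R2.FB

open Finset Polynomial Filter
open Pool.Agent.H469R2.NK (e)
open Pool.Agent.H300R2.BH

/-- G1: mean square of a bounded Siegel-Walfisz function over a full box of polynomials -/
theorem lamF (j : ℕ) (hj : 1 ≤ j) (ε : ℝ) (hε : 0 < ε) (E0 E6 U : ℕ) (g : ℕ → ℂ)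
    (hg : ∀ n, ‖g n‖ ≤ 1)
    (hF : ∀ E1 E3 : ℕ, ∃ x0 : ℕ, ∀ x : ℕ, x0 ≤ x → ∀ q : ℕ, 1 ≤ q → (q : ℝ) ≤ Real.log x ^ E1 →
      ∀ b : ℤ, ∀ β : ℝ, |β - (b : ℝ) / (q : ℝ)| ≤ Real.log x ^ E3 / x →
      ‖∑ n ∈ Icc 1 x, g n * e (n * β)‖ ≤ x / Real.log x ^ (2 * E3)) :
    ∃ B x0 : ℕ, ∀ x : ℕ, x0 ≤ x → ∀ (K D A A1 a0 : ℕ) (R : ℤ[X]) (m0 : ℤ)
    (H : Fin (j - 1) → ℕ) (σ : ℤ), BoxF j K D A a0 m0 σ x (Real.log x ^ B) →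
    (x : ℝ) ≤ D * (K : ℝ) ^ j * Real.log x ^ E0 → (x : ℝ) ^ ε ≤ K →
    (K : ℝ) * Real.log x ^ B ≤ A1 → A1 ≤ A → (∀ i, A1 ≤ 2 * H i + 1) →
    (A1 : ℝ) ≤ D * Real.log x ^ E6 → A ≤ x →
    (∀ k ∈ Icc 1 K, |((R.eval (k : ℤ) : ℤ) : ℝ)| ≤ (K : ℝ) ^ j / Real.log x ^ B) →
    (∀ i, (H i : ℝ) * Real.log x ^ B ≤ D * (K : ℝ) ^ (j - 1 - (i : ℕ))) →
    ∑ r ∈ bx j H, ∑ a ∈ Ioc a0 (a0 + A), ∑ d ∈ Ioc D (2 * D),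
      ‖∑ k ∈ Icc 1 K, g ((FF (C m0 + R + Rr j r) j σ a d).eval (k : ℤ)).natAbs‖ ^ 2 ≤
      ((bx j H).card : ℝ) * (A * D * (K : ℝ) ^ 2 / Real.log x ^ U) := by
  sorry

/-- G2: from a mean bound for each `K` to a bound uniform in `K` -/
theorem grid (U : ℕ) : ∃ U' : ℕ, ∃ h0 : ℝ, ∀ L : ℝ, h0 ≤ L → ∀ {ι : Type} (S : Finset ι)
    (P M : ι → ℕ → ℝ) (K0 K2 : ℕ), L ^ U' ≤ K0 → (K2 : ℝ) ≤ Real.exp L →
    (∀ s ∈ S, ∀ K, |P s (K + 1) - P s K| ≤ 1) →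
    (∀ s ∈ S, ∀ K, |M s (K + 1) - M s K| ≤ L ^ 2) →
    (∀ K, K0 ≤ K → K ≤ K2 → ∑ s ∈ S, |P s K - M s K| ≤ S.card * K / L ^ U') →
    ∃ T ⊆ S, (T.card : ℝ) ≤ S.card / L ^ U ∧ ∀ s ∈ S, s ∉ T → ∀ K, K0 ≤ K → K ≤ K2 →
      |P s K - M s K| ≤ K / L ^ U := by
  sorry

/-- G3: upper bound for the truncated Euler product -/
theorem SS_upper : ∃ C : ℝ, ∀ z : ℕ, 3 ≤ z → ∀ F : ℤ[X], 0 ≤ SS z F ∧ SS z F ≤ C * Real.log z := by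
  sorry

/-- G4: every polynomial of degree `j`, height at most `H` and positive leading coefficient is in
the box -/
theorem FP_surj (j H : ℕ) (hj : 1 ≤ j) (F : ℤ[X]) (hd : F.natDegree = j)
    (hl : 0 < F.leadingCoeff) (hH : ∀ i, |F.coeff i| ≤ H) :
    ∃ r ∈ bx j (fun _ => H), ∃ a ∈ Ioc 0 (0 + (2 * H + 1)), ∃ d ∈ Ioc 0 H,
      FF (C (-(H : ℤ) - 1) + 0 + Rr j r) j 1 a d = F := by
  sorry

/-- G5: local factors of quadratic polynomials -/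
theorem quad_odd (a b c : ℤ) (p : ℕ) [Fact p.Prime] (hp : p ≠ 2) :
    (1 - (rho (C a * X ^ 2 + C b * X + C c) p : ℝ) / p) / (1 - 1 / (p : ℝ)) =
    if (p : ℤ) ∣ a then (if (p : ℤ) ∣ b then (if (p : ℤ) ∣ c then 0 else (p : ℝ) / (p - 1)) else 1)
    else 1 - (legendreSym p (b ^ 2 - 4 * a * c) : ℝ) / (p - 1) := by
  sorry

/-- G5: local factor of quadratic polynomials at `2` -/
theorem quad_two (a b c : ℤ) :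
    (1 - (rho (C a * X ^ 2 + C b * X + C c) 2 : ℝ) / (2 : ℕ)) / (1 - 1 / ((2 : ℕ) : ℝ)) =
    if (2 : ℤ) ∣ a + b then (if (2 : ℤ) ∣ c then 0 else 2) else 1 := by
  sorry

end Pool.Agent.H300R2.FB
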