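import Pool.Agent.H300R2.BH.Pub
import Pool.Agent.H300R2.FB.Full2

/-!
Absolute values: `|F(n)|` prime, for polynomials with leading coefficient of either sign.
-/

namespace Pool.Agent.H300R2.FB

open Finset Polynomial Filter
open Pool.Agent.H442R2.EHI (evt_log_pow evt_log_ge)
open Pool.Agent.H300R2.BH

/-- the number of `k ∈ [1, K]` with `|F(k)|` prime -/
noncomputable def pa (F : ℤ[X]) (K : ℕ) : ℝ :=
  (((Icc 1 K).filter (fun k : ℕ => (F.eval (k : ℤ)).natAbs.Prime)).card : ℝ)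

/-- `∑ 1 / log |F(k)|` over `k ∈ [1, K]` with `|F(k)| ≥ 2` -/
noncomputable def la (F : ℤ[X]) (K : ℕ) : ℝ :=
  ∑ k ∈ (Icc 1 K).filter (fun k : ℕ => 2 ≤ |F.eval (k : ℤ)|),
    1 / Real.log |((F.eval (k : ℤ) : ℤ) : ℝ)|

lemma la_term (F : ℤ[X]) (k : ℕ) (hk : 2 ≤ |F.eval (k : ℤ)|) :
    0 ≤ 1 / Real.log |((F.eval (k : ℤ) : ℤ) : ℝ)| ∧ 1 / Real.log |((F.eval (k : ℤ) : ℤ) : ℝ)| ≤ 2 := by
  have h1 : (2:ℝ) ≤ |((F.eval (k : ℤ) : ℤ) : ℝ)| := by exact_mod_cast hk
  have h2 : Real.log 2 ≤ Real.log |((F.eval (k : ℤ) : ℤ) : ℝ)| := Real.log_le_log (by norm_num) h1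
  have h3 := Real.log_two_gt_d9
  constructor
  · exact div_nonneg zero_le_one (Real.log_nonneg (by linarith))
  · rw [div_le_iff₀ (by linarith)]
    linarith

/-- comparison of the two counting functions -/
lemma abs_conv (F : ℤ[X]) (K K1 : ℕ) (h : ∀ k : ℕ, K1 < k → k ≤ K → 0 ≤ F.eval (k : ℤ)) :
    |pa F K - pv F K| ≤ K1 ∧ 0 ≤ la F K - lF F K ∧ la F K - lF F K ≤ 2 * K1 := by
  classical
  have hpv : pv F K = ∑ k ∈ Icc 1 K, if (F.eval (k : ℤ)).toNat.Prime then (1:ℝ) else 0 := by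
    unfold pv
    rw [card_filter]
    push_cast
    rfl
  have hpa : pa F K = ∑ k ∈ Icc 1 K, if (F.eval (k : ℤ)).natAbs.Prime then (1:ℝ) else 0 := by
    unfold pa
    rw [card_filter]
    push_cast
    rfl
  have hlF : lF F K = ∑ k ∈ Icc 1 K, if 2 ≤ F.eval (k : ℤ) then
      1 / Real.log ((F.eval (k : ℤ) : ℤ) : ℝ) else 0 := by
    unfold lF
    rw [sum_filter]
  have hla : la F K = ∑ k ∈ Icc 1 K, if 2 ≤ |F.eval (k : ℤ)| then
      1 / Real.log |((F.eval (k : ℤ) : ℤ) : ℝ)| else 0 := by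
    unfold la
    rw [sum_filter]
  have hsmall : ((Icc 1 K).filter (fun k => k ≤ K1)).card ≤ K1 := by
    calc ((Icc 1 K).filter (fun k => k ≤ K1)).card ≤ (Icc 1 K1).card := by
          apply card_le_card
          intro k hk
          rw [mem_filter, mem_Icc] at hk
          rw [mem_Icc]
          exact ⟨hk.1.1, hk.2⟩
      _ = K1 := by simp
  have hsm : (((Icc 1 K).filter (fun k => k ≤ K1)).card : ℝ) ≤ K1 := by exact_mod_cast hsmall
  refine ⟨?_, ?_, ?_⟩
  · rw [hpa, hpv, ← sum_sub_distrib]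
    calc _ ≤ ∑ k ∈ Icc 1 K, |(if (F.eval (k : ℤ)).natAbs.Prime then (1:ℝ) else 0) -
          (if (F.eval (k : ℤ)).toNat.Prime then (1:ℝ) else 0)| := abs_sum_le_sum_abs _ _
      _ ≤ ∑ k ∈ Icc 1 K, (if k ≤ K1 then (1:ℝ) else 0) := by
          refine sum_le_sum fun k hk => ?_
          rw [mem_Icc] at hk
          by_cases hk1 : k ≤ K1
          · rw [if_pos hk1]
            split_ifs <;> norm_num
          · rw [if_neg hk1]
            have h1 := h k (by omega) hk.2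
            have h2 : (F.eval (k : ℤ)).natAbs = (F.eval (k : ℤ)).toNat := by omega
            rw [h2, sub_self, abs_zero]
      _ = (((Icc 1 K).filter (fun k => k ≤ K1)).card : ℝ) := by
          rw [← sum_filter, sum_const, nsmul_eq_mul, mul_one]
      _ ≤ K1 := hsm
  · rw [hla, hlF, ← sum_sub_distrib]
    refine sum_nonneg fun k _ => ?_
    by_cases h2 : 2 ≤ F.eval (k : ℤ)
    · have h3 : |F.eval (k : ℤ)| = F.eval (k : ℤ) := abs_of_nonneg (by omega)
      have h4 : |((F.eval (k : ℤ) : ℤ) : ℝ)| = ((F.eval (k : ℤ) : ℤ) : ℝ) := by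
        rw [← Int.cast_abs, h3]
      rw [if_pos h2, h3, if_pos h2, h4, sub_self]
    · rw [if_neg h2, sub_zero]
      split_ifs with h3
      · exact (la_term F k h3).1
      · exact le_rfl
  · rw [hla, hlF, ← sum_sub_distrib]
    calc _ ≤ ∑ k ∈ Icc 1 K, (if k ≤ K1 then (2:ℝ) else 0) := by
          refine sum_le_sum fun k hk => ?_
          rw [mem_Icc] at hk
          by_cases h2 : 2 ≤ F.eval (k : ℤ)
          · have h3 : |F.eval (k : ℤ)| = F.eval (k : ℤ) := abs_of_nonneg (by omega)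
            have h4 : |((F.eval (k : ℤ) : ℤ) : ℝ)| = ((F.eval (k : ℤ) : ℤ) : ℝ) := by
              rw [← Int.cast_abs, h3]
            rw [if_pos h2, h3, if_pos h2, h4, sub_self]
            split_ifs <;> norm_num
          · rw [if_neg h2, sub_zero]
            by_cases hk1 : k ≤ K1
            · rw [if_pos hk1]
              split_ifs with h3
              · exact (la_term F k h3).2
              · norm_num
            · rw [if_neg hk1]
              have h1 := h k (by omega) hk.2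
              have h3 : |F.eval (k : ℤ)| = F.eval (k : ℤ) := abs_of_nonneg h1
              rw [h3, if_neg h2]
      _ = 2 * (((Icc 1 K).filter (fun k => k ≤ K1)).card : ℝ) := by
          rw [← sum_filter, sum_const, nsmul_eq_mul]; ring
      _ ≤ 2 * K1 := by linarith

open Classical in
/-- **Bateman-Horn for almost all polynomials `a + R(k) + σ d k^j` in short boxes**, absolute
values. -/
theorem bh_abs (j : ℕ) (hj : 1 ≤ j) (ε : ℝ) (hε : 0 < ε) (E0 U : ℕ) : ∃ E' : ℕ, ∀ E : ℕ, E' ≤ E →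
    ∃ B x0 : ℕ, ∀ x : ℕ, x0 ≤ x → ∀ (K D A a0 : ℕ) (R : ℤ[X]) (σ : ℤ), R.natDegree < j →
    BoxP j x K D A a0 σ → (x : ℝ) ≤ D * (K : ℝ) ^ j * Real.log x ^ E0 → (x : ℝ) ^ ε ≤ K →
    x * Real.log x ^ B ≤ (A : ℝ) * D →
    (∀ k ∈ Icc 1 K, |((R.eval (k : ℤ) : ℤ) : ℝ)| ≤ (K : ℝ) ^ j / Real.log x ^ B) →
    ∑ a ∈ Ioc a0 (a0 + A), ∑ d ∈ Ioc D (2 * D),
      |pa (FF R j σ a d) K - SS ⌊Real.log x ^ E⌋₊ (FF R j σ a d) * la (FF R j σ a d) K| ≤
      A * D * K / Real.log x ^ U ∧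
    ((((Ioc a0 (a0 + A)) ×ˢ (Ioc D (2 * D))).filter (fun ad : ℕ × ℕ =>
      (∀ p : ℕ, p.Prime → p ≤ ⌊Real.log x ^ E⌋₊ → rho (FF R j σ ad.1 ad.2) p ≠ p) ∧
      SS ⌊Real.log x ^ E⌋₊ (FF R j σ ad.1 ad.2) * la (FF R j σ ad.1 ad.2) K / Real.log x ^ U <
      |pa (FF R j σ ad.1 ad.2) K -
        SS ⌊Real.log x ^ E⌋₊ (FF R j σ ad.1 ad.2) * la (FF R j σ ad.1 ad.2) K|)).card : ℝ) ≤
      A * D / Real.log x ^ U := by
  obtain ⟨E', hE'⟩ := bh j hj ε hε E0 (2 * U + 4)
  refine ⟨E' + 1, fun E hE => ?_⟩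
  obtain ⟨B1, x1, hbh⟩ := hE' E (by omega)
  obtain ⟨c, hc, hSS⟩ := SS_lower j hj
  obtain ⟨B2, x2, hlow⟩ := lF_lower j hj E0
  obtain ⟨x3, hSSs⟩ := SS_small (E - 1)
  rw [show E - 1 + 1 = E by omega] at hSSs
  have hlogs : ∀ᶠ x : ℕ in atTop, (E * Real.log (Real.log x)) ^ (2 * j) * 4 ≤ c * Real.log x := by
    have h1 : (fun t : ℝ => Real.log t ^ (2 * j)) =o[atTop] fun t : ℝ => t :=
      Real.isLittleO_pow_log_id_atTop
    have h2 := h1.bound (show (0:ℝ) < c / (4 * (1 + E) ^ (2 * j)) by positivity)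
    have h3 := (Real.tendsto_log_atTop.comp (tendsto_natCast_atTop_atTop (R := ℝ))).eventually h2
    filter_upwards [h3, evt_log_ge (Real.exp 1)] with x hx hx2
    simp only [Function.comp] at hx
    have ht0 : 0 < Real.log x := lt_of_lt_of_le (Real.exp_pos 1) hx2
    have hl : 1 ≤ Real.log (Real.log x) := by
      rw [Real.le_log_iff_exp_le ht0]; exact hx2
    rw [Real.norm_of_nonneg (by positivity), Real.norm_of_nonneg ht0.le] at hx
    calc (E * Real.log (Real.log x)) ^ (2 * j) * 4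
        ≤ ((1 + E) * Real.log (Real.log x)) ^ (2 * j) * 4 := by
          gcongr
          linarith
      _ = (4 * (1 + E) ^ (2 * j)) * Real.log (Real.log x) ^ (2 * j) := by
          rw [mul_pow]; ring
      _ ≤ (4 * (1 + E) ^ (2 * j)) * (c / (4 * (1 + E) ^ (2 * j)) * Real.log x) := by gcongr
      _ = c * Real.log x := by field_simp
  have hev : ∀ᶠ x : ℕ in atTop, x1 ≤ x ∧ x2 ≤ x ∧ x3 ≤ x ∧ 3 ≤ x ∧ 8 ≤ Real.log x ∧
      (E * Real.log (Real.log x)) ^ (2 * j) * 4 ≤ c * Real.log x ∧ 2 ≤ (x:ℝ) ^ ε := by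
    filter_upwards [eventually_ge_atTop x1, eventually_ge_atTop x2, eventually_ge_atTop x3,
      eventually_ge_atTop 3, evt_log_ge 8, hlogs, evt_log_pow 1 ε hε] with x h1 h2 h3 h4 h5 h6 h7
    refine ⟨h1, h2, h3, h4, h5, h6, ?_⟩
    rw [pow_one] at h7
    linarith
  obtain ⟨x0, hx0⟩ := eventually_atTop.mp hev
  refine ⟨B1 + B2 + j * (2 * U + 6), x0, fun x hx K D A a0 R σ hRj hboxP hxDK hxK hAD hR => ?_⟩
  obtain ⟨hx1, hx2, hx3', hx3, hL, hll, h2x⟩ := hx0 x hx
  set B := B1 + B2 + j * (2 * U + 6) with hBdef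
  set L := Real.log x with hLdef
  have hL0 : 0 < L := by linarith
  have hL1 : 1 ≤ L := by linarith
  have hLp0 : ∀ n : ℕ, 0 < L ^ n := fun n => by positivity
  have hLp : ∀ n : ℕ, 1 ≤ L ^ n := fun n => one_le_pow₀ hL1
  have hLmono : ∀ m n : ℕ, m ≤ n → L ^ m ≤ L ^ n := fun m n h => pow_le_pow_right₀ hL1 h
  have hxr : (3:ℝ) ≤ x := by exact_mod_cast hx3
  have hx0' : (0:ℝ) < x := by linarith
  have haA : a0 + A ≤ x := by rcases hboxP with ⟨-, h3⟩ | ⟨-, h3, h4⟩ <;> omega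
  have hAx : (A:ℝ) ≤ x := by exact_mod_cast (by omega : A ≤ x)
  have hLBD : L ^ B ≤ D := by
    have h1 : (x:ℝ) * L ^ B ≤ x * D := hAD.trans (by gcongr)
    exact le_of_mul_le_mul_left h1 hx0'
  have hK2 : 2 ≤ K := by
    have : (2:ℝ) ≤ K := h2x.trans hxK
    exact_mod_cast this
  have hKr : (2:ℝ) ≤ K := by exact_mod_cast hK2
  have hK0 : (0:ℝ) < K := by linarith
  have hKj : (0:ℝ) < (K:ℝ) ^ j := by positivity
  have hRB : ∀ B0 : ℕ, B0 ≤ B → ∀ k ∈ Icc 1 K, |((R.eval (k : ℤ) : ℤ) : ℝ)| ≤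
      (K : ℝ) ^ j / L ^ B0 := by
    intro B0 hB0 k hk
    refine (hR k hk).trans ?_
    apply div_le_div_of_nonneg_left (by positivity) (hLp0 _) (hLmono _ _ hB0)
  have hmean := hbh x hx1 K D A a0 R σ hRj hboxP hxDK hxK
    (le_trans (by gcongr; omega) hAD) (hRB B1 (by omega))
  have hlF := hlow x hx2 K D A a0 R σ hK2 ((hLmono _ _ (by omega)).trans hLBD) hboxP hxDK
    (hRB B2 (by omega))
  set z := ⌊L ^ E⌋₊ with hz
  have hzle : (z:ℝ) ≤ L ^ E := Nat.floor_le (by positivity)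
  have hz3 : 3 ≤ z := by
    apply Nat.le_floor
    push_cast
    calc (3:ℝ) ≤ L ^ 1 := by rw [pow_one]; linarith
      _ ≤ L ^ E := hLmono _ _ (by omega)
  have hzr : (3:ℝ) ≤ z := by exact_mod_cast hz3
  obtain ⟨-, hSSz⟩ := hSSs x hx3'
  have hdeg : ∀ a d : ℕ, (FF R j σ a d).natDegree ≤ j := by
    intro a d
    unfold FF
    refine (natDegree_add_le _ _).trans (max_le ?_ ?_)
    · refine (natDegree_add_le _ _).trans (max_le ?_ (by omega))
      rw [natDegree_C]; omega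
    · exact (natDegree_C_mul_X_pow_le _ _)
  set K1 := ⌊(K:ℝ) / L ^ (2 * U + 6)⌋₊ with hK1
  have hK1le : (K1:ℝ) ≤ K / L ^ (2 * U + 6) := Nat.floor_le (by positivity)
  -- positivity
  have hpos : ∀ a ∈ Ioc a0 (a0 + A), ∀ d ∈ Ioc D (2 * D), ∀ k : ℕ, K1 < k → k ≤ K →
      0 ≤ (FF R j σ a d).eval (k : ℤ) := by
    intro a ha d hd k hk1 hkK
    rw [mem_Ioc] at ha hd
    have hRk := abs_le.mp (hR k (by rw [mem_Icc]; omega))
    have hkr : (k:ℝ) ≤ K := by exact_mod_cast hkK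
    have hda : (D:ℝ) ≤ d := by exact_mod_cast hd.1.le
    have hdb : (d:ℝ) ≤ 2 * D := by exact_mod_cast hd.2
    have hF : (((FF R j σ a d).eval (k : ℤ) : ℤ) : ℝ) =
        a + ((R.eval (k : ℤ) : ℤ) : ℝ) + σ * d * (k:ℝ) ^ j := by
      rw [FF_eval]; push_cast; ring
    have key : (0:ℝ) ≤ (((FF R j σ a d).eval (k : ℤ) : ℤ) : ℝ) := by
      rw [hF]
      have hRK : (K:ℝ) ^ j / L ^ B ≤ (K:ℝ) ^ j := div_le_self hKj.le (hLp _)
      rcases hboxP with ⟨rfl, h3⟩ | ⟨rfl, h3, h4⟩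
      · have h8 : ((1 : ℤ) : ℝ) = 1 := by norm_num
        rw [h8, one_mul]
        have ha0 : (0:ℝ) ≤ a := Nat.cast_nonneg _
        have h9 : (K:ℝ) / L ^ (2 * U + 6) < k := by
          have h10 : (K:ℝ) / L ^ (2 * U + 6) < K1 + 1 := Nat.lt_floor_add_one _
          have h11 : (K1:ℝ) + 1 ≤ k := by exact_mod_cast hk1
          linarith
        have h10 : (K:ℝ) ≤ k * L ^ (2 * U + 6) := by
          rw [div_lt_iff₀ (hLp0 _)] at h9
          exact h9.le
        have h11 : (K:ℝ) ^ j ≤ (k:ℝ) ^ j * L ^ (j * (2 * U + 6)) := by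
          calc (K:ℝ) ^ j ≤ (k * L ^ (2 * U + 6)) ^ j := by gcongr
            _ = _ := by rw [mul_pow, ← pow_mul, mul_comm (2 * U + 6) j]
        have h12 : (K:ℝ) ^ j / L ^ B ≤ (k:ℝ) ^ j := by
          rw [div_le_iff₀ (hLp0 _)]
          refine h11.trans ?_
          gcongr
          omega
        have h13 : (k:ℝ) ^ j ≤ d * (k:ℝ) ^ j := by
          have : (1:ℝ) ≤ d := (hLp B).trans (hLBD.trans hda)
          have hk0 : (0:ℝ) ≤ (k:ℝ) ^ j := by positivity
          nlinarith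
        linarith [hRk.1]
      · have h8 : ((-1 : ℤ) : ℝ) = -1 := by norm_num
        rw [h8]
        have h5 : (4:ℝ) * D * (K:ℝ) ^ j ≤ a0 := by exact_mod_cast h3
        have h6 : (d:ℝ) * (k:ℝ) ^ j ≤ 2 * D * (K:ℝ) ^ j := by gcongr
        have h7 : (a0:ℝ) ≤ a := by exact_mod_cast ha.1.le
        have h9 : (K:ℝ) ^ j ≤ D * (K:ℝ) ^ j := by
          have : (1:ℝ) ≤ D := (hLp B).trans hLBD
          nlinarith
        linarith [hRk.1]
    exact_mod_cast key
  have hconv : ∀ a ∈ Ioc a0 (a0 + A), ∀ d ∈ Ioc D (2 * D),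
      |pa (FF R j σ a d) K - SS z (FF R j σ a d) * la (FF R j σ a d) K| ≤
      |pv (FF R j σ a d) K - SS z (FF R j σ a d) * lF (FF R j σ a d) K| + K / L ^ (2 * U + 4) := by
    intro a ha d hd
    obtain ⟨c1, c2, c3⟩ := abs_conv (FF R j σ a d) K K1 (hpos a ha d hd)
    obtain ⟨s1, s2⟩ := hSSz (FF R j σ a d)
    have e1 : pa (FF R j σ a d) K - SS z (FF R j σ a d) * la (FF R j σ a d) K =
        (pa (FF R j σ a d) K - pv (FF R j σ a d) K) +
        (pv (FF R j σ a d) K - SS z (FF R j σ a d) * lF (FF R j σ a d) K) +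
        (-(SS z (FF R j σ a d) * (la (FF R j σ a d) K - lF (FF R j σ a d) K))) := by ring
    rw [e1]
    refine (abs_add_le _ _).trans ?_
    have h1 := abs_add_le (pa (FF R j σ a d) K - pv (FF R j σ a d) K)
      (pv (FF R j σ a d) K - SS z (FF R j σ a d) * lF (FF R j σ a d) K)
    have h2 : |-(SS z (FF R j σ a d) * (la (FF R j σ a d) K - lF (FF R j σ a d) K))| ≤
        L * (2 * K1) := by
      rw [abs_neg, abs_of_nonneg (mul_nonneg s1 c2)]
      exact mul_le_mul s2 c3 c2 hL0.le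
    have h3 : (K1:ℝ) + L * (2 * K1) ≤ K / L ^ (2 * U + 4) := by
      have hK1n : (0:ℝ) ≤ K1 := Nat.cast_nonneg _
      have hLL : 1 + 2 * L ≤ L * L := by nlinarith
      calc (K1:ℝ) + L * (2 * K1) = (1 + 2 * L) * K1 := by ring
        _ ≤ L * L * K1 := by gcongr
        _ ≤ L * L * (K / L ^ (2 * U + 6)) := by gcongr
        _ = K / L ^ (2 * U + 4) := by
            rw [show 2 * U + 6 = 2 * U + 4 + 1 + 1 by ring, pow_succ, pow_succ]
            field_simp
    linarith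
  have hmean2 : ∑ a ∈ Ioc a0 (a0 + A), ∑ d ∈ Ioc D (2 * D),
      |pa (FF R j σ a d) K - SS z (FF R j σ a d) * la (FF R j σ a d) K| ≤
      A * D * K / L ^ (2 * U + 3) := by
    calc _ ≤ ∑ a ∈ Ioc a0 (a0 + A), ∑ d ∈ Ioc D (2 * D),
          (|pv (FF R j σ a d) K - SS z (FF R j σ a d) * lF (FF R j σ a d) K| +
            K / L ^ (2 * U + 4)) := sum_le_sum fun a ha => sum_le_sum fun d hd => hconv a ha d hd
      _ = (∑ a ∈ Ioc a0 (a0 + A), ∑ d ∈ Ioc D (2 * D),
          |pv (FF R j σ a d) K - SS z (FF R j σ a d) * lF (FF R j σ a d) K|) +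
          A * (D * (K / L ^ (2 * U + 4))) := by
          simp only [sum_add_distrib, sum_const, Nat.card_Ioc, nsmul_eq_mul]
          rw [show a0 + A - a0 = A by omega, show 2 * D - D = D by omega]
      _ ≤ A * D * K / L ^ (2 * U + 4) + A * (D * (K / L ^ (2 * U + 4))) := by gcongr
      _ = A * D * K / L ^ (2 * U + 3) * (2 / L) := by
          rw [show 2 * U + 4 = 2 * U + 3 + 1 by ring, pow_succ]
          field_simp
          ring
      _ ≤ A * D * K / L ^ (2 * U + 3) * 1 := by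
          apply mul_le_mul_of_nonneg_left _ (by positivity)
          rw [div_le_one hL0]
          linarith
      _ = _ := mul_one _
  constructor
  · refine hmean2.trans ?_
    apply div_le_div_of_nonneg_left (by positivity) (hLp0 _) (hLmono _ _ (by omega))
  · set P := ((Ioc a0 (a0 + A)) ×ˢ (Ioc D (2 * D))).filter (fun ad : ℕ × ℕ =>
      (∀ p : ℕ, p.Prime → p ≤ z → rho (FF R j σ ad.1 ad.2) p ≠ p) ∧
      SS z (FF R j σ ad.1 ad.2) * la (FF R j σ ad.1 ad.2) K / L ^ U <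
      |pa (FF R j σ ad.1 ad.2) K -
        SS z (FF R j σ ad.1 ad.2) * la (FF R j σ ad.1 ad.2) K|) with hP
    have hmain : ∀ ad ∈ P, K / L ^ (U + 3) ≤ |pa (FF R j σ ad.1 ad.2) K -
        SS z (FF R j σ ad.1 ad.2) * la (FF R j σ ad.1 ad.2) K| := by
      intro ad had
      rw [hP, mem_filter, mem_product] at had
      obtain ⟨⟨ha, hd⟩, hb, hlt⟩ := had
      refine le_trans ?_ hlt.le
      have h1 := hSS z hz3 _ (hdeg ad.1 ad.2) hb
      have h2 := hlF ad.1 ha ad.2 hd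
      obtain ⟨-, c2, -⟩ := abs_conv (FF R j σ ad.1 ad.2) K K1 (hpos ad.1 ha ad.2 hd)
      have h2' : K / (4 * L) ≤ la (FF R j σ ad.1 ad.2) K := by linarith
      have hlogz : Real.log z ≤ E * Real.log L := by
        rw [← Real.log_pow]
        exact Real.log_le_log (by linarith) hzle
      have hlogz0 : 0 < Real.log z := Real.log_pos (by linarith)
      have h3 : 4 / L ≤ SS z (FF R j σ ad.1 ad.2) := by
        refine le_trans ?_ h1
        rw [div_le_div_iff₀ hL0 (by positivity)]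
        calc 4 * Real.log z ^ (2 * j) ≤ 4 * (E * Real.log L) ^ (2 * j) := by gcongr
          _ = (E * Real.log L) ^ (2 * j) * 4 := by ring
          _ ≤ c * L := hll
      have hSS0 : 0 ≤ SS z (FF R j σ ad.1 ad.2) := le_trans (by positivity) h3
      calc K / L ^ (U + 3) ≤ (4 / L) * (K / (4 * L)) / L ^ U := by
            rw [show U + 3 = U + 2 + 1 by ring, pow_succ, pow_add]
            have : (4 / L) * (K / (4 * L)) / L ^ U = K / (L ^ U * L ^ 2) := by
              field_simp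
            rw [this]
            apply div_le_div_of_nonneg_left (by positivity) (by positivity)
            exact le_mul_of_one_le_right (by positivity) hL1
        _ ≤ SS z (FF R j σ ad.1 ad.2) * la (FF R j σ ad.1 ad.2) K / L ^ U := by
            gcongr
    have hcount : (P.card : ℝ) * (K / L ^ (U + 3)) ≤ A * D * K / L ^ (2 * U + 3) := by
      refine le_trans ?_ hmean2
      rw [← sum_product']
      calc (P.card : ℝ) * (K / L ^ (U + 3)) = ∑ ad ∈ P, K / L ^ (U + 3) := by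
            rw [sum_const, nsmul_eq_mul]
        _ ≤ ∑ ad ∈ P, |pa (FF R j σ ad.1 ad.2) K -
            SS z (FF R j σ ad.1 ad.2) * la (FF R j σ ad.1 ad.2) K| := sum_le_sum hmain
        _ ≤ _ := sum_le_sum_of_subset_of_nonneg (filter_subset _ _) fun _ _ _ => abs_nonneg _
    have hKL : 0 < K / L ^ (U + 3) := by positivity
    have h5 : (P.card : ℝ) * (K / L ^ (U + 3)) ≤ (A * D / L ^ U) * (K / L ^ (U + 3)) := by
      refine hcount.trans (le_of_eq ?_)
      rw [show 2 * U + 3 = U + (U + 3) by ring, pow_add L U (U + 3)]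
      field_simp
    exact le_of_mul_le_mul_right h5 hKL

end Pool.Agent.H300R2.FB
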