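import Pool.Agent.H221R2.FB_VdcGen
import Pool.Agent.H619R2.FB_LogChain

/-!
van der Corput for the logarithm of a perturbed monomial.
-/

namespace Pool.Agent.H300R2.FB

open Finset
open Pool.Agent.H469R2.NK (e)

theorem vdcPoly : VdcPoly := by
  intro j hj M
  obtain ⟨κ, hκ, c0, C0, hc0, hch⟩ := Pool.Agent.H619R2.FB5.log_chain j hj (M + 4)
  obtain ⟨η, hη, -, C, hC, hv⟩ := Pool.Agent.H221R2.FB.vdc_gen M c0 C0 hc0
  refine ⟨κ, hκ, η, hη, C, hC, ?_⟩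
  intro J L u ξ b hJ hu hL huL hb h1 h2
  obtain ⟨φ, hφ0, hφ1, hφ2⟩ := hch J b hJ hb
  have h3 := hv J L u ξ φ hJ hu hL huL hφ1 hφ2 h1 h2
  refine le_trans (le_of_eq ?_) h3
  congr 1
  refine sum_congr rfl fun n hn => ?_
  rw [hφ0]
  rw [mem_range] at hn
  have hn' : (n:ℝ) ≤ L := by exact_mod_cast hn.le
  have hn0 : (0:ℝ) ≤ n := Nat.cast_nonneg _
  constructor
  · linarith
  · linarith

end Pool.Agent.H300R2.FB
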